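import Pool.Agent.MP_48b1c3_nt.H54.Defs

/-! Mertens type estimates from the behaviour of Dirichlet series as `σ → 1+`. -/

/-
HINTS.  D σ = ∑' n, c n / n^σ, G σ = ∑' n, c n / (log n * n^σ) (terms n = 0, 1 vanish as c 0 = c 1 = 0; 1/log n ≤ 2 for n ≥ 2).  For 1 < a ≤ b ≤ 2:
G a - G b = ∫ σ in a..b, D σ (termwise ∫ n^(-σ) = (n^(-a) - n^(-b))/log n, hasSum_integral_of_summable_norm or intervalIntegral versions; or show G' = -D by hasDerivAt_tsum_of_isPreconnected),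
so |G a - G b - log ((b-1)/(a-1))| ≤ E (b - a).  Put a = 1 + 1/log y ≤ 2.
log_lower: if log y < E the left side is negative.  Otherwise b = 1 + 1/E: G a ≥ log (log y / E) - 1, and the tail n > y of G a is ≤ D a / log y ≤ 1 + E/log y ≤ 2; head terms: n^(-a) ≤ 1/n.
log_upper: for n ≤ y, 1/n ≤ e n^(-a) (n^(1/log y) ≤ e), so ∑_{n ≤ y} c n / n ≤ e (log y + E); and 1/n - n^(-a) ≤ (log n / log y)/n, G a ≤ G 2 + log (log y) + E, G 2 ≤ 2 D 2 ≤ 2 (1 + E).
vonMangoldt_series: LSeries_vonMangoldt_eq_deriv_riemannZeta_div and continuity of -deriv Z / Z on the compact [1,2], Z = LFunctionTrivChar₁ 1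
(continuousOn_neg_logDeriv_LFunctionTrivChar₁, deriv_LFunctionTrivChar₁_apply_of_ne_one); or take q = 1 in ArithmeticFunction.vonMangoldt.eqOn_LFunctionResidueClassAux
and copy the proof of LSeries_residueClass_lower_bound.
mertens2: c = Λ; Λ n/(n log n) = 1/p at primes, non-primes contribute O(1) (summable_residueClass_non_primes_div with q = 1).  For 2 ≤ y < 3 or y < 3 treat directly.
-/

namespace Pool.Agent.MP_48b1c3_nt.H54

open Finset

section

variable {c : ℕ → ℝ} (hc : ∀ n, 0 ≤ c n) (h0 : c 0 = 0) (h1 : c 1 = 0) {E : ℝ}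
  (hs : ∀ σ : ℝ, 1 < σ → Summable fun n : ℕ => c n / (n : ℝ) ^ σ)
  (h : ∀ σ : ℝ, 1 < σ → σ ≤ 2 → |∑' n : ℕ, c n / (n : ℝ) ^ σ - 1 / (σ - 1)| ≤ E)

theorem mertens_log_ge {n : ℕ} (hn : 2 ≤ n) : 1 / 2 ≤ Real.log n :=
  le_trans (by linarith [Real.log_two_gt_d9]) (Real.log_le_log two_pos (by exact_mod_cast hn))

include h0 h1 in
theorem mertens_cases (n : ℕ) : c n = 0 ∨ 2 ≤ n := by
  rcases n with _ | _ | n
  exacts [.inl h0, .inl h1, .inr (by omega)]

include hc in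
theorem mertens_nonneg (σ : ℝ) (n : ℕ) : 0 ≤ c n / (Real.log n * (n : ℝ) ^ σ) :=
  div_nonneg (hc n) (mul_nonneg (Real.log_natCast_nonneg n) (by positivity))

include hc h0 h1 in
theorem mertens_le (σ : ℝ) (n : ℕ) :
    c n / (Real.log n * (n : ℝ) ^ σ) ≤ 2 * (c n / (n : ℝ) ^ σ) := by
  rcases mertens_cases h0 h1 n with hn | hn
  · simp [hn]
  have h2 := mertens_log_ge hn
  rw [mul_comm (Real.log n), ← div_div, div_le_iff₀ (by linarith)]
  nlinarith [div_nonneg (hc n) (Real.rpow_nonneg n.cast_nonneg σ)]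

include hc h0 h1 hs in
theorem mertens_summ {σ : ℝ} (hσ : 1 < σ) :
    Summable fun n : ℕ => c n / (Real.log n * (n : ℝ) ^ σ) :=
  ((hs σ hσ).mul_left 2).of_nonneg_of_le (mertens_nonneg hc σ) (mertens_le hc h0 h1 σ)

include hc h0 h1 hs in
theorem mertens_deriv {σ : ℝ} (hσ : 1 < σ) :
    HasDerivAt (fun s : ℝ => ∑' n : ℕ, c n / (Real.log n * (n : ℝ) ^ s))
      (-∑' n : ℕ, c n / (n : ℝ) ^ σ) σ := by
  rw [← tsum_neg]
  obtain ⟨a, ha, ha'⟩ := exists_between hσ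
  refine hasDerivAt_tsum_of_isPreconnected (g' := fun (n : ℕ) s => -(c n / (n : ℝ) ^ s)) (hs a ha)
    isOpen_Ioi (isPreconnected_Ioi (a := a)) (fun n s _ => ?_) (fun n s hs => ?_) ha'
    (mertens_summ hc h0 h1 hs hσ) ha'
  · rcases mertens_cases h0 h1 n with hn | hn
    · simpa [hn] using hasDerivAt_const s (0 : ℝ)
    have h2 := mertens_log_ge hn
    have h3 : (0 : ℝ) < n := by positivity
    have h4 : 0 < Real.log n := by linarith
    refine ((hasDerivAt_const s (c n)).fun_div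
      ((Real.hasStrictDerivAt_const_rpow h3 s).hasDerivAt.const_mul (Real.log n))
      (by positivity)).congr_deriv ?_
    field_simp
    ring
  · rcases mertens_cases h0 h1 n with hn | hn
    · simp [hn]
    have := hc n
    rw [norm_neg, Real.norm_of_nonneg (by positivity)]
    exact div_le_div_of_nonneg_left this (by positivity)
      (Real.rpow_le_rpow_of_exponent_le (by exact_mod_cast (by omega : 1 ≤ n)) (le_of_lt hs))

include hc h0 h1 hs h in
theorem mertens_G {a b : ℝ} (ha : 1 < a) (hab : a ≤ b) (hb : b ≤ 2) :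
    |∑' n : ℕ, c n / (Real.log n * (n : ℝ) ^ b) + Real.log (b - 1) -
      (∑' n : ℕ, c n / (Real.log n * (n : ℝ) ^ a) + Real.log (a - 1))| ≤ E * (b - a) :=
  norm_image_sub_le_of_norm_deriv_le_segment'
    (f := fun s : ℝ => ∑' n : ℕ, c n / (Real.log n * (n : ℝ) ^ s) + Real.log (s - 1))
    (f' := fun s : ℝ => -∑' n : ℕ, c n / (n : ℝ) ^ s + 1 / (s - 1))
    (fun s hs' => ((mertens_deriv hc h0 h1 hs (ha.trans_le hs'.1)).add
      (((hasDerivAt_id s).sub_const 1).log (sub_pos.2 (ha.trans_le hs'.1)).ne')).hasDerivWithinAt)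
    (fun s hs' => by
      rw [Real.norm_eq_abs, neg_add_eq_sub, abs_sub_comm]
      exact h s (ha.trans_le hs'.1) (hs'.2.le.trans hb)) b ⟨hab, le_rfl⟩

end

theorem mertens_one_lt {y : ℝ} (hy : 3 ≤ y) : 1 < Real.log y := by
  rw [Real.lt_log_iff_exp_lt (by linarith)]
  linarith [Real.exp_one_lt_d9]

theorem log_lower (c : ℕ → ℝ) (hc : ∀ n, 0 ≤ c n) (h0 : c 0 = 0) (h1 : c 1 = 0) {E : ℝ}
    (hE : 1 ≤ E) (hs : ∀ σ : ℝ, 1 < σ → Summable fun n : ℕ => c n / (n : ℝ) ^ σ)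
    (h : ∀ σ : ℝ, 1 < σ → σ ≤ 2 → |∑' n : ℕ, c n / (n : ℝ) ^ σ - 1 / (σ - 1)| ≤ E) {y : ℝ}
    (hy : 3 ≤ y) :
    Real.log (Real.log y) - Real.log E - 3 ≤ ∑ n ∈ Icc 1 ⌊y⌋₊, c n / (n * Real.log n) := by
  have hL := mertens_one_lt hy
  obtain ⟨L, hL'⟩ : ∃ L, L = Real.log y := ⟨_, rfl⟩
  rw [← hL'] at hL ⊢
  have hL0 : 0 < L := by linarith
  have hE0 : 0 < E := by linarith
  rcases le_total L E with hLE | hLE
  · have := Real.log_le_log hL0 hLE
    exact le_trans (by linarith) (sum_nonneg fun n _ =>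
      div_nonneg (hc n) (mul_nonneg n.cast_nonneg (Real.log_natCast_nonneg n)))
  have ha : 1 < 1 + L⁻¹ := lt_add_of_pos_right _ (inv_pos.2 hL0)
  have h2 := (abs_le.1 (mertens_G hc h0 h1 hs h ha (b := 1 + E⁻¹) (by gcongr)
    (by linarith [inv_le_one_of_one_le₀ hE]))).2
  have h3 := (abs_le.1 (h _ ha (by linarith [inv_le_one_of_one_le₀ hL.le]))).2
  simp only [add_sub_cancel_left, Real.log_inv, add_sub_add_left_eq_sub, mul_sub,
    mul_inv_cancel₀ hE0.ne', one_div, inv_inv] at h2 h3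
  have h4 : (0 : ℝ) ≤ ∑' n, _ := tsum_nonneg (mertens_nonneg hc (1 + E⁻¹))
  have h5 := hasSum_le (fun n => ?_) (mertens_summ hc h0 h1 hs ha).hasSum
    ((hasSum_subtype_iff_indicator.1
      ((Icc 1 ⌊y⌋₊).hasSum fun n : ℕ => c n / (n * Real.log n))).add ((hs _ ha).hasSum.div_const L))
  · have h6 : (∑' n : ℕ, c n / (n : ℝ) ^ (1 + L⁻¹)) / L ≤ 2 := by
      rw [div_le_iff₀ hL0]
      linarith
    have h7 : 0 ≤ E * L⁻¹ := by positivity
    linarith
  have h6 := hc n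
  rcases mertens_cases h0 h1 n with hn | hn
  · simp [hn, Set.indicator_apply]
  have h7 := mertens_log_ge hn
  have h8 : (1 : ℝ) ≤ n := by exact_mod_cast (by omega : 1 ≤ n)
  by_cases hy' : n ≤ ⌊y⌋₊
  · rw [Set.indicator_of_mem (by simpa using ⟨by omega, hy'⟩), mul_comm (n : ℝ)]
    refine le_add_of_le_of_nonneg ?_ (by positivity)
    gcongr
    exact Real.self_le_rpow_of_one_le h8 ha.le
  · rw [Set.indicator_of_notMem (by simp [hy']), zero_add, div_div, mul_comm _ L, hL']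
    gcongr
    · rw [← hL']
      positivity
    · exact (Nat.lt_of_floor_lt (not_le.1 hy')).le

theorem log_upper (c : ℕ → ℝ) (hc : ∀ n, 0 ≤ c n) (h0 : c 0 = 0) (h1 : c 1 = 0) {E : ℝ}
    (hE : 1 ≤ E) (hs : ∀ σ : ℝ, 1 < σ → Summable fun n : ℕ => c n / (n : ℝ) ^ σ)
    (h : ∀ σ : ℝ, 1 < σ → σ ≤ 2 → |∑' n : ℕ, c n / (n : ℝ) ^ σ - 1 / (σ - 1)| ≤ E) {y : ℝ}
    (hy : 3 ≤ y) :
    ∑ n ∈ Icc 1 ⌊y⌋₊, c n / (n * Real.log n) ≤ Real.log (Real.log y) + 12 * E ∧
      ∑ n ∈ Icc 1 ⌊y⌋₊, c n / n ≤ 3 * (Real.log y + E) := by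
  have hL := mertens_one_lt hy
  obtain ⟨L, hL'⟩ : ∃ L, L = Real.log y := ⟨_, rfl⟩
  rw [← hL'] at hL ⊢
  have hL0 : 0 < L := by linarith
  have hL1 := inv_le_one_of_one_le₀ hL.le
  have hL2 := inv_pos.2 hL0
  have ha : 1 < 1 + L⁻¹ := by linarith
  have h2 := (abs_le.1 (mertens_G hc h0 h1 hs h ha (b := 2) (by linarith) le_rfl)).1
  have h3 := (abs_le.1 (h _ ha (by linarith))).2
  have h4 := (abs_le.1 (h 2 one_lt_two le_rfl)).2
  simp only [add_sub_cancel_left, Real.log_inv, one_div, inv_inv,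
    show (2 : ℝ) - 1 = 1 by norm_num, Real.log_one, inv_one] at h2 h3 h4
  have e : ∀ n ∈ Icc 1 ⌊y⌋₊, (n : ℝ) ^ (1 + L⁻¹) = n * Real.exp (Real.log n * L⁻¹) := fun n hn => by
    have : (0 : ℝ) < n := by exact_mod_cast (mem_Icc.1 hn).1
    rw [Real.rpow_add this, Real.rpow_one, Real.rpow_def_of_pos this]
  have h5 : ∑ n ∈ Icc 1 ⌊y⌋₊, c n / n ≤ 3 * (L + E) := by
    refine le_trans (sum_le_sum fun n hn => ?_) ((((hs _ ha).mul_left 3).sum_le_tsum _
      fun n _ => by have := hc n; positivity).trans (by rw [tsum_mul_left]; linarith))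
    have h5 : (0 : ℝ) < n := by exact_mod_cast (mem_Icc.1 hn).1
    have h6 : Real.exp (Real.log n * L⁻¹) ≤ 3 := by
      refine (Real.exp_le_exp.2 (mul_inv_le_one_of_le₀ ?_ hL0.le)).trans
        (by linarith [Real.exp_one_lt_d9])
      exact hL' ▸ Real.log_le_log h5 ((Nat.le_floor_iff (by linarith)).1 (mem_Icc.1 hn).2)
    rw [e n hn, ← div_div, ← mul_div_assoc, le_div_iff₀ (Real.exp_pos _), mul_comm]
    exact mul_le_mul_of_nonneg_right h6 (div_nonneg (hc n) h5.le)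
  refine ⟨?_, h5⟩
  have h6 := (mertens_summ hc h0 h1 hs one_lt_two).tsum_le_tsum (mertens_le hc h0 h1 2)
    ((hs 2 one_lt_two).mul_left 2)
  rw [tsum_mul_left] at h6
  have h7 := (mertens_summ hc h0 h1 hs ha).sum_le_tsum (Icc 1 ⌊y⌋₊)
    fun n _ => mertens_nonneg hc _ n
  have h8 : ∑ n ∈ Icc 1 ⌊y⌋₊, c n / (n * Real.log n) ≤
      ∑ n ∈ Icc 1 ⌊y⌋₊, c n / (Real.log n * (n : ℝ) ^ (1 + L⁻¹)) +
        (∑ n ∈ Icc 1 ⌊y⌋₊, c n / n) * L⁻¹ := by
    rw [sum_mul, ← sum_add_distrib]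
    refine sum_le_sum fun n hn => ?_
    rcases mertens_cases h0 h1 n with hn' | hn'
    · simp [hn']
    have h8 : 0 < Real.log n := by linarith [mertens_log_ge hn']
    have h9 : (0 : ℝ) < n := by positivity
    have h10 := mul_le_mul_of_nonneg_left (Real.add_one_le_exp (-(Real.log n * L⁻¹)))
      (div_nonneg (hc n) (mul_pos h9 h8).le)
    rw [e n hn]
    rw [Real.exp_neg] at h10
    calc _ = c n / (n * Real.log n) * (-(Real.log n * L⁻¹) + 1) + c n / n * L⁻¹ := by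
          field_simp
          ring
      _ ≤ _ := add_le_add_left (h10.trans (le_of_eq (by field_simp))) _
  have h9 := mul_le_mul_of_nonneg_right h5 hL2.le
  rw [mul_assoc, add_mul, mul_inv_cancel₀ hL0.ne'] at h9
  nlinarith [mul_le_mul_of_nonneg_left hL1 (zero_le_one.trans hE), mul_pos hL2 (one_pos.trans_le hE)]

open ArithmeticFunction ArithmeticFunction.vonMangoldt

theorem mertens_res : residueClass (1 : ZMod 1) = fun n => vonMangoldt n :=
  funext fun n => Set.indicator_of_mem (s := {n : ℕ | (n : ZMod 1) = 1}) (a := n)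
    (Subsingleton.elim (n : ZMod 1) 1) _

theorem mertens_summable {σ : ℝ} (hσ : 1 < σ) :
    Summable fun n : ℕ => vonMangoldt n / (n : ℝ) ^ σ := by
  refine (LSeriesSummable_vonMangoldt (s := σ) hσ).norm.congr fun n => ?_
  rw [LSeries.norm_term_eq]
  split_ifs with hn
  · simp [hn]
  · rw [Complex.norm_real, Real.norm_of_nonneg vonMangoldt_nonneg, Complex.ofReal_re]

theorem mertens_LSeries (f : ℕ → ℝ) (h0 : f 0 = 0) (σ : ℝ) :
    LSeries (fun n => (f n : ℂ)) σ = ((∑' n : ℕ, f n / (n : ℝ) ^ σ : ℝ) : ℂ) := by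
  simp only [Complex.ofReal_tsum, Complex.ofReal_div, Complex.ofReal_cpow (Nat.cast_nonneg _),
    Complex.ofReal_natCast, LSeries, LSeries.term]
  refine tsum_congr fun n => ?_
  split_ifs with hn
  · simp [hn, h0]
  · rfl

theorem vonMangoldt_series : ∃ E : ℝ, 1 ≤ E ∧ ∀ σ : ℝ, 1 < σ → σ ≤ 2 →
    |∑' n : ℕ, ArithmeticFunction.vonMangoldt n / (n : ℝ) ^ σ - 1 / (σ - 1)| ≤ E := by
  obtain ⟨C, hC⟩ := (isCompact_Icc (a := (1 : ℝ)) (b := 2)).exists_bound_of_continuousOn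
    ((continuousOn_LFunctionResidueClassAux (1 : ZMod 1)).comp
      Complex.continuous_ofReal.continuousOn fun x hx => by simpa using hx.1)
  refine ⟨max 1 C, le_max_left _ _, fun σ h1 h2 => le_trans (le_of_eq ?_)
    ((hC σ ⟨h1.le, h2⟩).trans (le_max_right _ _))⟩
  rw [Function.comp_apply, eqOn_LFunctionResidueClassAux isUnit_one (by simpa using h1),
    mertens_res]
  dsimp only
  rw [mertens_LSeries _ (by simp), ← Real.norm_eq_abs, ← Complex.norm_real]
  simp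

theorem mertens_PI (y : ℝ) : PI 0 y = (Icc 1 ⌊y⌋₊).filter Nat.Prime := by
  rw [PI, Nat.floor_zero]
  rfl

theorem mertens_mono {y z : ℝ} (h : y ≤ z) : PI 0 y ⊆ PI 0 z := fun _ hp =>
  mem_PI.2 ⟨(mem_PI.1 hp).1, (mem_PI.1 hp).2.1.trans h, (mem_PI.1 hp).2.2⟩

theorem mertens1 : ∃ C : ℝ, 0 < C ∧ ∀ y : ℝ, 1 ≤ y →
    ∑ p ∈ PI 0 y, Real.log p / p ≤ 3 * Real.log y + C := by
  obtain ⟨E, hE, h⟩ := vonMangoldt_series
  refine ⟨3 * (Real.log 3 + E), by positivity, fun y hy => ?_⟩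
  have h1 := (log_upper _ (fun _ => vonMangoldt_nonneg) (by simp) (by simp) hE
    (fun _ => mertens_summable) h (y := 3 * y) (by linarith)).2
  rw [Real.log_mul three_ne_zero (by positivity)] at h1
  calc _ ≤ ∑ p ∈ PI 0 (3 * y), Real.log p / p :=
        sum_le_sum_of_subset_of_nonneg (mertens_mono (by linarith)) fun p _ _ => by positivity
    _ = ∑ p ∈ PI 0 (3 * y), vonMangoldt p / p :=
        sum_congr rfl fun p hp => by rw [vonMangoldt_apply_prime (mem_PI.1 hp).2.2]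
    _ ≤ ∑ n ∈ Icc 1 ⌊3 * y⌋₊, vonMangoldt n / n := by
        rw [mertens_PI]
        exact sum_le_sum_of_subset_of_nonneg (filter_subset _ _) fun n _ _ =>
          div_nonneg vonMangoldt_nonneg n.cast_nonneg
    _ ≤ _ := by linarith

theorem mertens_prime {p : ℕ} (hp : p.Prime) : vonMangoldt p / (p * Real.log p) = 1 / p := by
  have := mertens_log_ge hp.two_le
  rw [vonMangoldt_apply_prime hp, div_mul_cancel_right₀ (by linarith), one_div]

theorem mertens2 : ∃ C : ℝ, 0 < C ∧ ∀ y : ℝ, 2 ≤ y →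
    |∑ p ∈ PI 0 y, (1 : ℝ) / p - Real.log (Real.log y)| ≤ C := by
  obtain ⟨E, hE, h⟩ := vonMangoldt_series
  have h0 := summable_residueClass_non_primes_div (1 : ZMod 1)
  simp only [mertens_res] at h0
  have h1 : ∀ n : ℕ, 0 ≤ (if n.Prime then 0 else vonMangoldt n) / (n : ℝ) := fun n =>
    div_nonneg (by split_ifs; exacts [le_rfl, vonMangoldt_nonneg]) n.cast_nonneg
  have h2 : (0 : ℝ) ≤ ∑' n, _ := tsum_nonneg h1
  have h3 := Real.log_le_self (zero_le_one.trans hE)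
  refine ⟨13 * E + 3 + 2 * ∑' n : ℕ, (if n.Prime then 0 else vonMangoldt n) / (n : ℝ),
    by positivity, fun y hy => abs_le.2 ⟨?_, ?_⟩⟩
  · rcases le_total y 3 with h4 | h4
    · have h5 := Real.log_le_self (Real.log_nonneg (by linarith : 1 ≤ y))
      have h6 := Real.log_le_self (by linarith : 0 ≤ y)
      have h7 : 0 ≤ ∑ p ∈ PI 0 y, (1 : ℝ) / p := sum_nonneg fun _ _ => by positivity
      linarith
    have h5 := log_lower _ (fun _ => vonMangoldt_nonneg) (by simp) (by simp) hE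
      (fun _ => mertens_summable) h h4
    have h6 := h0.sum_le_tsum (Icc 1 ⌊y⌋₊) fun n _ => h1 n
    have h7 : ∑ n ∈ Icc 1 ⌊y⌋₊, vonMangoldt n / (n * Real.log n) ≤ ∑ p ∈ PI 0 y, (1 : ℝ) / p +
        2 * ∑ n ∈ Icc 1 ⌊y⌋₊, (if n.Prime then 0 else vonMangoldt n) / (n : ℝ) := by
      rw [mertens_PI, sum_filter, mul_sum, ← sum_add_distrib]
      refine sum_le_sum fun n _ => ?_
      split_ifs with hn
      · rw [mertens_prime hn, zero_div, mul_zero, add_zero]
      · simpa [mul_comm] using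
          mertens_le (c := vonMangoldt) (fun _ => vonMangoldt_nonneg) (by simp) (by simp) 1 n
    linarith
  · have h4 := (log_upper _ (fun _ => vonMangoldt_nonneg) (by simp) (by simp) hE
      (fun _ => mertens_summable) h (y := y ^ 2) (by nlinarith)).1
    rw [Real.log_pow, Real.log_mul (by norm_num) (Real.log_pos (by linarith)).ne'] at h4
    have h5 : ∑ p ∈ PI 0 y, (1 : ℝ) / p ≤
        ∑ n ∈ Icc 1 ⌊y ^ 2⌋₊, vonMangoldt n / (n * Real.log n) := by
      rw [← sum_congr rfl fun p hp => mertens_prime (mem_PI.1 hp).2.2]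
      exact sum_le_sum_of_subset_of_nonneg ((mertens_mono (z := y ^ 2) (by nlinarith)).trans
        (by rw [mertens_PI]; exact filter_subset _ _)) fun n _ _ =>
        div_nonneg vonMangoldt_nonneg (mul_nonneg n.cast_nonneg (Real.log_natCast_nonneg n))
    have h6 := Real.log_le_self (Nat.cast_nonneg (α := ℝ) 2)
    push_cast at h4 h6
    linarith

end Pool.Agent.MP_48b1c3_nt.H54
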