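import Mathlib

/-! An abstract two-sided sieve (Selberg's square and `Λ² Λ⁻`). -/

/-
HINTS.  h i = g i/(1 - g i), G = ∏ (1 + h i) = 1/V, y r = max 0 (1 - ∑ i ∈ r, l i) for r ⊆ P.  For T ⊆ P (the set of i with ω i n) put u i T = h i - (if i ∈ T then 1/(1 - g i) else 0) (= -1 if i ∈ T) and
f T = ∑ r ∈ P.powerset, y r ∏ i ∈ r, u i T.  μ T = ∏_{i ∈ T} g i ∏_{i ∈ P \ T} (1 - g i); Ex F = ∑ T ∈ P.powerset, μ T F T factorises over products (Finset.prod_add):
Ex (∏ i ∈ P, φ i (i ∈ T)) = ∏ (g i φ i true + (1 - g i) φ i false).  Hence Ex [S ⊆ T] = ∏_S g, Ex (u_r u_r') = if r = r' then h r else 0, so Ex f^2 = ∑ y r^2 h r ≤ G, f ∅ = ∑ y r h r ≤ G.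
Markov: ∑ r, h r (∑_{i ∈ r} l i) = G ∑ g i l i ≤ G/8, so the r with ∑ l ≤ 1/2 carry weight ≥ 3G/4: f ∅ ≥ 3G/8, Ex f^2 ≥ 3G/16.
If q ∈ T then f T = ∑_{r ∌ q} (y r - y (insert q r)) u_r T, so Ex ([q ∈ T] f^2) = g q ∑_{r ∌ q} h r (y r - y (insert q r))^2 ≤ g q (l q)^2 G; the sum over q is ≤ G/64.
Expansion: f T = ∑ d ∈ P.powerset, λ d [d ⊆ T] with λ d = ∏_{i ∈ d} (-1/(1 - g i)) ∑_{r ⊇ d} y r h (r \ d); |λ d| ≤ 2^#d G, and λ d = 0 unless ∑_d l < 1.
So ∑ n, a n (f T_n)^2 = X Ex f^2 + ∑_{d, d'} λ d λ d' r (d ∪ d'), similarly with q (r (insert q (d ∪ d'))).  Group by S = union: at most 4^#S pairs, each ≤ 4^#S G^2; with q: #S ≤ 2^#S choices; 16^s + s 16^s ≤ 64^s.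
Pointwise: [T = ∅] (f ∅)^2 ≤ (f T)^2 and (1 - #T) (f T)^2 ≤ [T = ∅] (f ∅)^2.  Upper: S (3G/8)^2 ≤ X G + G^2 R.  Lower: X G/8 - G^2 R ≤ S (f ∅)^2 ≤ S G^2.
-/

namespace Pool.Agent.MP_48b1c3_nt.H54

open Finset

section Aux

variable {ι : Type} [DecidableEq ι]

/-- odds of the event `i` -/
noncomputable def sieve_h (g : ι → ℝ) (i : ι) : ℝ := g i / (1 - g i)

/-- centred indicator -/
noncomputable def sieve_u (g : ι → ℝ) (i : ι) (T : Finset ι) : ℝ :=
  if i ∈ T then -1 else sieve_h g i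

/-- expectation in the product model -/
noncomputable def sieve_Ex (P : Finset ι) (g : ι → ℝ) (F : Finset ι → ℝ) : ℝ :=
  ∑ T ∈ P.powerset, ((∏ i ∈ T, g i) * ∏ i ∈ P \ T, (1 - g i)) * F T

/-- `F` is a combination of the indicators of `S ⊆ T` with controlled coefficients -/
def sieve_Rep (P : Finset ι) (l : ι → ℝ) (F : Finset ι → ℝ) (A b t : ℝ) : Prop :=
  ∃ c : Finset ι → ℝ, (∀ T, F T = ∑ S ∈ P.powerset, if S ⊆ T then c S else 0) ∧
    ∀ S ∈ P.powerset, |c S| ≤ A * b ^ #S ∧ (c S ≠ 0 → ∑ i ∈ S, l i ≤ t)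

theorem sieve_Ex_prod (P : Finset ι) (g : ι → ℝ) (φ ψ : ι → ℝ) :
    sieve_Ex P g (fun T => ∏ i ∈ P, if i ∈ T then φ i else ψ i) =
      ∏ i ∈ P, (g i * φ i + (1 - g i) * ψ i) := by
  rw [Finset.prod_add]
  refine Finset.sum_congr rfl fun T hT => ?_
  have hTP := mem_powerset.1 hT
  have h1 : P.filter (fun i => i ∈ T) = T := by
    ext i; simp only [mem_filter]; exact ⟨fun h => h.2, fun h => ⟨hTP h, h⟩⟩
  have h2 : P.filter (fun i => i ∉ T) = P \ T := by
    ext i; simp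
  beta_reduce
  rw [Finset.prod_ite, h1, h2, prod_mul_distrib, prod_mul_distrib]
  ring

theorem sieve_Ex_congr (P : Finset ι) (g : ι → ℝ) {F F' : Finset ι → ℝ}
    (h : ∀ T ⊆ P, F T = F' T) : sieve_Ex P g F = sieve_Ex P g F' :=
  Finset.sum_congr rfl fun T hT => by rw [h T (mem_powerset.1 hT)]

theorem sieve_Ex_sum {κ : Type} (P : Finset ι) (g : ι → ℝ) (J : Finset κ) (c : κ → ℝ)
    (F : κ → Finset ι → ℝ) :
    sieve_Ex P g (fun T => ∑ j ∈ J, c j * F j T) = ∑ j ∈ J, c j * sieve_Ex P g (F j) := by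
  unfold sieve_Ex
  simp only [Finset.mul_sum]
  rw [Finset.sum_comm]
  refine Finset.sum_congr rfl fun j _ => Finset.sum_congr rfl fun T _ => by ring

theorem sieve_prod_sub {P r : Finset ι} (hr : r ⊆ P) (f : ι → ℝ) :
    ∏ i ∈ P, (if i ∈ r then f i else 1) = ∏ i ∈ r, f i := by
  rw [Finset.prod_ite_mem, inter_eq_right.2 hr]

theorem sieve_orth {P S r r' : Finset ι} {g : ι → ℝ} (hg : ∀ i ∈ P, 0 ≤ g i ∧ g i ≤ 1 / 2)
    (hS : S ⊆ P) (hr : r ⊆ P) (hr' : r' ⊆ P) (h1 : Disjoint S r) (h2 : Disjoint S r') :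
    sieve_Ex P g (fun T => (if S ⊆ T then 1 else 0) *
      ((∏ i ∈ r, sieve_u g i T) * ∏ i ∈ r', sieve_u g i T)) =
      if r = r' then (∏ i ∈ S, g i) * ∏ i ∈ r, sieve_h g i else 0 := by
  have key : ∀ T ⊆ P, (if S ⊆ T then (1 : ℝ) else 0) *
      ((∏ i ∈ r, sieve_u g i T) * ∏ i ∈ r', sieve_u g i T) =
      ∏ i ∈ P, if i ∈ T then ((if i ∈ r then -1 else 1) * (if i ∈ r' then -1 else 1))
        else ((if i ∈ S then 0 else 1) * ((if i ∈ r then sieve_h g i else 1) *
          (if i ∈ r' then sieve_h g i else 1))) := by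
    intro T _
    have e : (if S ⊆ T then (1 : ℝ) else 0) = ∏ i ∈ S, if i ∈ T then 1 else 0 := by
      rw [Finset.prod_boole]
      rfl
    rw [e, ← sieve_prod_sub hS, ← sieve_prod_sub hr, ← sieve_prod_sub hr', ← prod_mul_distrib,
      ← prod_mul_distrib]
    refine Finset.prod_congr rfl fun i _ => ?_
    unfold sieve_u
    split_ifs <;> simp
  rw [sieve_Ex_congr P g key, sieve_Ex_prod]
  split_ifs with hrr
  · subst hrr
    rw [← sieve_prod_sub hS, ← sieve_prod_sub hr, ← prod_mul_distrib]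
    refine Finset.prod_congr rfl fun i hi => ?_
    have h3 : 1 - g i ≠ 0 := by linarith [(hg i hi).2]
    by_cases hiS : i ∈ S
    · have : i ∉ r := disjoint_left.1 h1 hiS
      simp [hiS, this]
    · by_cases hir : i ∈ r
      · simp only [hiS, hir, if_true, if_false, sieve_h]
        field_simp
        ring
      · simp [hiS, hir]
  · have : ∃ i, ¬ (i ∈ r ↔ i ∈ r') := by
      by_contra hc
      push Not at hc
      exact hrr (Finset.ext hc)
    obtain ⟨i, hi⟩ := this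
    by_cases hir : i ∈ r
    · have hir' : i ∉ r' := fun h => hi ⟨fun _ => h, fun _ => hir⟩
      have hiS : i ∉ S := fun h => disjoint_left.1 h1 h hir
      have h3 : 1 - g i ≠ 0 := by linarith [(hg i (hr hir)).2]
      refine Finset.prod_eq_zero (hr hir) ?_
      simp only [hiS, hir, hir', if_true, if_false, sieve_h]
      field_simp
      ring
    · have hir' : i ∈ r' := by
        by_contra h
        exact hi ⟨fun h' => absurd h' hir, fun h' => absurd h' h⟩
      have hiS : i ∉ S := fun h => disjoint_left.1 h2 h hir'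
      have h3 : 1 - g i ≠ 0 := by linarith [(hg i (hr' hir')).2]
      refine Finset.prod_eq_zero (hr' hir') ?_
      simp only [hiS, hir, hir', if_true, if_false, sieve_h]
      field_simp
      ring

theorem sieve_Ex_ind {P S : Finset ι} {g : ι → ℝ} (hg : ∀ i ∈ P, 0 ≤ g i ∧ g i ≤ 1 / 2)
    (hS : S ⊆ P) : sieve_Ex P g (fun T => if S ⊆ T then 1 else 0) = ∏ i ∈ S, g i := by
  have := sieve_orth hg hS (empty_subset P) (empty_subset P) (disjoint_empty_right S)
    (disjoint_empty_right S)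
  simpa using this

theorem sieve_quad {P S Q : Finset ι} {g : ι → ℝ} (hg : ∀ i ∈ P, 0 ≤ g i ∧ g i ≤ 1 / 2)
    (hS : S ⊆ P) (hQ : Q ⊆ P) (h : Disjoint S Q) (z : Finset ι → ℝ) :
    sieve_Ex P g (fun T => (if S ⊆ T then 1 else 0) *
      (∑ r ∈ Q.powerset, z r * ∏ i ∈ r, sieve_u g i T) ^ 2) =
      (∏ i ∈ S, g i) * ∑ r ∈ Q.powerset, z r ^ 2 * ∏ i ∈ r, sieve_h g i := by
  have key : ∀ T ⊆ P, (if S ⊆ T then (1 : ℝ) else 0) *
      (∑ r ∈ Q.powerset, z r * ∏ i ∈ r, sieve_u g i T) ^ 2 =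
      ∑ p ∈ Q.powerset ×ˢ Q.powerset, (z p.1 * z p.2) * ((if S ⊆ T then (1 : ℝ) else 0) *
        ((∏ i ∈ p.1, sieve_u g i T) * ∏ i ∈ p.2, sieve_u g i T)) := by
    intro T _
    rw [sq, Finset.sum_mul_sum, Finset.sum_product, Finset.mul_sum]
    refine Finset.sum_congr rfl fun r _ => ?_
    rw [Finset.mul_sum]
    refine Finset.sum_congr rfl fun r' _ => by ring
  rw [sieve_Ex_congr P g key, sieve_Ex_sum, Finset.sum_product, Finset.mul_sum]
  refine Finset.sum_congr rfl fun r hr => ?_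
  rw [Finset.sum_eq_single r]
  · have hr1 := mem_powerset.1 hr
    rw [sieve_orth hg hS (hr1.trans hQ) (hr1.trans hQ) (h.mono_right hr1) (h.mono_right hr1),
      if_pos rfl]
    ring
  · intro r' hr' hne
    have hr1 := mem_powerset.1 hr
    have hr2 := mem_powerset.1 hr'
    rw [sieve_orth hg hS (hr1.trans hQ) (hr2.trans hQ) (h.mono_right hr1) (h.mono_right hr2),
      if_neg (Ne.symm hne), mul_zero]
  · intro h'; exact absurd hr h'

theorem sieve_Rep_mul {P : Finset ι} {l : ι → ℝ} (hl : ∀ i ∈ P, 0 ≤ l i) {F F' : Finset ι → ℝ}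
    {A b t A' b' t' : ℝ} (hA : 0 ≤ A) (hA' : 0 ≤ A') (hb : 1 ≤ b) (hb' : 1 ≤ b')
    (h : sieve_Rep P l F A b t) (h' : sieve_Rep P l F' A' b' t') :
    sieve_Rep P l (fun T => F T * F' T) (A * A') (4 * (b * b')) (t + t') := by
  obtain ⟨c, hc, hc2⟩ := h
  obtain ⟨c', hc', hc2'⟩ := h'
  refine ⟨fun S => ∑ p ∈ (P.powerset ×ˢ P.powerset).filter (fun p => p.1 ∪ p.2 = S),
    c p.1 * c' p.2, fun T => ?_, fun S hS => ⟨?_, fun hne => ?_⟩⟩
  · beta_reduce
    rw [hc T, hc' T, Finset.sum_mul_sum, ← Finset.sum_product',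
      ← Finset.sum_fiberwise_of_maps_to (s := P.powerset ×ˢ P.powerset) (t := P.powerset)
        (g := fun p => p.1 ∪ p.2)]
    · refine Finset.sum_congr rfl fun S _ => ?_
      split_ifs with hST
      · refine Finset.sum_congr rfl fun p hp => ?_
        have := (mem_filter.1 hp).2
        rw [if_pos ((subset_union_left.trans this.le).trans hST),
          if_pos ((subset_union_right.trans this.le).trans hST)]
      · refine Finset.sum_eq_zero fun p hp => ?_
        have := (mem_filter.1 hp).2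
        split_ifs with h1 h2
        · exact absurd (this ▸ union_subset h1 h2) hST
        all_goals simp
    · intro p hp
      rw [mem_product, mem_powerset, mem_powerset] at hp
      exact mem_powerset.2 (union_subset hp.1 hp.2)
  · refine (Finset.abs_sum_le_sum_abs _ _).trans ?_
    have h1 : ∀ p ∈ (P.powerset ×ˢ P.powerset).filter (fun p => p.1 ∪ p.2 = S),
        |c p.1 * c' p.2| ≤ (A * A') * (b * b') ^ #S := by
      intro p hp
      obtain ⟨hp1, hp2⟩ := mem_filter.1 hp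
      rw [mem_product] at hp1
      have e1 : b ^ #p.1 ≤ b ^ #S :=
        pow_le_pow_right₀ hb (card_le_card (subset_union_left.trans hp2.le))
      have e2 : b' ^ #p.2 ≤ b' ^ #S :=
        pow_le_pow_right₀ hb' (card_le_card (subset_union_right.trans hp2.le))
      rw [abs_mul, mul_pow, mul_mul_mul_comm]
      exact mul_le_mul ((hc2 _ hp1.1).1.trans (mul_le_mul_of_nonneg_left e1 hA))
        ((hc2' _ hp1.2).1.trans (mul_le_mul_of_nonneg_left e2 hA')) (abs_nonneg _)
        (mul_nonneg hA (by positivity))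
    refine (Finset.sum_le_card_nsmul _ _ _ h1).trans ?_
    have h2 : #((P.powerset ×ˢ P.powerset).filter (fun p => p.1 ∪ p.2 = S)) ≤ 4 ^ #S := by
      calc _ ≤ #(S.powerset ×ˢ S.powerset) := by
            refine card_le_card fun p hp => ?_
            have := (mem_filter.1 hp).2
            rw [mem_product, mem_powerset, mem_powerset]
            exact ⟨subset_union_left.trans this.le, subset_union_right.trans this.le⟩
        _ = 4 ^ #S := by rw [card_product, card_powerset, ← mul_pow]; rfl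
    rw [nsmul_eq_mul, mul_pow (4 : ℝ), mul_left_comm]
    refine mul_le_mul_of_nonneg_left ?_ (mul_nonneg hA hA')
    refine mul_le_mul_of_nonneg_right ?_ (by positivity)
    exact_mod_cast h2
  · obtain ⟨p, hp, hp0⟩ := Finset.exists_ne_zero_of_sum_ne_zero hne
    obtain ⟨hp1, hp2⟩ := mem_filter.1 hp
    rw [mem_product] at hp1
    have e1 := (hc2 _ hp1.1).2 (left_ne_zero_of_mul hp0)
    have e2 := (hc2' _ hp1.2).2 (right_ne_zero_of_mul hp0)
    have e3 := Finset.sum_union_inter (s₁ := p.1) (s₂ := p.2) (f := l)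
    have e4 : 0 ≤ ∑ i ∈ p.1 ∩ p.2, l i := Finset.sum_nonneg fun i hi =>
      hl i (mem_powerset.1 hp1.1 (mem_inter.1 hi).1)
    rw [← hp2]
    linarith

theorem sieve_Rep_card {P : Finset ι} {l : ι → ℝ} (hl : ∀ i ∈ P, l i ≤ 1 / 8) :
    sieve_Rep P l (fun T => 1 - ∑ q ∈ P, if q ∈ T then 1 else 0) 1 1 (1 / 8) := by
  refine ⟨fun S => (if S = ∅ then 1 else 0) - ∑ q ∈ P, if S = {q} then 1 else 0, fun T => ?_,
    fun S hS => ?_⟩
  · have e : ∀ S : Finset ι, (if S ⊆ T then ((if S = ∅ then (1 : ℝ) else 0) -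
        ∑ q ∈ P, if S = {q} then 1 else 0) else 0) = (if S = ∅ then (1 : ℝ) else 0) -
        ∑ q ∈ P, if S = {q} then (if q ∈ T then 1 else 0) else 0 := by
      intro S
      split_ifs with h1 h2 h2
      · congr 1
        refine Finset.sum_congr rfl fun q _ => ?_
        split_ifs with h3 h4
        · rfl
        · exact absurd (singleton_subset_iff.1 (h3 ▸ h1)) h4
        · rfl
      · congr 1
        refine Finset.sum_congr rfl fun q _ => ?_
        split_ifs with h3 h4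
        · rfl
        · exact absurd (singleton_subset_iff.1 (h3 ▸ h1)) h4
        · rfl
      · exact absurd (h2 ▸ empty_subset T) h1
      · rw [Finset.sum_eq_zero, sub_zero]
        intro q _
        split_ifs with h3 h4
        · exact absurd (h3 ▸ singleton_subset_iff.2 h4) h1
        · rfl
        · rfl
    simp only [e]
    rw [Finset.sum_sub_distrib, Finset.sum_ite_eq', if_pos (empty_mem_powerset P), Finset.sum_comm]
    congr 1
    refine Finset.sum_congr rfl fun q hq => ?_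
    rw [Finset.sum_ite_eq', if_pos (mem_powerset.2 (singleton_subset_iff.2 hq))]
  · by_cases h0 : S = ∅
    · subst h0
      have : ∀ q : ι, ¬ ((∅ : Finset ι) = {q}) := fun q h => singleton_ne_empty q h.symm
      simp [this]
    · by_cases h1 : ∃ q, S = {q}
      · obtain ⟨q, rfl⟩ := h1
        have hq : q ∈ P := singleton_subset_iff.1 (mem_powerset.1 hS)
        simp only [if_neg h0, singleton_inj, Finset.sum_ite_eq, if_pos hq, sum_singleton]
        exact ⟨by simp, fun _ => hl q hq⟩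
      · push Not at h1
        simp [h0, h1]

omit [DecidableEq ι] in
theorem sieve_h_nonneg {P : Finset ι} {g : ι → ℝ} (hg : ∀ i ∈ P, 0 ≤ g i ∧ g i ≤ 1 / 2) {i : ι}
    (hi : i ∈ P) : 0 ≤ sieve_h g i :=
  div_nonneg (hg i hi).1 (by linarith [(hg i hi).2])

omit [DecidableEq ι] in
theorem sieve_sum_h_le {P Q : Finset ι} {g : ι → ℝ} (hg : ∀ i ∈ P, 0 ≤ g i ∧ g i ≤ 1 / 2)
    (hQ : Q ⊆ P) : ∑ r ∈ Q.powerset, ∏ i ∈ r, sieve_h g i ≤
      ∑ r ∈ P.powerset, ∏ i ∈ r, sieve_h g i :=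
  Finset.sum_le_sum_of_subset_of_nonneg (powerset_mono.2 hQ) fun _ hr _ =>
    Finset.prod_nonneg fun _ hi => sieve_h_nonneg hg (mem_powerset.1 hr hi)

theorem sieve_Rep_f {P : Finset ι} {g l : ι → ℝ} (hg : ∀ i ∈ P, 0 ≤ g i ∧ g i ≤ 1 / 2)
    (hl : ∀ i ∈ P, 0 ≤ l i) (y : Finset ι → ℝ) (hy : ∀ r ⊆ P, |y r| ≤ 1)
    (hy' : ∀ r ⊆ P, y r ≠ 0 → ∑ i ∈ r, l i ≤ 1) :
    sieve_Rep P l (fun T => ∑ r ∈ P.powerset, y r * ∏ i ∈ r, sieve_u g i T)
      (∑ r ∈ P.powerset, ∏ i ∈ r, sieve_h g i) 2 1 := by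
  refine ⟨fun d => (∏ i ∈ d, -(1 / (1 - g i))) *
    ∑ r ∈ P.powerset.filter (fun r => d ⊆ r), y r * ∏ i ∈ r \ d, sieve_h g i, fun T => ?_,
    fun d hd => ⟨?_, fun hne => ?_⟩⟩
  · have e : ∀ r ∈ P.powerset, y r * ∏ i ∈ r, sieve_u g i T = ∑ d ∈ P.powerset,
        if d ⊆ r then (if d ⊆ T then (∏ i ∈ d, -(1 / (1 - g i))) *
          (y r * ∏ i ∈ r \ d, sieve_h g i) else 0) else 0 := by
      intro r hr
      have hrP := mem_powerset.1 hr
      have e1 : ∏ i ∈ r, sieve_u g i T =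
          ∏ i ∈ r, ((if i ∈ T then -(1 / (1 - g i)) else 0) + sieve_h g i) := by
        refine Finset.prod_congr rfl fun i hi => ?_
        have h3 : 1 - g i ≠ 0 := by linarith [(hg i (hrP hi)).2]
        unfold sieve_u sieve_h
        split_ifs
        · field_simp
          ring
        · simp
      have e2 : P.powerset.filter (fun d => d ⊆ r) = r.powerset := by
        ext d
        simp only [mem_filter, mem_powerset]
        exact ⟨fun h => h.2, fun h => ⟨h.trans hrP, h⟩⟩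
      rw [e1, Finset.prod_add, ← Finset.sum_filter, e2, Finset.mul_sum]
      refine Finset.sum_congr rfl fun d _ => ?_
      rw [Finset.prod_ite_zero]
      split_ifs with h1 h2 h2
      · ring
      · exact absurd h1 h2
      · exact absurd h2 h1
      · simp
    beta_reduce
    rw [Finset.sum_congr rfl e, Finset.sum_comm]
    refine Finset.sum_congr rfl fun d _ => ?_
    rw [← Finset.sum_filter]
    split_ifs
    · rw [Finset.mul_sum]
    · simp
  · have hdP := mem_powerset.1 hd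
    rw [abs_mul, mul_comm]
    refine mul_le_mul ?_ ?_ (abs_nonneg _) (Finset.sum_nonneg fun r hr =>
      Finset.prod_nonneg fun _ hi => sieve_h_nonneg hg (mem_powerset.1 hr hi))
    · refine (Finset.abs_sum_le_sum_abs _ _).trans ?_
      calc _ ≤ ∑ r ∈ P.powerset.filter (fun r => d ⊆ r), ∏ i ∈ r \ d, sieve_h g i := by
            refine Finset.sum_le_sum fun r hr => ?_
            have hrP := mem_powerset.1 (mem_filter.1 hr).1
            have h0 : 0 ≤ ∏ i ∈ r \ d, sieve_h g i := Finset.prod_nonneg fun _ hi =>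
              sieve_h_nonneg hg (hrP (mem_sdiff.1 hi).1)
            rw [abs_mul, abs_of_nonneg h0]
            exact mul_le_of_le_one_left h0 (hy r hrP)
        _ = ∑ s ∈ (P.powerset.filter (fun r => d ⊆ r)).image (fun r => r \ d),
              ∏ i ∈ s, sieve_h g i := by
            rw [Finset.sum_image]
            intro r hr r' hr' h
            have h1 := (mem_filter.1 (mem_coe.1 hr)).2
            have h2 := (mem_filter.1 (mem_coe.1 hr')).2
            rw [← sdiff_union_of_subset h1, ← sdiff_union_of_subset h2]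
            exact congrArg (· ∪ d) h
        _ ≤ _ := by
            refine Finset.sum_le_sum_of_subset_of_nonneg (fun s hs => ?_) fun _ hr _ =>
              Finset.prod_nonneg fun _ hi => sieve_h_nonneg hg (mem_powerset.1 hr hi)
            obtain ⟨r, hr, rfl⟩ := mem_image.1 hs
            exact mem_powerset.2 (sdiff_subset.trans (mem_powerset.1 (mem_filter.1 hr).1))
    · rw [Finset.abs_prod]
      rw [← Finset.prod_const]
      refine Finset.prod_le_prod (fun i _ => abs_nonneg _) fun i hi => ?_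
      have := hg i (hdP hi)
      rw [abs_neg, abs_of_nonneg (by apply div_nonneg <;> linarith), div_le_iff₀ (by linarith)]
      linarith
  · obtain ⟨r, hr, hr0⟩ := Finset.exists_ne_zero_of_sum_ne_zero (right_ne_zero_of_mul hne)
    obtain ⟨h1, h2⟩ := mem_filter.1 hr
    have hrP := mem_powerset.1 h1
    exact (Finset.sum_le_sum_of_subset_of_nonneg h2 fun i hi _ => hl i (hrP hi)).trans
      (hy' r hrP (left_ne_zero_of_mul hr0))

theorem sieve_err {α : Type} {P : Finset ι} {g l : ι → ℝ} (hg : ∀ i ∈ P, 0 ≤ g i ∧ g i ≤ 1 / 2)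
    (Ω : Finset α) (a : α → ℝ) (τ : α → Finset ι) (X : ℝ) {F : Finset ι → ℝ} {A b t : ℝ}
    (hA : 0 ≤ A) (hb0 : 0 ≤ b) (hb : b ≤ 64) (ht : t ≤ 3) (h : sieve_Rep P l F A b t) :
    |∑ n ∈ Ω, a n * F (τ n) - X * sieve_Ex P g F| ≤
      A * ∑ S ∈ P.powerset.filter (fun S => ∑ i ∈ S, l i ≤ 3),
        64 ^ #S * |∑ n ∈ Ω.filter (fun n => S ⊆ τ n), a n - X * ∏ i ∈ S, g i| := by
  obtain ⟨c, hc, hc2⟩ := h
  have e1 : ∑ n ∈ Ω, a n * F (τ n) =
      ∑ S ∈ P.powerset, c S * ∑ n ∈ Ω.filter (fun n => S ⊆ τ n), a n := by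
    simp only [hc, Finset.mul_sum, Finset.sum_filter]
    rw [Finset.sum_comm]
    refine Finset.sum_congr rfl fun S _ => Finset.sum_congr rfl fun n _ => ?_
    split_ifs
    · ring
    · simp
  have e2 : sieve_Ex P g F = ∑ S ∈ P.powerset, c S * ∏ i ∈ S, g i := by
    rw [sieve_Ex_congr P g (F' := fun T => ∑ S ∈ P.powerset, c S * if S ⊆ T then 1 else 0)
      (fun T _ => by simp [hc]), sieve_Ex_sum]
    exact Finset.sum_congr rfl fun S hS => by rw [sieve_Ex_ind hg (mem_powerset.1 hS)]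
  rw [e1, e2, Finset.mul_sum, ← Finset.sum_sub_distrib, Finset.mul_sum, Finset.sum_filter]
  refine (Finset.abs_sum_le_sum_abs _ _).trans (Finset.sum_le_sum fun S hS => ?_)
  rw [mul_left_comm, ← mul_sub, abs_mul]
  by_cases h0 : c S = 0
  · rw [h0, abs_zero, zero_mul]
    split_ifs
    · positivity
    · exact le_rfl
  · rw [if_pos (((hc2 S hS).2 h0).trans ht), ← mul_assoc]
    refine mul_le_mul_of_nonneg_right ((hc2 S hS).1.trans ?_) (abs_nonneg _)
    exact mul_le_mul_of_nonneg_left (pow_le_pow_left₀ hb0 hb _) hA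

omit [DecidableEq ι] in
theorem sieve_G_mul {P : Finset ι} {g : ι → ℝ} (hg : ∀ i ∈ P, 0 ≤ g i ∧ g i ≤ 1 / 2) :
    (∑ r ∈ P.powerset, ∏ i ∈ r, sieve_h g i) * ∏ i ∈ P, (1 - g i) = 1 := by
  rw [← Finset.prod_one_add, ← prod_mul_distrib]
  refine Finset.prod_eq_one fun i hi => ?_
  have h3 : 1 - g i ≠ 0 := by linarith [(hg i hi).2]
  unfold sieve_h
  field_simp
  ring

theorem sieve_markov {P : Finset ι} {g : ι → ℝ} (l : ι → ℝ)
    (hg : ∀ i ∈ P, 0 ≤ g i ∧ g i ≤ 1 / 2) :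
    ∑ r ∈ P.powerset, (∑ i ∈ r, l i) * ∏ i ∈ r, sieve_h g i =
      (∑ i ∈ P, g i * l i) * ∑ r ∈ P.powerset, ∏ i ∈ r, sieve_h g i := by
  induction P using Finset.induction_on with
  | empty => simp
  | insert q P hq ih =>
    have hn : ∀ r ∈ P.powerset, q ∉ r := fun r hr h => hq (mem_powerset.1 hr h)
    have h3 : 1 - g q ≠ 0 := by linarith [(hg q (mem_insert_self _ _)).2]
    have e1 : ∑ r ∈ P.powerset, (∑ i ∈ insert q r, l i) * ∏ i ∈ insert q r, sieve_h g i =
        l q * sieve_h g q * ∑ r ∈ P.powerset, ∏ i ∈ r, sieve_h g i +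
          sieve_h g q * ∑ r ∈ P.powerset, (∑ i ∈ r, l i) * ∏ i ∈ r, sieve_h g i := by
      rw [Finset.mul_sum, Finset.mul_sum, ← Finset.sum_add_distrib]
      refine Finset.sum_congr rfl fun r hr => ?_
      rw [sum_insert (hn r hr), prod_insert (hn r hr)]
      ring
    have e2 : ∑ r ∈ P.powerset, ∏ i ∈ insert q r, sieve_h g i =
        sieve_h g q * ∑ r ∈ P.powerset, ∏ i ∈ r, sieve_h g i := by
      rw [Finset.mul_sum]
      exact Finset.sum_congr rfl fun r hr => by rw [prod_insert (hn r hr)]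
    rw [Finset.sum_powerset_insert hq, Finset.sum_powerset_insert hq, e1, e2, sum_insert hq,
      ih fun i hi => hg i (mem_insert_of_mem hi)]
    have e3 : sieve_h g q = g q * (1 + sieve_h g q) := by
      unfold sieve_h
      field_simp
      ring
    linear_combination (l q * ∑ r ∈ P.powerset, ∏ i ∈ r, sieve_h g i) * e3

theorem sieve_cond {P : Finset ι} {g : ι → ℝ} (hg : ∀ i ∈ P, 0 ≤ g i ∧ g i ≤ 1 / 2)
    (y : Finset ι → ℝ) {q : ι} (hq : q ∈ P) {m : ℝ}
    (hy : ∀ r ⊆ P.erase q, |y r - y (insert q r)| ≤ m) :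
    sieve_Ex P g (fun T => (if q ∈ T then 1 else 0) *
      (∑ r ∈ P.powerset, y r * ∏ i ∈ r, sieve_u g i T) ^ 2) ≤
      g q * (m ^ 2 * ∑ r ∈ P.powerset, ∏ i ∈ r, sieve_h g i) := by
  have key : ∀ T ⊆ P, (if q ∈ T then (1 : ℝ) else 0) *
      (∑ r ∈ P.powerset, y r * ∏ i ∈ r, sieve_u g i T) ^ 2 =
      (if {q} ⊆ T then (1 : ℝ) else 0) *
        (∑ r ∈ (P.erase q).powerset, (y r - y (insert q r)) * ∏ i ∈ r, sieve_u g i T) ^ 2 := by
    intro T _
    simp only [singleton_subset_iff]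
    split_ifs with h
    · congr 2
      conv_lhs => rw [← insert_erase hq]
      rw [Finset.sum_powerset_insert (notMem_erase q P), ← Finset.sum_add_distrib]
      refine Finset.sum_congr rfl fun r hr => ?_
      have hn : q ∉ r := fun h' => notMem_erase q P (mem_powerset.1 hr h')
      rw [prod_insert hn]
      simp only [sieve_u, if_pos h]
      ring
    · simp
  rw [sieve_Ex_congr P g key, sieve_quad hg (singleton_subset_iff.2 hq) (erase_subset q P)
    (disjoint_singleton_left.2 (notMem_erase q P)), prod_singleton]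
  refine mul_le_mul_of_nonneg_left ?_ (hg q hq).1
  refine le_trans ?_ (mul_le_mul_of_nonneg_left (sieve_sum_h_le hg (erase_subset q P))
    (sq_nonneg m))
  rw [Finset.mul_sum]
  refine Finset.sum_le_sum fun r hr => ?_
  have hr1 := mem_powerset.1 hr
  refine mul_le_mul_of_nonneg_right ?_ (Finset.prod_nonneg fun _ hi =>
    sieve_h_nonneg hg ((hr1.trans (erase_subset q P)) hi))
  exact sq_le_sq' (by linarith [(abs_le.1 (hy r hr1)).1]) (abs_le.1 (hy r hr1)).2

end Aux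

open Classical in
theorem sieve {ι α : Type} (P : Finset ι) (g l : ι → ℝ) (Ω : Finset α) (a : α → ℝ)
    (ω : ι → α → Prop) (X : ℝ) (ha : ∀ n ∈ Ω, 0 ≤ a n) (hX : 0 ≤ X)
    (hg : ∀ i ∈ P, 0 ≤ g i ∧ g i ≤ 1 / 2) (hl : ∀ i ∈ P, 0 ≤ l i ∧ l i ≤ 1 / 8)
    (hgl : ∑ i ∈ P, g i * l i ≤ 1 / 8) (R : ℝ)
    (hR : ∑ S ∈ P.powerset.filter (fun S => ∑ i ∈ S, l i ≤ 3),
      64 ^ #S * |∑ n ∈ Ω.filter (fun n => ∀ i ∈ S, ω i n), a n - X * ∏ i ∈ S, g i| ≤ R) :
    X * (∏ i ∈ P, (1 - g i)) / 8 - R ≤ ∑ n ∈ Ω.filter (fun n => ∀ i ∈ P, ¬ ω i n), a n ∧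
      ∑ n ∈ Ω.filter (fun n => ∀ i ∈ P, ¬ ω i n), a n ≤ 8 * (X * ∏ i ∈ P, (1 - g i) + R) := by
  have hl0 : ∀ i ∈ P, 0 ≤ l i := fun i hi => (hl i hi).1
  set G : ℝ := ∑ r ∈ P.powerset, ∏ i ∈ r, sieve_h g i with hG
  set V : ℝ := ∏ i ∈ P, (1 - g i) with hV
  have hGV : G * V = 1 := sieve_G_mul hg
  have hV0 : 0 < V := Finset.prod_pos fun i hi => by linarith [(hg i hi).2]
  have hG0 : 0 < G := (pos_iff_pos_of_mul_pos (hGV ▸ one_pos)).2 hV0
  have hh : ∀ r ∈ P.powerset, 0 ≤ ∏ i ∈ r, sieve_h g i := fun r hr =>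
    Finset.prod_nonneg fun _ hi => sieve_h_nonneg hg (mem_powerset.1 hr hi)
  set y : Finset ι → ℝ := fun r => max 0 (1 - ∑ i ∈ r, l i) with hy
  have hL : ∀ r ⊆ P, 0 ≤ ∑ i ∈ r, l i := fun r hr => Finset.sum_nonneg fun i hi => hl0 i (hr hi)
  have hy0 : ∀ r, 0 ≤ y r := fun r => le_max_left _ _
  have hy1 : ∀ r ⊆ P, y r ≤ 1 := fun r hr => max_le zero_le_one (by linarith [hL r hr])
  have hy2 : ∀ r, 1 - ∑ i ∈ r, l i ≤ y r := fun r => le_max_right _ _
  have hy3 : ∀ r, 1 - 2 * ∑ i ∈ r, l i ≤ y r ^ 2 := by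
    intro r
    nlinarith [hy0 r, hy2 r, sq_nonneg (y r - 1)]
  set f : Finset ι → ℝ := fun T => ∑ r ∈ P.powerset, y r * ∏ i ∈ r, sieve_u g i T with hf
  set τ : α → Finset ι := fun n => P.filter (fun i => ω i n) with hτ
  have rf : sieve_Rep P l f G 2 1 := sieve_Rep_f hg hl0 y
    (fun r hr => by rw [abs_of_nonneg (hy0 r)]; exact hy1 r hr) (fun r _ h => by
      by_contra hc
      exact h (max_eq_left (by linarith [not_le.1 hc])))
  have rf2 := sieve_Rep_mul hl0 hG0.le hG0.le (by norm_num) (by norm_num) rf rf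
  have rf3 := sieve_Rep_mul hl0 zero_le_one (mul_pos hG0 hG0).le le_rfl (by norm_num)
    (sieve_Rep_card fun i hi => (hl i hi).2) rf2
  have hR' : ∑ S ∈ P.powerset.filter (fun S => ∑ i ∈ S, l i ≤ 3),
      64 ^ #S * |∑ n ∈ Ω.filter (fun n => S ⊆ τ n), a n - X * ∏ i ∈ S, g i| ≤ R := by
    refine le_trans (le_of_eq (Finset.sum_congr rfl fun S hS => ?_)) hR
    have hSP := mem_powerset.1 (mem_filter.1 hS).1
    have : Ω.filter (fun n => S ⊆ τ n) = Ω.filter (fun n => ∀ i ∈ S, ω i n) := by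
      refine filter_congr fun n _ => ⟨fun h i hi => (mem_filter.1 (h hi)).2, fun h i hi => ?_⟩
      exact mem_filter.2 ⟨hSP hi, h i hi⟩
    rw [this]
  have hR0 : 0 ≤ R := le_trans (Finset.sum_nonneg fun S _ => by positivity) hR
  have er2 := (sieve_err hg Ω a τ X (mul_pos hG0 hG0).le (by norm_num) (by norm_num)
    (by norm_num) rf2).trans (mul_le_mul_of_nonneg_left hR' (mul_pos hG0 hG0).le)
  have er3 := (sieve_err hg Ω a τ X (by positivity) (by norm_num) (by norm_num)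
    (by norm_num) rf3).trans (mul_le_mul_of_nonneg_left hR' (by positivity))
  have hM := sieve_markov l hg
  rw [← hG] at hM
  have hM' : ∑ r ∈ P.powerset, (∑ i ∈ r, l i) * ∏ i ∈ r, sieve_h g i ≤ G / 8 := by
    rw [hM]; nlinarith
  have hf0 : f ∅ = ∑ r ∈ P.powerset, y r * ∏ i ∈ r, sieve_h g i := by simp [hf, sieve_u]
  have hf1 : f ∅ ≤ G := by
    rw [hf0]
    exact Finset.sum_le_sum fun r hr => mul_le_of_le_one_left (hh r hr) (hy1 r (mem_powerset.1 hr))
  have hf2 : 7 * G / 8 ≤ f ∅ := by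
    have : ∑ r ∈ P.powerset, (∏ i ∈ r, sieve_h g i - (∑ i ∈ r, l i) * ∏ i ∈ r, sieve_h g i) ≤
        f ∅ := by
      rw [hf0]
      exact Finset.sum_le_sum fun r hr => by nlinarith [hh r hr, hy2 r]
    rw [Finset.sum_sub_distrib] at this
    linarith
  have hE : sieve_Ex P g (fun T => f T * f T) =
      ∑ r ∈ P.powerset, y r ^ 2 * ∏ i ∈ r, sieve_h g i := by
    have := sieve_quad hg (empty_subset P) Subset.rfl (disjoint_empty_left P) y
    simpa [sq] using this
  have hE1 : sieve_Ex P g (fun T => f T * f T) ≤ G := by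
    rw [hE]
    exact Finset.sum_le_sum fun r hr => mul_le_of_le_one_left (hh r hr)
      (pow_le_one₀ (hy0 r) (hy1 r (mem_powerset.1 hr)))
  have hE2 : 3 * G / 4 ≤ sieve_Ex P g (fun T => f T * f T) := by
    have : ∑ r ∈ P.powerset, (∏ i ∈ r, sieve_h g i -
        2 * ((∑ i ∈ r, l i) * ∏ i ∈ r, sieve_h g i)) ≤ sieve_Ex P g (fun T => f T * f T) := by
      rw [hE]
      exact Finset.sum_le_sum fun r hr => by nlinarith [hh r hr, hy3 r]
    rw [Finset.sum_sub_distrib, ← Finset.mul_sum] at this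
    linarith
  have hE3 : G / 8 ≤ sieve_Ex P g
      (fun T => (1 - ∑ q ∈ P, if q ∈ T then 1 else 0) * (f T * f T)) := by
    have e1 : sieve_Ex P g (fun T => (1 - ∑ q ∈ P, if q ∈ T then 1 else 0) * (f T * f T)) =
        sieve_Ex P g (fun T => f T * f T) - sieve_Ex P g (fun T => ∑ q ∈ P, 1 *
          ((if q ∈ T then 1 else 0) * f T ^ 2)) := by
      unfold sieve_Ex
      rw [← Finset.sum_sub_distrib]
      refine Finset.sum_congr rfl fun T _ => ?_
      simp only [one_mul]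
      rw [← Finset.sum_mul]
      ring
    have e2 : ∑ q ∈ P, 1 * sieve_Ex P g (fun T => (if q ∈ T then 1 else 0) * f T ^ 2) ≤
        ∑ q ∈ P, g q * l q * (G / 8) := by
      refine Finset.sum_le_sum fun q hq => ?_
      have e3 := sieve_cond hg y hq (m := l q) fun r hr => by
        have hn : q ∉ r := fun h' => notMem_erase q P (hr h')
        refine (abs_max_sub_max_le_max _ _ _ _).trans ?_
        rw [sum_insert hn]
        simp [abs_of_nonneg (hl0 q hq), hl0 q hq]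
      rw [one_mul]
      refine e3.trans ?_
      rw [← hG]
      have e4 : 0 ≤ g q * l q * G := mul_nonneg (mul_nonneg (hg q hq).1 (hl0 q hq)) hG0.le
      nlinarith [(hl q hq).2]
    rw [← Finset.sum_mul] at e2
    rw [e1, sieve_Ex_sum]
    nlinarith
  set Z : ℝ := ∑ n ∈ Ω.filter (fun n => ∀ i ∈ P, ¬ ω i n), a n with hZ
  have hZ0 : 0 ≤ Z := Finset.sum_nonneg fun n hn => ha n (mem_filter.1 hn).1
  have hτ0 : ∀ n, (∀ i ∈ P, ¬ ω i n) → τ n = ∅ := fun n h => filter_eq_empty_iff.2 h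
  have up : Z * (f ∅ * f ∅) ≤ ∑ n ∈ Ω, a n * (f (τ n) * f (τ n)) := by
    rw [hZ, Finset.sum_mul, Finset.sum_filter]
    refine Finset.sum_le_sum fun n hn => ?_
    split_ifs with h
    · rw [hτ0 n h]
    · exact mul_nonneg (ha n hn) (mul_self_nonneg _)
  have lo : ∑ n ∈ Ω, a n * ((1 - ∑ q ∈ P, if q ∈ τ n then 1 else 0) * (f (τ n) * f (τ n))) ≤
      Z * (f ∅ * f ∅) := by
    rw [hZ, Finset.sum_mul, Finset.sum_filter]
    refine Finset.sum_le_sum fun n hn => ?_
    split_ifs with h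
    · rw [hτ0 n h]
      simp
    · push Not at h
      obtain ⟨q, hq, hω⟩ := h
      have : (1 : ℝ) ≤ ∑ q ∈ P, if q ∈ τ n then 1 else 0 := by
        refine le_trans (le_of_eq ?_) (Finset.single_le_sum
          (f := fun q => if q ∈ τ n then (1 : ℝ) else 0) (fun i _ => by positivity) hq)
        rw [if_pos (mem_filter.2 ⟨hq, hω⟩)]
      exact mul_nonpos_of_nonneg_of_nonpos (ha n hn)
        (mul_nonpos_of_nonpos_of_nonneg (by linarith) (mul_self_nonneg _))
  have hf3 : f ∅ * f ∅ ≤ G * G := mul_self_le_mul_self (by linarith) hf1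
  have hf4 : 7 * G / 8 * (7 * G / 8) ≤ f ∅ * f ∅ := mul_self_le_mul_self (by linarith) hf2
  have hGG : 0 < G * G := mul_pos hG0 hG0
  have hXV : X * V * (G * G) = X * G := by linear_combination (X * G) * hGV
  constructor
  · refine le_of_mul_le_mul_right ?_ hGG
    have e1 := (abs_le.1 er3).1
    have e2 := mul_le_mul_of_nonneg_left hE3 hX
    have e3 := mul_le_mul_of_nonneg_left hf3 hZ0
    linarith
  · refine le_of_mul_le_mul_right ?_ hGG
    have e1 := (abs_le.1 er2).2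
    have e2 := mul_le_mul_of_nonneg_left hE1 hX
    have e3 := mul_le_mul_of_nonneg_left hf4 hZ0
    have e4 := mul_nonneg hR0 hGG.le
    have e5 := mul_nonneg hX hG0.le
    have e6 := mul_nonneg hZ0 hGG.le
    nlinarith

end Pool.Agent.MP_48b1c3_nt.H54
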