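import Pool.Agent.MP_48b1c3_nt.H54.TestFn
import Pool.Agent.MP_e3ece1_pr.Vaughan

/-! A mean value bound for a small family of almost orthogonal multiplicative functions. -/


namespace Pool.Agent.MP_48b1c3_nt.H54

open Finset

open MeasureTheory ArithmeticFunction Pool.Agent.MP_e3ece1_pr

theorem ls_dual {ι : Type} (X : Finset ι) (f : ι → ℕ → ℂ) (K : ℝ) (hK0 : 0 ≤ K)
    (hf : ∀ i n, ‖f i n‖ ≤ 1)
    (hK : ∀ i ∈ X, ∀ i' ∈ X, i ≠ i' → ∀ N,
      ‖∑ n ∈ range N, f i n * (starRingEnd ℂ) (f i' n)‖ ≤ K)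
    (M N : ℕ) (c : ι → ℂ) :
    ∑ n ∈ Ico M (M + N), ‖∑ i ∈ X, c i * f i n‖ ^ 2 ≤ (N + 2 * K * #X) * ∑ i ∈ X, ‖c i‖ ^ 2 := by
  classical
  have e1 : ((∑ n ∈ Ico M (M + N), ‖∑ i ∈ X, c i * f i n‖ ^ 2 : ℝ) : ℂ) =
      ∑ i ∈ X, ∑ j ∈ X, c i * (starRingEnd ℂ) (c j) *
        ∑ n ∈ Ico M (M + N), f i n * (starRingEnd ℂ) (f j n) := by
    push_cast
    simp only [← Complex.mul_conj', map_sum, map_mul]
    simp only [sum_mul_sum]
    simp only [mul_sum]
    rw [sum_comm]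
    refine sum_congr rfl fun i _ => ?_
    rw [sum_comm]
    refine sum_congr rfl fun j _ => sum_congr rfl fun n _ => by ring
  have e2 : ∀ i ∈ X, ∀ j ∈ X, ‖∑ n ∈ Ico M (M + N), f i n * (starRingEnd ℂ) (f j n)‖ ≤
      (if i = j then (N : ℝ) else 0) + 2 * K := by
    intro i hi j hj
    split_ifs with h
    · have : ‖∑ n ∈ Ico M (M + N), f i n * (starRingEnd ℂ) (f j n)‖ ≤ ∑ n ∈ Ico M (M + N), (1 : ℝ) := by
        refine norm_sum_le_of_le _ fun n _ => ?_
        rw [norm_mul, Complex.norm_conj]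
        exact mul_le_one₀ (hf _ _) (norm_nonneg _) (hf _ _)
      simp only [sum_const, Nat.card_Ico, Nat.add_sub_cancel_left, nsmul_eq_mul, mul_one] at this
      linarith
    · rw [sum_Ico_eq_sub _ (Nat.le_add_right M N)]
      have h1 := hK i hi j hj h (M + N)
      have h2 := hK i hi j hj h M
      have := norm_sub_le (∑ n ∈ range (M + N), f i n * (starRingEnd ℂ) (f j n))
        (∑ n ∈ range M, f i n * (starRingEnd ℂ) (f j n))
      linarith
  have e3 : ∑ n ∈ Ico M (M + N), ‖∑ i ∈ X, c i * f i n‖ ^ 2 ≤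
      ∑ i ∈ X, ∑ j ∈ X, ((if i = j then (N : ℝ) * ‖c i‖ ^ 2 else 0) +
        K * (‖c i‖ ^ 2 + ‖c j‖ ^ 2)) := by
    have h0 : (0 : ℝ) ≤ ∑ n ∈ Ico M (M + N), ‖∑ i ∈ X, c i * f i n‖ ^ 2 := by positivity
    rw [← Real.norm_of_nonneg h0, ← Complex.norm_real, e1]
    refine norm_sum_le_of_le _ fun i hi => norm_sum_le_of_le _ fun j hj => ?_
    rw [norm_mul, norm_mul, Complex.norm_conj]
    refine (mul_le_mul_of_nonneg_left (e2 i hi j hj) (by positivity)).trans ?_
    have h1 : 2 * (‖c i‖ * ‖c j‖) ≤ ‖c i‖ ^ 2 + ‖c j‖ ^ 2 := by nlinarith [sq_nonneg (‖c i‖ - ‖c j‖)]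
    have h2 := mul_le_mul_of_nonneg_left h1 hK0
    split_ifs with h
    · subst h; nlinarith
    · nlinarith
  refine e3.trans (le_of_eq ?_)
  simp only [sum_add_distrib, sum_ite_eq, ← mul_sum, sum_const, nsmul_eq_mul]
  rw [sum_congr rfl (fun i hi => if_pos hi), ← mul_sum]
  ring

theorem large_sieve {ι : Type} (X : Finset ι) (f : ι → ℕ → ℂ) (K : ℝ) (hK0 : 0 ≤ K)
    (hf : ∀ i n, ‖f i n‖ ≤ 1)
    (hK : ∀ i ∈ X, ∀ i' ∈ X, i ≠ i' → ∀ N,
      ‖∑ n ∈ range N, f i n * (starRingEnd ℂ) (f i' n)‖ ≤ K)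
    (M N : ℕ) (a : ℕ → ℂ) :
    ∑ i ∈ X, ‖∑ n ∈ Ico M (M + N), a n * f i n‖ ^ 2 ≤
      (N + 2 * K * #X) * ∑ n ∈ Ico M (M + N), ‖a n‖ ^ 2 := by
  set S : ι → ℂ := fun i => ∑ n ∈ Ico M (M + N), a n * f i n with hS
  set T : ℝ := ∑ i ∈ X, ‖S i‖ ^ 2 with hT
  have hT0 : 0 ≤ T := by positivity
  have e1 : (T : ℂ) = ∑ n ∈ Ico M (M + N), a n * ∑ i ∈ X, (starRingEnd ℂ) (S i) * f i n := by
    rw [hT]
    push_cast
    simp only [← Complex.mul_conj', mul_sum]
    rw [sum_comm]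
    refine sum_congr rfl fun i _ => ?_
    rw [show S i = ∑ n ∈ Ico M (M + N), a n * f i n from rfl, sum_mul]
    exact sum_congr rfl fun n _ => by ring
  have e2 : T ≤ ∑ n ∈ Ico M (M + N), ‖a n‖ * ‖∑ i ∈ X, (starRingEnd ℂ) (S i) * f i n‖ := by
    rw [← Real.norm_of_nonneg hT0, ← Complex.norm_real, e1]
    exact norm_sum_le_of_le _ fun n _ => (norm_mul _ _).le
  have e3 := sum_mul_sq_le_sq_mul_sq (Ico M (M + N)) (fun n => ‖a n‖)
    (fun n => ‖∑ i ∈ X, (starRingEnd ℂ) (S i) * f i n‖)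
  have e4 := ls_dual X f K hK0 hf hK M N (fun i => (starRingEnd ℂ) (S i))
  simp only [Complex.norm_conj] at e4
  rw [← hT] at e4
  have hA : 0 ≤ ∑ n ∈ Ico M (M + N), ‖a n‖ ^ 2 := by positivity
  have e5 : T ^ 2 ≤ (∑ n ∈ Ico M (M + N), ‖a n‖ ^ 2) * ((N + 2 * K * #X) * T) :=
    (pow_le_pow_left₀ hT0 e2 2).trans (e3.trans (mul_le_mul_of_nonneg_left e4 hA))
  rcases hT0.eq_or_lt with h | h
  · rw [← h]; positivity
  · have : T * T ≤ ((N + 2 * K * #X) * ∑ n ∈ Ico M (M + N), ‖a n‖ ^ 2) * T := by nlinarith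
    exact le_of_mul_le_mul_right this h

theorem ls_abel (f w : ℕ → ℂ) (K A : ℝ) (hf : ∀ n, ‖f n‖ ≤ 1)
    (hK : ∀ N, ‖∑ n ∈ range N, f n‖ ≤ K) (N : ℕ)
    (hw : ∀ k, 1 ≤ k → k < N → ‖w (k + 1) - w k‖ ≤ A * (Real.log (k + 1 : ℕ) - Real.log k)) :
    ‖∑ k ∈ Icc 1 N, f k * w k‖ ≤ (K + 1) * (‖w N‖ + A * Real.log N) := by
  have hF : ∀ n, ‖∑ k ∈ Icc 1 n, f k‖ ≤ K + 1 := by
    intro n
    have e : ∑ k ∈ Icc 1 n, f k = ∑ k ∈ range (n + 1), f k - f 0 := by
      rw [sum_range_eq_add_Ico _ (Nat.succ_pos n)]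
      simp only [add_sub_cancel_left]
      rfl
    rw [e]
    exact (norm_sub_le _ _).trans (add_le_add (hK _) (hf 0))
  have key : ∀ n, n ≤ N → ‖∑ k ∈ Icc 1 n, f k * w k - (∑ k ∈ Icc 1 n, f k) * w n‖ ≤
      (K + 1) * (A * Real.log n) := by
    intro n
    induction n with
    | zero => intro _; simp
    | succ n ih =>
      intro hn
      rcases Nat.eq_zero_or_pos n with rfl | hn0
      · simp
      · have e : ∑ k ∈ Icc 1 (n + 1), f k * w k - (∑ k ∈ Icc 1 (n + 1), f k) * w (n + 1) =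
            (∑ k ∈ Icc 1 n, f k * w k - (∑ k ∈ Icc 1 n, f k) * w n) -
              (∑ k ∈ Icc 1 n, f k) * (w (n + 1) - w n) := by
          rw [sum_Icc_succ_top (by omega), sum_Icc_succ_top (by omega)]
          ring
        rw [e]
        refine (norm_sub_le _ _).trans ?_
        have h1 := ih (by omega)
        have h2 := hw n hn0 (by omega)
        have h3 : ‖(∑ k ∈ Icc 1 n, f k) * (w (n + 1) - w n)‖ ≤
            (K + 1) * (A * (Real.log (n + 1 : ℕ) - Real.log n)) := by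
          rw [norm_mul]
          exact mul_le_mul (hF n) h2 (norm_nonneg _) ((norm_nonneg _).trans (hF n))
        linarith
  have h1 := key N le_rfl
  have h2 : ‖(∑ k ∈ Icc 1 N, f k) * w N‖ ≤ (K + 1) * ‖w N‖ := by
    rw [norm_mul]
    exact mul_le_mul_of_nonneg_right (hF N) (norm_nonneg _)
  have h3 := norm_add_le (∑ k ∈ Icc 1 N, f k * w k - (∑ k ∈ Icc 1 N, f k) * w N)
    ((∑ k ∈ Icc 1 N, f k) * w N)
  rw [sub_add_cancel] at h3
  linarith

/-- weighted sum of an arithmetic function -/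
noncomputable def lsS (g : ArithmeticFunction ℝ) (f W : ℕ → ℂ) (N : ℕ) : ℂ :=
  ∑ n ∈ Icc 1 N, (g n : ℂ) * f n * W n

theorem ls_add (g h : ArithmeticFunction ℝ) (f W : ℕ → ℂ) (N : ℕ) :
    lsS (g + h) f W N = lsS g f W N + lsS h f W N := by
  simp only [lsS, ArithmeticFunction.add_apply, ← sum_add_distrib]
  exact sum_congr rfl fun n _ => by push_cast; ring

theorem ls_conv (g h : ArithmeticFunction ℝ) (f W : ℕ → ℂ) (N : ℕ)
    (hf : ∀ m n, f (m * n) = f m * f n) (hW : ∀ n, N < n → W n = 0) :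
    lsS (g * h) f W N =
      ∑ d ∈ Icc 1 N, ∑ k ∈ Icc 1 N, (g d : ℂ) * f d * ((h k : ℂ) * f k) * W (d * k) := by
  classical
  rw [← sum_product', ← sum_filter_add_sum_filter_not _ (fun p : ℕ × ℕ => p.1 * p.2 ≤ N)]
  rw [sum_eq_zero (s := filter (fun p : ℕ × ℕ => ¬ p.1 * p.2 ≤ N) _)
    (fun p hp => by rw [hW _ (not_le.1 (mem_filter.1 hp).2), mul_zero]), add_zero]
  rw [← sum_fiberwise_of_maps_to (t := Icc 1 N) (g := fun p : ℕ × ℕ => p.1 * p.2)]
  · unfold lsS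
    refine sum_congr rfl fun n hn => ?_
    rw [ArithmeticFunction.mul_apply]
    push_cast
    rw [sum_mul, sum_mul]
    rw [mem_Icc] at hn
    refine sum_congr ?_ fun p hp => ?_
    · ext p
      simp only [Nat.mem_divisorsAntidiagonal, mem_filter, mem_product, mem_Icc]
      constructor
      · rintro ⟨h1, h2⟩
        have h3 : 0 < p.1 := Nat.pos_of_ne_zero fun h => by rw [h] at h1; omega
        have h4 : 0 < p.2 := Nat.pos_of_ne_zero fun h => by rw [h] at h1; omega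
        have h5 : p.1 ≤ p.1 * p.2 := Nat.le_mul_of_pos_right _ h4
        have h6 : p.2 ≤ p.1 * p.2 := Nat.le_mul_of_pos_left _ h3
        omega
      · rintro ⟨_, h2⟩
        omega
    · rw [← (mem_filter.1 hp).2, hf]
      ring
  · intro p hp
    simp only [mem_filter, mem_product, mem_Icc] at hp ⊢
    exact ⟨Nat.mul_pos hp.1.1.1 hp.1.2.1, hp.2⟩

theorem ls_typeI (g h : ArithmeticFunction ℝ) (f W : ℕ → ℂ) (N Y : ℕ) (K G A B : ℝ)
    (hm : ∀ m n, f (m * n) = f m * f n) (hW : ∀ n, N < n → W n = 0) (hf : ∀ n, ‖f n‖ ≤ 1)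
    (hK : ∀ N, ‖∑ n ∈ range N, f n‖ ≤ K) (hG0 : 0 ≤ G) (hA0 : 0 ≤ A) (hB0 : 0 ≤ B)
    (hG : ∀ d, d ≤ N → |g d| ≤ G) (hY : ∀ d, Y < d → g d = 0)
    (hB : ∀ d, ‖(h N : ℂ) * W (d * N)‖ ≤ B)
    (hA : ∀ d k, 1 ≤ d → 1 ≤ k → k < N → ‖(h (k + 1) : ℂ) * W (d * (k + 1)) - h k * W (d * k)‖ ≤
      A * (Real.log (k + 1 : ℕ) - Real.log k)) :
    ‖lsS (g * h) f W N‖ ≤ Y * (G * ((K + 1) * (B + A * Real.log N))) := by
  classical
  have hK0 : 0 ≤ K := by simpa using hK 0
  have hl : 0 ≤ Real.log N := Real.log_natCast_nonneg N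
  set R := G * ((K + 1) * (B + A * Real.log N)) with hR
  have hR0 : 0 ≤ R := by positivity
  rw [ls_conv g h f W N hm hW]
  calc _ ≤ ∑ d ∈ Icc 1 N, if d ≤ Y then R else 0 := by
        refine norm_sum_le_of_le _ fun d hd => ?_
        rw [mem_Icc] at hd
        split_ifs with hdY
        · have e : ∑ k ∈ Icc 1 N, (g d : ℂ) * f d * ((h k : ℂ) * f k) * W (d * k) =
              (g d : ℂ) * f d * ∑ k ∈ Icc 1 N, f k * ((h k : ℂ) * W (d * k)) := by
            rw [mul_sum]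
            exact sum_congr rfl fun k _ => by ring
          rw [e, norm_mul, norm_mul, Complex.norm_real, Real.norm_eq_abs]
          have h1 := ls_abel f (fun k => (h k : ℂ) * W (d * k)) K A hf hK N
            (fun k h1 h2 => hA d k hd.1 h1 h2)
          refine mul_le_mul ?_ (h1.trans ?_) (norm_nonneg _) hG0
          · exact (mul_le_of_le_one_right (abs_nonneg _) (hf d)).trans (hG d hd.2)
          · have := hB d
            gcongr
        · simp [hY d (not_le.1 hdY)]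
    _ ≤ Y * R := by
        rw [← sum_filter, sum_const, nsmul_eq_mul]
        refine mul_le_mul_of_nonneg_right ?_ hR0
        have : ((Icc 1 N).filter (fun d => d ≤ Y)).card ≤ (Icc 1 Y).card :=
          card_le_card fun d hd => by
            simp only [mem_filter, mem_Icc] at hd ⊢
            omega
        simpa using (Nat.cast_le (α := ℝ)).2 this

theorem ls_block {ι : Type} (X : Finset ι) (f : ι → ℕ → ℂ) (K : ℝ) (hK0 : 0 ≤ K)
    (hf : ∀ i n, ‖f i n‖ ≤ 1)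
    (hK : ∀ i ∈ X, ∀ i' ∈ X, i ≠ i' → ∀ N,
      ‖∑ n ∈ range N, f i n * (starRingEnd ℂ) (f i' n)‖ ≤ K)
    (v φ : ℝ → ℂ) (hc : Continuous φ) (hi : Integrable fun t : ℝ => ‖φ t‖)
    (hv : ∀ u : ℝ, v u = ∫ t : ℝ, φ t * Complex.exp (Complex.I * t * u))
    (x : ℝ) (hx : 0 < x) (M1 N1 M2 N2 : ℕ) (h1 : 0 < M1) (h2 : 0 < M2) (a b : ℕ → ℂ) (R : ℝ)
    (hR0 : 0 ≤ R)
    (hR : ((N1 + 2 * K * #X) * ∑ n ∈ Ico M1 (M1 + N1), ‖a n‖ ^ 2) *
      ((N2 + 2 * K * #X) * ∑ n ∈ Ico M2 (M2 + N2), ‖b n‖ ^ 2) ≤ R ^ 2) :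
    ∑ i ∈ X, ‖∑ d ∈ Ico M1 (M1 + N1), ∑ k ∈ Ico M2 (M2 + N2),
      a d * f i d * (b k * f i k) * v (Real.log ((d * k : ℕ) / x))‖ ≤ (∫ t, ‖φ t‖) * R := by
  have hn : ∀ t u : ℝ, ‖Complex.exp (Complex.I * t * u)‖ = 1 := fun t u => by
    rw [show Complex.I * t * u = ((t * u : ℝ) : ℂ) * Complex.I by push_cast; ring]
    exact Complex.norm_exp_ofReal_mul_I _
  have hint : ∀ u : ℝ, Integrable fun t : ℝ => φ t * Complex.exp (Complex.I * t * u) := fun u =>
    hi.mono' (by fun_prop) (Filter.Eventually.of_forall fun t => by rw [norm_mul, hn, mul_one])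
  set g : ι → ℝ → ℂ := fun i t => ∑ d ∈ Ico M1 (M1 + N1), ∑ k ∈ Ico M2 (M2 + N2),
    a d * f i d * (b k * f i k) *
      (φ t * Complex.exp (Complex.I * t * (Real.log ((d * k : ℕ) / x) : ℝ))) with hg
  have hgi : ∀ i, Integrable (g i) := fun i =>
    integrable_finsetSum _ fun d _ => integrable_finsetSum _ fun k _ => (hint _).const_mul _
  have e1 : ∀ i, ∑ d ∈ Ico M1 (M1 + N1), ∑ k ∈ Ico M2 (M2 + N2),
      a d * f i d * (b k * f i k) * v (Real.log ((d * k : ℕ) / x)) = ∫ t, g i t := by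
    intro i
    rw [hg]
    beta_reduce
    rw [integral_finsetSum _ fun d _ => integrable_finsetSum _ fun k _ => (hint _).const_mul _]
    refine sum_congr rfl fun d _ => ?_
    rw [integral_finsetSum _ fun k _ => (hint _).const_mul _]
    refine sum_congr rfl fun k _ => ?_
    rw [integral_const_mul, hv]
  have e2 : ∀ t, ∑ i ∈ X, ‖g i t‖ ≤ ‖φ t‖ * R := by
    intro t
    set a' : ℕ → ℂ := fun d => a d * Complex.exp (Complex.I * t * (Real.log d : ℝ)) with ha'
    set b' : ℕ → ℂ := fun d => b d * Complex.exp (Complex.I * t * (Real.log d : ℝ)) with hb'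
    have e3 : ∀ i, g i t = φ t * Complex.exp (Complex.I * t * (-Real.log x : ℝ)) *
        ((∑ d ∈ Ico M1 (M1 + N1), a' d * f i d) * ∑ k ∈ Ico M2 (M2 + N2), b' k * f i k) := by
      intro i
      rw [hg, sum_mul_sum, mul_sum]
      refine sum_congr rfl fun d hd => ?_
      rw [mul_sum]
      refine sum_congr rfl fun k hk => ?_
      have hd0 : (0 : ℝ) < d := by exact_mod_cast h1.trans_le (mem_Ico.1 hd).1
      have hk0 : (0 : ℝ) < k := by exact_mod_cast h2.trans_le (mem_Ico.1 hk).1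
      rw [Nat.cast_mul, Real.log_div (by positivity) hx.ne', Real.log_mul hd0.ne' hk0.ne',
        show Complex.I * t * ((Real.log d + Real.log k - Real.log x : ℝ) : ℂ) =
          Complex.I * t * (Real.log d : ℝ) + Complex.I * t * (Real.log k : ℝ) +
            Complex.I * t * (-Real.log x : ℝ) by push_cast; ring, Complex.exp_add, Complex.exp_add]
      simp only [ha', hb']
      ring
    simp only [e3, norm_mul, hn, mul_one, ← mul_sum]
    refine mul_le_mul_of_nonneg_left ?_ (norm_nonneg _)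
    have e4 := sum_mul_sq_le_sq_mul_sq X (fun i => ‖∑ d ∈ Ico M1 (M1 + N1), a' d * f i d‖)
      (fun i => ‖∑ k ∈ Ico M2 (M2 + N2), b' k * f i k‖)
    have e5 := large_sieve X f K hK0 hf hK M1 N1 a'
    have e6 := large_sieve X f K hK0 hf hK M2 N2 b'
    simp only [ha', hb', norm_mul, hn, mul_one] at e5 e6
    refine (pow_le_pow_iff_left₀ (by positivity) hR0 two_ne_zero).1 (e4.trans (le_trans ?_ hR))
    exact mul_le_mul e5 e6 (by positivity) (by positivity)
  calc _ ≤ ∑ i ∈ X, ∫ t, ‖g i t‖ :=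
        sum_le_sum fun i _ => by rw [e1]; exact norm_integral_le_integral_norm _
    _ = ∫ t, ∑ i ∈ X, ‖g i t‖ := (integral_finsetSum _ fun i _ => (hgi i).norm).symm
    _ ≤ ∫ t, ‖φ t‖ * R :=
        integral_mono (integrable_finsetSum _ fun i _ => (hgi i).norm) (hi.mul_const R) e2
    _ = _ := integral_mul_const _ _

theorem ls_dyadic (F : ℕ → ℂ) (J : ℕ) :
    ∑ j ∈ range J, ∑ d ∈ Ico (2 ^ j) (2 ^ j + 2 ^ j), F d = ∑ d ∈ Ico 1 (2 ^ J), F d := by
  induction J with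
  | zero => simp
  | succ J ih =>
    rw [sum_range_succ, ih, sum_Ico_consecutive _ Nat.one_le_two_pow (Nat.le_add_right _ _),
      pow_succ, mul_two]

theorem ls_typeII {ι : Type} (X : Finset ι) (f : ι → ℕ → ℂ) (K : ℝ) (hK0 : 0 ≤ K)
    (hm : ∀ i m n, f i (m * n) = f i m * f i n) (hf : ∀ i n, ‖f i n‖ ≤ 1)
    (hK : ∀ i ∈ X, ∀ i' ∈ X, i ≠ i' → ∀ N,
      ‖∑ n ∈ range N, f i n * (starRingEnd ℂ) (f i' n)‖ ≤ K)
    (v φ : ℝ → ℂ) (hc : Continuous φ) (hi : Integrable fun t : ℝ => ‖φ t‖)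
    (hv : ∀ u : ℝ, v u = ∫ t : ℝ, φ t * Complex.exp (Complex.I * t * u))
    (x : ℝ) (hx : 0 < x) (N U : ℕ) (L : ℝ) (hL : 0 ≤ L)
    (hW : ∀ n : ℕ, N < n → v (Real.log (n / x)) = 0) (hU : K * #X ≤ U)
    (g h : ArithmeticFunction ℝ) (hg : ∀ d, |g d| ≤ 1) (hg0 : ∀ d, d ≤ U → g d = 0)
    (hh : ∀ k, k ≤ N → |h k| ≤ L) (hh0 : ∀ k, k ≤ U → h k = 0) :
    ∑ i ∈ X, ‖lsS (g * h) (f i) (fun n => v (Real.log (n / x))) N‖ ≤
      (Nat.log 2 N + 1 : ℕ) * ((∫ t, ‖φ t‖) * (4 * N * L)) := by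
  have hI : 0 ≤ ∫ t, ‖φ t‖ := integral_nonneg fun _ => norm_nonneg _
  have e1 : ∀ i, lsS (g * h) (f i) (fun n => v (Real.log (n / x))) N =
      ∑ j ∈ range (Nat.log 2 N + 1), ∑ d ∈ Ico (2 ^ j) (2 ^ j + 2 ^ j),
        ∑ k ∈ Ico 1 (1 + N / 2 ^ j),
          (g d : ℂ) * f i d * ((h k : ℂ) * f i k) * v (Real.log ((d * k : ℕ) / x)) := by
    intro i
    rw [ls_conv g h (f i) _ N (hm i) hW]
    rw [sum_subset (s₂ := Ico 1 (2 ^ (Nat.log 2 N + 1)))]
    · rw [← ls_dyadic]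
      refine sum_congr rfl fun j _ => sum_congr rfl fun d hd => ?_
      symm
      refine sum_subset (fun k hk => ?_) fun k _ hk' => ?_
      · have := Nat.div_le_self N (2 ^ j)
        simp only [mem_Ico, mem_Icc] at hk ⊢
        omega
      · rename_i hk
        simp only [mem_Ico, mem_Icc] at hk hk' hd
        have h1 : N / 2 ^ j < k := by omega
        have h2 : N < k * 2 ^ j := (Nat.div_lt_iff_lt_mul (by positivity)).1 h1
        have h3 : k * 2 ^ j ≤ d * k := by rw [mul_comm]; exact Nat.mul_le_mul_right _ hd.1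
        rw [hW _ (h2.trans_le h3), mul_zero]
    · intro d hd
      have := Nat.lt_pow_succ_log_self (b := 2) (by norm_num) N
      simp only [mem_Ico, mem_Icc] at hd ⊢
      omega
    · intro d hd hd'
      refine sum_eq_zero fun k hk => ?_
      simp only [mem_Ico, mem_Icc] at hd hd' hk
      have h3 : d ≤ d * k := Nat.le_mul_of_pos_right _ hk.1
      have h4 := hW (d * k) (by omega)
      rw [h4, mul_zero]
  simp only [e1]
  refine (sum_le_sum fun i _ => norm_sum_le _ _).trans ?_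
  rw [sum_comm]
  refine (sum_le_card_nsmul _ _ ((∫ t, ‖φ t‖) * (4 * N * L)) fun j _ => ?_).trans
    (by rw [card_range, nsmul_eq_mul])
  by_cases h1 : 2 ^ j + 2 ^ j ≤ U
  · rw [sum_eq_zero fun i _ => ?_]
    · positivity
    · rw [sum_eq_zero fun d hd => ?_, norm_zero]
      simp [hg0 d ((mem_Ico.1 hd).2.le.trans h1)]
  by_cases h2 : N / 2 ^ j ≤ U
  · rw [sum_eq_zero fun i _ => ?_]
    · positivity
    · rw [sum_eq_zero fun d _ => sum_eq_zero fun k hk => ?_, norm_zero]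
      have : k ≤ U := by have := (mem_Ico.1 hk).2; omega
      simp [hh0 k this]
  refine ls_block X f K hK0 hf hK v φ hc hi hv x hx _ _ _ _ (by positivity) one_pos
    (fun d => (g d : ℂ)) (fun k => (h k : ℂ)) _ (by positivity) ?_
  set D : ℕ := 2 ^ j with hD
  set Q : ℕ := N / D with hQ
  have b1 : ∑ n ∈ Ico D (D + D), ‖(g n : ℂ)‖ ^ 2 ≤ D := by
    refine (sum_le_card_nsmul _ _ 1 fun n _ => ?_).trans (by simp)
    rw [Complex.norm_real, Real.norm_eq_abs]
    exact pow_le_one₀ (abs_nonneg _) (hg n)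
  have b2 : ∑ n ∈ Ico 1 (1 + Q), ‖(h n : ℂ)‖ ^ 2 ≤ Q * L ^ 2 := by
    refine (sum_le_card_nsmul _ _ (L ^ 2) fun n hn => ?_).trans (by simp)
    rw [Complex.norm_real, Real.norm_eq_abs]
    have h3 : Q ≤ N := Nat.div_le_self _ _
    have h4 := (mem_Ico.1 hn).2
    exact pow_le_pow_left₀ (abs_nonneg _) (hh n (by omega)) 2
  have c1 : (U : ℝ) ≤ 2 * D := by exact_mod_cast (by omega : U ≤ 2 * D)
  have c2 : (U : ℝ) ≤ Q := by exact_mod_cast (by omega : U ≤ Q)
  have c3 : (D : ℝ) * Q ≤ N := by exact_mod_cast Nat.mul_div_le N D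
  calc _ ≤ ((5 * D) * D) * ((3 * Q) * (Q * L ^ 2)) := by
        gcongr <;> linarith
    _ = 15 * ((D : ℝ) * Q) ^ 2 * L ^ 2 := by ring
    _ ≤ 16 * (N : ℝ) ^ 2 * L ^ 2 := by gcongr; norm_num
    _ = _ := by ring

theorem family_bound {v : ℝ → ℂ} (hv : Test v) :
    ∃ C : ℝ, 0 < C ∧ ∀ x : ℝ, 3 ≤ x → ∀ {ι : Type} (X : Finset ι) (f : ι → ℕ → ℂ) (K : ℝ),
      (∀ i m n, f i (m * n) = f i m * f i n) → (∀ i n, ‖f i n‖ ≤ 1) →
      (∀ i ∈ X, ∀ N, ‖∑ n ∈ range N, f i n‖ ≤ K) →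
      (∀ i ∈ X, ∀ i' ∈ X, i ≠ i' → ∀ N, ‖∑ n ∈ range N, f i n * (starRingEnd ℂ) (f i' n)‖ ≤ K) →
      (#X : ℝ) ≤ K → K ^ 10 ≤ x →
        ∑ i ∈ X, ‖psiW v (f i) x‖ ≤ C * x * Real.log x ^ 3 := by
  obtain ⟨C, hC, hC1, hC2⟩ := hv.bound
  obtain ⟨φ, hφc, hφi, hφ⟩ := hv.rep
  have hint : Integrable fun t : ℝ => ‖φ t‖ := by simpa using hφi 0
  have hI : 0 ≤ ∫ t, ‖φ t‖ := integral_nonneg fun _ => norm_nonneg _
  set I := ∫ t, ‖φ t‖ with hIdef
  refine ⟨100 * C + 12 * I, by positivity, fun x hx ι X f K hm hf hK1 hK2 hX hKx => ?_⟩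
  have hx0 : 0 < x := by linarith
  set L := Real.log x with hL
  have hL1 : 1 ≤ L := by
    rw [hL, Real.le_log_iff_exp_le hx0]
    exact Real.exp_one_lt_d9.le.trans (by linarith)
  rcases X.eq_empty_or_nonempty with rfl | hne
  · simp only [sum_empty]; positivity
  have hK : 1 ≤ K := le_trans (by exact_mod_cast hne.card_pos) hX
  set N := ⌊x⌋₊ with hN
  have hNx : (N : ℝ) ≤ x := Nat.floor_le hx0.le
  have hN1 : 1 ≤ N := Nat.le_floor (by norm_num; linarith)
  have hlog : ∀ n : ℕ, n ≤ N → Real.log n ≤ L := fun n hn =>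
    (log_mono hn).trans (Real.log_le_log (by exact_mod_cast hN1) hNx)
  set y := x ^ (1 / 5 : ℝ) with hy
  have hy5 : y ^ 5 = x := by
    rw [hy, ← Real.rpow_natCast, ← Real.rpow_mul hx0.le]; norm_num
  have hy1 : 1 ≤ y := Real.one_le_rpow (by linarith) (by norm_num)
  have hKy : K ^ 2 ≤ y := by
    refine (pow_le_pow_iff_left₀ (by positivity) (by linarith) (n := 5) (by norm_num)).1 ?_
    rw [hy5, ← pow_mul]; exact hKx
  set U := ⌈y⌉₊ with hU
  have hU1 : y ≤ U := Nat.le_ceil y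
  have hU2 : (U : ℝ) ≤ 2 * y := (Nat.ceil_lt_add_one (by linarith)).le.trans (by linarith)
  set W : ℕ → ℂ := fun n => v (Real.log (n / x)) with hWdef
  have hW : ∀ n : ℕ, N < n → v (Real.log (n / x)) = 0 := by
    intro n hn
    refine hv.2 _ fun h => ?_
    have h1 : x < n := Nat.lt_of_floor_lt hn
    exact absurd h.2 (not_le.2 (Real.log_pos ((one_lt_div hx0).2 h1)))
  have hWd : ∀ d k : ℕ, 1 ≤ d → 1 ≤ k → ‖W (d * (k + 1)) - W (d * k)‖ ≤
      C * (Real.log (k + 1 : ℕ) - Real.log k) := by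
    intro d k hd hk
    refine (hC2 _ _).trans (le_of_eq ?_)
    have hd0 : (0 : ℝ) < d := by exact_mod_cast hd
    have hk0 : (0 : ℝ) < k := by exact_mod_cast hk
    have hk1 : (0 : ℝ) < (k + 1 : ℕ) := by positivity
    rw [Nat.cast_mul, Nat.cast_mul, Real.log_div (by positivity) hx0.ne',
      Real.log_div (by positivity) hx0.ne', Real.log_mul hd0.ne' hk0.ne',
      Real.log_mul hd0.ne' hk1.ne', abs_of_nonneg]
    · ring
    · have := log_mono (Nat.le_succ k)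
      simp only at this
      linarith
  have hlo : lo (hi mob U) U = 0 := by
    ext n
    simp only [lo_apply, hi_apply, ArithmeticFunction.zero_apply]
    split_ifs <;> first | omega | rfl
  have hsplit : ∀ i, psiW v (f i) x = lsS (lo vonMangoldt U) (f i) W N +
      lsS (lo mob U * ArithmeticFunction.log) (f i) W N +
      lsS (hi (hi mob U) U * (hi vonMangoldt U * zet)) (f i) W N -
      lsS (lo mob U * lo vonMangoldt U * zet) (f i) W N := by
    intro i
    have h1 := congrArg (fun g => lsS g (f i) W N) (vaughan U U)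
    simp only [hlo, zero_mul, zero_add, ls_add] at h1
    rw [mul_comm (hi (hi mob U) U), ← h1, add_sub_cancel_right]
    rfl
  have t1 : ∀ i, ‖lsS (lo vonMangoldt U) (f i) W N‖ ≤ U * (L * C) := by
    intro i
    classical
    calc _ ≤ ∑ n ∈ Icc 1 N, if n ≤ U then L * C else 0 := by
          refine norm_sum_le_of_le _ fun n hn => ?_
          rw [lo_apply]
          split_ifs
          · rw [norm_mul, norm_mul, Complex.norm_real, Real.norm_of_nonneg vonMangoldt_nonneg]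
            refine mul_le_mul ?_ (hC1 _) (norm_nonneg _) (by linarith)
            exact (mul_le_of_le_one_right vonMangoldt_nonneg (hf i n)).trans
              (vonMangoldt_le_log.trans (hlog n (mem_Icc.1 hn).2))
          · simp
      _ ≤ U * (L * C) := by
          rw [← sum_filter, sum_const, nsmul_eq_mul]
          refine mul_le_mul_of_nonneg_right ?_ (by positivity)
          have : ((Icc 1 N).filter (fun d => d ≤ U)).card ≤ (Icc 1 U).card :=
            card_le_card fun d hd => by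
              simp only [mem_filter, mem_Icc] at hd ⊢
              omega
          simpa using (Nat.cast_le (α := ℝ)).2 this
  have t2 : ∀ i ∈ X, ‖lsS (lo mob U * ArithmeticFunction.log) (f i) W N‖ ≤
      U * (1 * ((K + 1) * (L * C + C * (1 + L) * Real.log N))) := by
    intro i hi'
    refine ls_typeI _ _ _ _ N U K 1 (C * (1 + L)) (L * C) (hm i) hW (hf i) (hK1 i hi') zero_le_one
      (by positivity) (by positivity) (fun d _ => ?_) (fun d hd => ?_) (fun d => ?_)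
      (fun d k hd hk hkN => ?_)
    · rw [lo_apply]
      split_ifs
      · exact abs_mob_le d
      · simp
    · rw [lo_apply, if_neg (by omega)]
    · rw [norm_mul, log_apply, Complex.norm_real, Real.norm_of_nonneg (Real.log_natCast_nonneg N)]
      exact mul_le_mul (hlog N le_rfl) (hC1 _) (norm_nonneg _) (by linarith)
    · rw [log_apply, log_apply]
      have h1 : Real.log k ≤ Real.log (k + 1 : ℕ) := log_mono (Nat.le_succ k)
      have e : ((Real.log (k + 1 : ℕ) : ℝ) : ℂ) * W (d * (k + 1)) - (Real.log k : ℝ) * W (d * k) =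
          ((Real.log (k + 1 : ℕ) - Real.log k : ℝ) : ℂ) * W (d * (k + 1)) +
            (Real.log k : ℝ) * (W (d * (k + 1)) - W (d * k)) := by
        push_cast; ring
      rw [e]
      refine (norm_add_le _ _).trans ?_
      rw [norm_mul, norm_mul, Complex.norm_real, Complex.norm_real,
        Real.norm_of_nonneg (sub_nonneg.2 h1), Real.norm_of_nonneg (Real.log_natCast_nonneg k)]
      have h2 := mul_le_mul (hlog k hkN.le) (hWd d k hd hk) (norm_nonneg _) (by linarith)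
      have h3 := mul_le_mul_of_nonneg_left (hC1 (Real.log ((d * (k + 1) : ℕ) / x)))
        (sub_nonneg.2 h1)
      have h4 : ‖W (d * (k + 1))‖ = ‖v (Real.log ((d * (k + 1) : ℕ) / x))‖ := rfl
      rw [h4]
      linarith
  have hz : ∀ k : ℕ, 1 ≤ k → zet k = 1 := fun k hk => by
    have hk0 : k ≠ 0 := by omega
    simp [zet, natCoe_apply, zeta_apply, hk0]
  have t3 : ∀ i ∈ X, ‖lsS (lo mob U * lo vonMangoldt U * zet) (f i) W N‖ ≤
      (U * U : ℕ) * (L * ((K + 1) * (C + C * Real.log N))) := by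
    intro i hi'
    refine ls_typeI _ _ _ _ N (U * U) K L C C (hm i) hW (hf i) (hK1 i hi') (by linarith)
      hC.le hC.le (fun d hd => (gamma_bound U d).trans (hlog d hd)) (fun d hd => gamma_zero hd)
      (fun d => ?_) (fun d k hd hk _ => ?_)
    · rw [hz N hN1]
      simpa using hC1 _
    · rw [hz k hk, hz (k + 1) (by omega)]
      simpa using hWd d k hd hk
  have hKX : K * #X ≤ U := by nlinarith
  have t4 := ls_typeII X f K (by linarith) hm hf hK2 v φ hφc hint hφ x hx0 N U L (by linarith) hW hKX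
    (hi (hi mob U) U) (hi vonMangoldt U * zet) (fun d => by
      simp only [hi_apply]
      split_ifs
      · exact abs_mob_le d
      · simp) (fun d hd => by rw [hi_apply, if_neg (by omega)])
    (fun k hk => (beta_bound U k).trans (hlog k hk)) (fun k hk => beta_zero hk)
  have hJ : ((Nat.log 2 N + 1 : ℕ) : ℝ) ≤ 3 * L := by
    have h1 : ((2 ^ Nat.log 2 N : ℕ) : ℝ) ≤ x :=
      le_trans (by exact_mod_cast Nat.pow_log_le_self 2 (by omega)) hNx
    have h2 := Real.log_le_log (by positivity) h1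
    rw [Nat.cast_pow, Real.log_pow] at h2
    have h3 := Real.log_two_gt_d9
    have h4 : (0 : ℝ) ≤ Nat.log 2 N := by positivity
    push_cast at h2 ⊢
    nlinarith
  have hlN := hlog N le_rfl
  have hlN0 := Real.log_natCast_nonneg N
  have hL2 : L ≤ L ^ 2 := by nlinarith
  have hL3 : L ^ 2 ≤ L ^ 3 := by nlinarith
  have hU0 : (0 : ℝ) ≤ U := by positivity
  have hU3 : (U : ℝ) ^ 3 ≤ 8 * x := by
    have h1 : y ^ 3 ≤ y ^ 5 := pow_le_pow_right₀ hy1 (by norm_num)
    calc (U : ℝ) ^ 3 ≤ (2 * y) ^ 3 := by gcongr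
      _ ≤ 8 * x := by rw [← hy5]; linarith
  have hU1' : (1 : ℝ) ≤ U := hy1.trans hU1
  have s1 : ∀ i ∈ X, ‖psiW v (f i) x‖ ≤ 12 * C * K * U ^ 2 * L ^ 2 +
      ‖lsS (hi (hi mob U) U * (hi vonMangoldt U * zet)) (f i) W N‖ := by
    intro i hi'
    rw [hsplit]
    refine (norm_sub_le _ _).trans ?_
    refine (add_le_add_left (norm_add₃_le) _).trans ?_
    have u1 : (U : ℝ) * (L * C) ≤ 1 * C * K * U ^ 2 * L ^ 2 := by
      calc (U : ℝ) * (L * C) = 1 * C * 1 * U * L := by ring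
        _ ≤ _ := by gcongr; nlinarith
    have u2 : U * (1 * ((K + 1) * (L * C + C * (1 + L) * Real.log N))) ≤
        6 * C * K * U ^ 2 * L ^ 2 := by
      calc _ ≤ (U : ℝ) ^ 2 * (1 * ((K + K) * (L ^ 2 * C + C * (L + L) * L))) := by
            gcongr; nlinarith
        _ = _ := by ring
    have u3 : ((U * U : ℕ) : ℝ) * (L * ((K + 1) * (C + C * Real.log N))) ≤
        4 * C * K * U ^ 2 * L ^ 2 := by
      push_cast
      calc _ ≤ (U : ℝ) * U * (L * ((K + K) * (C * L + C * L))) := by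
            gcongr; nlinarith
        _ = _ := by ring
    have u4 : 0 ≤ C * K * U ^ 2 * L ^ 2 := by positivity
    have := t1 i
    have := t2 i hi'
    have := t3 i hi'
    linarith
  refine (sum_le_sum s1).trans ?_
  rw [sum_add_distrib, sum_const, nsmul_eq_mul]
  have w1 : #X * (12 * C * K * U ^ 2 * L ^ 2) ≤ 96 * C * x * L ^ 3 := by
    calc _ = 12 * C * ((K * #X) * U ^ 2) * L ^ 2 := by ring
      _ ≤ 12 * C * (U * U ^ 2) * L ^ 3 := by gcongr
      _ = 12 * C * U ^ 3 * L ^ 3 := by ring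
      _ ≤ 12 * C * (8 * x) * L ^ 3 := by gcongr
      _ = _ := by ring
  have w2 : ((Nat.log 2 N + 1 : ℕ) : ℝ) * (I * (4 * N * L)) ≤ 12 * I * x * L ^ 3 := by
    calc _ ≤ (3 * L) * (I * (4 * x * L)) := by gcongr
      _ = 12 * I * x * L ^ 2 := by ring
      _ ≤ _ := by gcongr
  have w3 : 0 ≤ C * x * L ^ 3 := by positivity
  have := t4.trans w2
  linarith

end Pool.Agent.MP_48b1c3_nt.H54
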