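import Pool.Agent.MP_48b1c3_nt.H54.SW
import Pool.Agent.MP_48b1c3_nt.H54.LS
import Pool.Agent.MP_48b1c3_nt.H54.Mertens

/-! A Bombieri-Vinogradov theorem with level `x ^ (1 / 20)`. -/

namespace Pool.Agent.MP_48b1c3_nt.H54

open Finset Filter

theorem bv_le_two_pow_mul_totient (q : ℕ) : q ≤ 2 ^ #q.primeFactors * q.totient := by
  have h0 : 0 < ∏ p ∈ q.primeFactors, p := prod_pos fun p => Nat.pos_of_mem_primeFactors
  refine Nat.le_of_mul_le_mul_right ?_ h0
  rw [mul_assoc, Nat.totient_mul_prod_primeFactors, mul_left_comm, ← prod_const, ← prod_mul_distrib]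
  refine Nat.mul_le_mul_left _ (prod_le_prod' fun p hp => ?_)
  have := (Nat.prime_of_mem_primeFactors hp).two_le
  omega

theorem bv_pow_omega_le (M q : ℕ) (hq : 0 < q) : M ^ #q.primeFactors ≤ (M + 1) ^ M * q := by
  calc M ^ #q.primeFactors = ∏ p ∈ q.primeFactors, M := by rw [prod_const]
    _ ≤ ∏ p ∈ q.primeFactors, ((if p < M then M + 1 else 1) * p) := by
      refine prod_le_prod' fun p hp => ?_
      have := Nat.pos_of_mem_primeFactors hp
      split_ifs with h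
      · nlinarith
      · omega
    _ = (M + 1) ^ #(q.primeFactors.filter (· < M)) * ∏ p ∈ q.primeFactors, p := by
      rw [prod_mul_distrib, prod_ite, prod_const, prod_const_one, mul_one]
    _ ≤ (M + 1) ^ M * q := by
      refine Nat.mul_le_mul (Nat.pow_le_pow_right (by omega) ?_)
        (Nat.le_of_dvd hq (Nat.prod_primeFactors_dvd q))
      refine (card_le_card (t := range M) fun p hp => ?_).trans (card_range M).le
      exact mem_range.2 (mem_filter.1 hp).2

theorem bv_div_totient_le (K q : ℕ) (hq : 0 < q) :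
    (K : ℝ) ^ #q.primeFactors / q.totient ≤ ((2 * K : ℕ) : ℝ) ^ #q.primeFactors / q := by
  have h1 : (0 : ℝ) < q.totient := by exact_mod_cast Nat.totient_pos.2 hq
  have h2 : (0 : ℝ) < q := by exact_mod_cast hq
  have h3 : (q : ℝ) ≤ 2 ^ #q.primeFactors * q.totient := by
    exact_mod_cast bv_le_two_pow_mul_totient q
  rw [div_le_div_iff₀ h1 h2]
  push_cast
  rw [mul_pow, mul_comm ((2 : ℝ) ^ _), mul_assoc]
  gcongr

theorem omega_totient_le (K : ℕ) : ∃ C : ℝ, 0 < C ∧ ∀ q : ℕ, 0 < q →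
    (K : ℝ) ^ #q.primeFactors / q.totient ≤ C / √q := by
  refine ⟨√((((2 * K) ^ 2 + 1) ^ ((2 * K) ^ 2) : ℕ) : ℝ), by positivity, fun q hq => ?_⟩
  refine (bv_div_totient_le K q hq).trans ?_
  have h2 : (0 : ℝ) < q := by exact_mod_cast hq
  have h3 : ((2 * K : ℕ) : ℝ) ^ #q.primeFactors ≤
      √((((2 * K) ^ 2 + 1) ^ ((2 * K) ^ 2) : ℕ) : ℝ) * √q := by
    rw [← Real.sqrt_mul (by positivity)]
    refine Real.le_sqrt_of_sq_le ?_
    rw [← pow_mul, mul_comm _ 2, pow_mul]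
    exact_mod_cast bv_pow_omega_le ((2 * K) ^ 2) q hq
  rw [div_le_div_iff₀ h2 (by positivity)]
  calc _ ≤ √((((2 * K) ^ 2 + 1) ^ ((2 * K) ^ 2) : ℕ) : ℝ) * √q * √q := by gcongr
    _ = _ := by rw [mul_assoc, Real.mul_self_sqrt h2.le]

theorem bv_succ_pow_omega_le (M m : ℕ) (hm : 0 < m) :
    (M + 1) ^ #m.primeFactors ≤ ∑ d ∈ m.divisors, M ^ #d.primeFactors := by
  have h1 : ∀ T ∈ m.primeFactors.powerset, (∏ p ∈ T, p).primeFactors = T := fun T hT =>
    Nat.primeFactors_prod fun p hp => Nat.prime_of_mem_primeFactors (mem_powerset.1 hT hp)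
  calc (M + 1) ^ #m.primeFactors = ∑ T ∈ m.primeFactors.powerset, M ^ #T := by
        rw [← prod_const, prod_add_one]
        simp only [prod_const]
    _ = ∑ d ∈ m.primeFactors.powerset.image (fun T => ∏ p ∈ T, p), M ^ #d.primeFactors := by
        rw [sum_image]
        · exact sum_congr rfl fun T hT => by rw [h1 T hT]
        · intro T hT T' hT' h
          rw [← h1 T hT, ← h1 T' hT']
          exact congrArg _ h
    _ ≤ _ := by
        refine sum_le_sum_of_subset fun d hd => ?_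
        obtain ⟨T, hT, rfl⟩ := mem_image.1 hd
        exact Nat.mem_divisors.2 ⟨(prod_dvd_prod_of_subset _ _ _ (mem_powerset.1 hT)).trans
          (Nat.prod_primeFactors_dvd m), hm.ne'⟩

theorem bv_sum_pow_omega_le (M N : ℕ) :
    ∑ m ∈ Ioc 0 N, (M : ℝ) ^ #m.primeFactors / m ≤ (∑ m ∈ Ioc 0 N, (1 : ℝ) / m) ^ M := by
  induction M with
  | zero =>
    rw [pow_zero]
    calc _ ≤ ∑ m ∈ Ioc 0 N, if m = 1 then (1 : ℝ) else 0 := by
          refine sum_le_sum fun m hm => ?_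
          split_ifs with h
          · simp [h]
          · have h0 := (mem_Ioc.1 hm).1
            have : #m.primeFactors ≠ 0 :=
              card_ne_zero.2 (Nat.nonempty_primeFactors.2 (by omega))
            simp [this]
      _ ≤ 1 := by
          rw [sum_ite_eq']
          split_ifs <;> norm_num
  | succ M ih =>
    calc _ ≤ ∑ m ∈ Ioc 0 N, ∑ p ∈ (Ioc 0 N ×ˢ Ioc 0 N).filter (fun p => p.1 * p.2 = m),
            (M : ℝ) ^ #p.1.primeFactors / p.1 * (1 / p.2) := by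
          refine sum_le_sum fun m hm => ?_
          obtain ⟨h0, h1⟩ := mem_Ioc.1 hm
          rw [← Nat.divisorsAntidiagonal_eq_prod_filter_of_le h0.ne' h1,
            Nat.sum_divisorsAntidiagonal
              (fun d e => (M : ℝ) ^ #d.primeFactors / d * (1 / e))]
          calc _ ≤ (∑ d ∈ m.divisors, (M : ℝ) ^ #d.primeFactors) / m := by
                gcongr
                exact_mod_cast bv_succ_pow_omega_le M m h0
            _ = _ := by
                rw [sum_div]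
                refine sum_congr rfl fun d hd => ?_
                rw [div_mul_div_comm, mul_one, ← Nat.cast_mul,
                  Nat.mul_div_cancel' (Nat.dvd_of_mem_divisors hd)]
      _ ≤ ∑ p ∈ Ioc 0 N ×ˢ Ioc 0 N, (M : ℝ) ^ #p.1.primeFactors / p.1 * (1 / p.2) :=
          sum_fiberwise_le_sum_of_sum_fiber_nonneg fun y _ => sum_nonneg fun p _ => by positivity
      _ = (∑ m ∈ Ioc 0 N, (M : ℝ) ^ #m.primeFactors / m) * ∑ m ∈ Ioc 0 N, (1 : ℝ) / m := by
          rw [sum_product, sum_mul_sum]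
      _ ≤ _ := by
          rw [pow_succ]
          gcongr

theorem sum_omega_totient_le (K : ℕ) : ∃ (C : ℝ) (j : ℕ), 0 < C ∧ ∀ x : ℝ, 3 ≤ x →
    ∑ m ∈ Icc 1 ⌊x⌋₊, (K : ℝ) ^ #m.primeFactors / m.totient ≤ C * Real.log x ^ j := by
  refine ⟨2 ^ (2 * K), 2 * K, by positivity, fun x hx => ?_⟩
  have hL : 1 ≤ Real.log x := by
    rw [Real.le_log_iff_exp_le (by linarith)]
    linarith [Real.exp_one_lt_d9]
  have h1 : ∑ m ∈ Ioc 0 ⌊x⌋₊, (1 : ℝ) / m ≤ 2 * Real.log x := by
    have h := harmonic_floor_le_one_add_log x (by linarith)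
    rw [harmonic_eq_sum_Icc] at h
    push_cast at h
    simp only [one_div]
    refine le_trans (le_of_eq ?_) (h.trans (by linarith))
    rfl
  calc _ ≤ ∑ m ∈ Ioc 0 ⌊x⌋₊, ((2 * K : ℕ) : ℝ) ^ #m.primeFactors / m :=
        sum_le_sum fun m hm => bv_div_totient_le K m (mem_Icc.1 hm).1
    _ ≤ _ := bv_sum_pow_omega_le _ _
    _ ≤ (2 * Real.log x) ^ (2 * K) := by gcongr
    _ = _ := mul_pow _ _ _

/-- smoothed twisted sum over the primes -/
noncomputable def bv_theta (x : ℝ) (f : ℕ → ℂ) : ℂ := ∑ n ∈ Icc 1 ⌊x⌋₊, (wt x n : ℂ) * f n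

theorem bv_theta_le {x : ℝ} (hx : 1 ≤ x) {f : ℕ → ℂ} (hf : ∀ n, ‖f n‖ ≤ 1) :
    ‖bv_theta x f‖ ≤ ‖psiW (fun u => (bump u : ℂ)) f x‖ + 2 * √x * Real.log x := by
  have h : ‖bv_theta x f - psiW (fun u => (bump u : ℂ)) f x‖ ≤ 2 * √x * Real.log x := by
    refine le_trans ?_ (Chebyshev.psi_sub_theta_le hx)
    rw [Chebyshev.psi_sub_theta_eq_sum_not_prime, sum_filter, bv_theta, psiW, ← sum_sub_distrib]
    refine (norm_sum_le _ _).trans (sum_le_sum fun n _ => ?_)
    unfold wt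
    by_cases hp : n.Prime
    · rw [if_pos hp, if_neg (not_not.2 hp), ArithmeticFunction.vonMangoldt_apply_prime hp]
      push_cast
      rw [mul_right_comm, sub_self, norm_zero]
    · rw [if_neg hp, if_pos hp, Complex.ofReal_zero, zero_mul, zero_sub, norm_neg, norm_mul,
        norm_mul, Complex.norm_real, Complex.norm_real,
        Real.norm_of_nonneg ArithmeticFunction.vonMangoldt_nonneg, Real.norm_of_nonneg bump.nonneg]
      have h0 : 0 ≤ ArithmeticFunction.vonMangoldt n := ArithmeticFunction.vonMangoldt_nonneg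
      calc _ ≤ ArithmeticFunction.vonMangoldt n * 1 * 1 := by
            gcongr
            · exact bump.nonneg
            · exact hf n
            · exact bump.le_one
        _ = _ := by ring
  linarith [norm_le_insert' (bv_theta x f) (psiW (fun u => (bump u : ℂ)) f x)]

theorem bv_theta_congr {x : ℝ} {f g : ℕ → ℂ} (h : ∀ n, wt x n ≠ 0 → f n = g n) :
    bv_theta x f = bv_theta x g := by
  refine sum_congr rfl fun n _ => ?_
  by_cases h0 : wt x n = 0
  · simp [h0]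
  · rw [h n h0]

open scoped Classical in
theorem bv_Err_le {x : ℝ} {N a : ℕ} [NeZero N] (ha : a.Coprime N)
    (h : ∀ n, wt x n ≠ 0 → n.Coprime N) :
    |Err x N a| ≤ (∑ χ ∈ (univ : Finset (DirichletCharacter ℂ N)).erase 1,
      ‖bv_theta x fun n => χ n‖) / N.totient := by
  have hφ : (0 : ℝ) < N.totient := by exact_mod_cast Nat.totient_pos.2 (NeZero.pos N)
  have hu : IsUnit (a : ZMod N) := (ZMod.isUnit_iff_coprime a N).2 ha
  have h1 : ∑ χ : DirichletCharacter ℂ N, χ (a : ZMod N)⁻¹ * bv_theta x (fun n => χ n) =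
      N.totient * ((∑ n ∈ (Icc 1 ⌊x⌋₊).filter (fun n => n ≡ a [MOD N]), wt x n : ℝ) : ℂ) := by
    simp only [bv_theta, mul_sum]
    rw [sum_comm, sum_filter]
    push_cast
    rw [mul_sum]
    refine sum_congr rfl fun n _ => ?_
    simp only [mul_left_comm _ (wt x n : ℂ)]
    rw [← mul_sum, DirichletCharacter.sum_char_inv_mul_char_eq ℂ hu]
    by_cases hn : n ≡ a [MOD N]
    · rw [if_pos hn, if_pos ((ZMod.natCast_eq_natCast_iff _ _ _).2 hn.symm), mul_comm]
    · rw [if_neg hn, if_neg fun h' => hn ((ZMod.natCast_eq_natCast_iff _ _ _).1 h').symm]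
      simp
  have h2 : (1 : DirichletCharacter ℂ N) (a : ZMod N)⁻¹ *
      bv_theta x (fun n => (1 : DirichletCharacter ℂ N) n) =
        ((∑ n ∈ Icc 1 ⌊x⌋₊, wt x n : ℝ) : ℂ) := by
    have hu' : IsUnit (a : ZMod N)⁻¹ :=
      IsUnit.of_mul_eq_one _ (ZMod.inv_mul_of_unit _ hu)
    rw [MulChar.one_apply hu', one_mul, bv_theta_congr (g := fun _ => 1) fun n hn =>
      MulChar.one_apply ((ZMod.isUnit_iff_coprime n N).2 (h n hn))]
    simp [bv_theta]
  have h3 : ((Err x N a * N.totient : ℝ) : ℂ) =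
      ∑ χ ∈ (univ : Finset (DirichletCharacter ℂ N)).erase 1,
        χ (a : ZMod N)⁻¹ * bv_theta x (fun n => χ n) := by
    rw [sum_erase_eq_sub (mem_univ _), h1, h2, Err, sub_mul, div_mul_cancel₀ _ hφ.ne']
    push_cast
    ring
  rw [le_div_iff₀ hφ, ← abs_of_pos hφ, ← abs_mul, ← Real.norm_eq_abs, ← Complex.norm_real, h3]
  refine (norm_sum_le _ _).trans (sum_le_sum fun χ _ => ?_)
  rw [norm_mul]
  exact mul_le_of_le_one_left (norm_nonneg _) (χ.norm_le_one _)

open scoped Classical in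
/-- the non-trivial primitive characters of conductor at most `R` -/
noncomputable def bv_X (R : ℕ) : Finset (Σ q : ℕ, DirichletCharacter ℂ q) :=
  (Icc 1 R).sigma fun _ => univ.filter fun χ => χ.IsPrimitive ∧ χ ≠ 1

theorem bv_mem_X {R : ℕ} {i : Σ q : ℕ, DirichletCharacter ℂ q} :
    i ∈ bv_X R ↔ (0 < i.1 ∧ i.1 ≤ R) ∧ i.2.IsPrimitive ∧ i.2 ≠ 1 := by
  simp [bv_X, Nat.succ_le_iff]

theorem bv_card_X (R : ℕ) : #(bv_X R) ≤ R ^ 2 := by
  rw [bv_X, card_sigma]
  refine (sum_le_card_nsmul _ _ R fun q hq => ?_).trans (by simp [sq])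
  obtain ⟨h1, h2⟩ := mem_Icc.1 hq
  have : NeZero q := ⟨by omega⟩
  refine (card_le_univ _).trans ?_
  rw [← Nat.card_eq_fintype_card, DirichletCharacter.card_eq_totient_of_hasEnoughRootsOfUnity]
  exact (Nat.totient_le q).trans h2

open scoped Classical in
theorem bv_sum_chars_le {x : ℝ} {N R : ℕ} [NeZero N] (hN : N ≤ R)
    (h : ∀ n, wt x n ≠ 0 → n.Coprime N) :
    ∑ χ ∈ (univ : Finset (DirichletCharacter ℂ N)).erase 1, ‖bv_theta x fun n => χ n‖ ≤
      ∑ i ∈ (bv_X R).filter (fun i => i.1 ∣ N), ‖bv_theta x fun n => i.2 n‖ := by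
  have key : ∀ (χ : DirichletCharacter ℂ N) (n : ℕ), n.Coprime N →
      χ.primitiveCharacter n = χ n := fun χ n hn => by
    simpa using χ.primitiveCharacter_apply_of_isCoprime (Nat.isCoprime_iff_coprime.2 hn)
  calc _ = ∑ i ∈ ((univ : Finset (DirichletCharacter ℂ N)).erase 1).image
        (fun χ => (⟨χ.conductor, χ.primitiveCharacter⟩ : Σ q : ℕ, DirichletCharacter ℂ q)),
          ‖bv_theta x fun n => i.2 n‖ := by
        rw [sum_image]
        · exact sum_congr rfl fun χ _ => by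
            rw [bv_theta_congr fun n hn => (key χ n (h n hn)).symm]
        · intro χ _ χ' _ e
          ext u
          have hu := ZMod.val_coe_unit_coprime u
          have e' := congrArg (fun i : Σ q : ℕ, DirichletCharacter ℂ q =>
            i.2 ((u : ZMod N).val : ZMod i.1)) e
          simp only [key _ _ hu] at e'
          simpa using e'
    _ ≤ _ := by
        refine sum_le_sum_of_subset_of_nonneg (fun i hi => ?_) fun _ _ _ => norm_nonneg _
        obtain ⟨χ, hχ, rfl⟩ := mem_image.1 hi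
        refine mem_filter.2 ⟨bv_mem_X.2 ⟨⟨Nat.pos_of_ne_zero χ.conductor_ne_zero,
          (Nat.le_of_dvd (NeZero.pos N) χ.conductor_dvd_level).trans hN⟩,
          χ.primitiveCharacter_isPrimitive, fun h1 => (mem_erase.1 hχ).1 ?_⟩,
          χ.conductor_dvd_level⟩
        rw [← χ.changeLevel_primitiveCharacter]
        change χ.primitiveCharacter = 1 at h1
        rw [h1, map_one]

theorem bv_pair_le {R : ℕ} {i i' : Σ q : ℕ, DirichletCharacter ℂ q} (hi : i ∈ bv_X R)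
    (hi' : i' ∈ bv_X R) (hne : i ≠ i') (N : ℕ) :
    ‖∑ n ∈ range N, i.2 n * (starRingEnd ℂ) (i'.2 n)‖ ≤ (R : ℝ) ^ 2 := by
  obtain ⟨q, χ⟩ := i
  obtain ⟨q', χ'⟩ := i'
  obtain ⟨⟨h1, h2⟩, h3, -⟩ := bv_mem_X.1 hi
  obtain ⟨⟨h1', h2'⟩, h3', -⟩ := bv_mem_X.1 hi'
  dsimp only at h1 h2 h3 h1' h2' h3' ⊢
  have : NeZero (q * q') := ⟨by positivity⟩
  set ψ := DirichletCharacter.changeLevel (dvd_mul_right q q') χ *
    DirichletCharacter.changeLevel (dvd_mul_left q' q) χ'⁻¹ with hψ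
  have hψ1 : ψ ≠ 1 := by
    intro h
    rw [hψ, map_inv, mul_inv_eq_one] at h
    have e := congrArg DirichletCharacter.conductor h
    rw [DirichletCharacter.conductor_changeLevel, DirichletCharacter.conductor_changeLevel,
      h3, h3'] at e
    subst e
    exact hne (congrArg _ (DirichletCharacter.changeLevel_injective _ h))
  have hval : ∀ n : ℕ, χ n * (starRingEnd ℂ) (χ' n) = ψ n := by
    intro n
    have e : (starRingEnd ℂ) (χ' n) = χ'⁻¹ n := MulChar.star_apply' χ' n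
    rw [e]
    by_cases hn : IsCoprime (n : ℤ) ((q * q' : ℕ) : ℤ)
    · have e1 := χ.changeLevel_eq_cast_of_dvd' (dvd_mul_right q q') hn
      have e2 := χ'⁻¹.changeLevel_eq_cast_of_dvd' (dvd_mul_left q' q) hn
      rw [Int.cast_natCast, Int.cast_natCast] at e1 e2
      rw [hψ, MulChar.mul_apply, e1, e2]
    · have e0 := (ψ.apply_eq_zero_iff n).2 hn
      have e1 := χ.apply_eq_zero_iff n
      have e2 := χ'⁻¹.apply_eq_zero_iff n
      rw [Int.cast_natCast] at e0 e1 e2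
      rw [e0, mul_eq_zero, e1, e2, ← not_and_or, ← IsCoprime.mul_right_iff]
      exact_mod_cast hn
  simp only [hval]
  refine (partial_sum_le ψ hψ1 N).trans ?_
  rw [sq]
  exact_mod_cast Nat.mul_le_mul h2 h2'

theorem bv_weight_le (K : ℕ) {q R : ℕ} (hq : 0 < q) (D : Finset ℕ)
    (hD : ∀ N ∈ D, 0 < N ∧ N ≤ R) :
    ∑ N ∈ D.filter (q ∣ ·), ((K + 1 : ℕ) : ℝ) ^ #N.primeFactors / N.totient ≤
      ((K + 1 : ℕ) : ℝ) ^ #q.primeFactors / q.totient *
        ∑ m ∈ Icc 1 R, ((K + 1 : ℕ) : ℝ) ^ #m.primeFactors / m.totient := by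
  calc _ ≤ ∑ N ∈ (Icc 1 R).image (q * ·), ((K + 1 : ℕ) : ℝ) ^ #N.primeFactors / N.totient := by
        refine sum_le_sum_of_subset_of_nonneg (fun N hN => ?_) fun _ _ _ => by positivity
        obtain ⟨h1, m, rfl⟩ := mem_filter.1 hN
        obtain ⟨h2, h3⟩ := hD _ h1
        exact mem_image.2 ⟨m, mem_Icc.2 ⟨Nat.pos_of_mul_pos_left h2,
          (Nat.le_mul_of_pos_left m hq).trans h3⟩, rfl⟩
    _ = ∑ m ∈ Icc 1 R, ((K + 1 : ℕ) : ℝ) ^ #(q * m).primeFactors / (q * m).totient :=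
        sum_image fun m _ m' _ h => Nat.eq_of_mul_eq_mul_left hq h
    _ ≤ _ := by
        rw [mul_sum]
        refine sum_le_sum fun m hm => ?_
        have hm0 : 0 < m := (mem_Icc.1 hm).1
        have h1 : (0 : ℝ) < q.totient := by exact_mod_cast Nat.totient_pos.2 hq
        have h2 : (0 : ℝ) < m.totient := by exact_mod_cast Nat.totient_pos.2 hm0
        rw [div_mul_div_comm, ← pow_add, Nat.primeFactors_mul hq.ne' hm0.ne']
        gcongr
        · exact_mod_cast Nat.le_add_left 1 K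
        · exact card_union_le _ _
        · exact_mod_cast Nat.totient_super_multiplicative q m

theorem bv_reduce (K : ℕ) {C : ℝ}
    (hC : ∀ q : ℕ, 0 < q → ((K + 1 : ℕ) : ℝ) ^ #q.primeFactors / q.totient ≤ C / √q)
    {x : ℝ} {R : ℕ} (D : Finset ℕ) (a : ℕ → ℕ) (hD : ∀ N ∈ D, 0 < N ∧ N ≤ R)
    (ha : ∀ N ∈ D, (a N).Coprime N) (h : ∀ N ∈ D, ∀ n, wt x n ≠ 0 → n.Coprime N) :
    ∑ N ∈ D, (K : ℝ) ^ #N.primeFactors * |Err x N (a N)| ≤
      C * (∑ m ∈ Icc 1 R, ((K + 1 : ℕ) : ℝ) ^ #m.primeFactors / m.totient) *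
        ∑ i ∈ bv_X R, ‖bv_theta x fun n => i.2 n‖ / √i.1 := by
  calc _ ≤ ∑ N ∈ D, ∑ i ∈ bv_X R, if i.1 ∣ N then ‖bv_theta x fun n => i.2 n‖ *
            (((K + 1 : ℕ) : ℝ) ^ #N.primeFactors / N.totient) else 0 := by
        refine sum_le_sum fun N hN => ?_
        have : NeZero N := ⟨(hD N hN).1.ne'⟩
        have h1 := (bv_Err_le (ha N hN) (h N hN)).trans
          (div_le_div_of_nonneg_right (bv_sum_chars_le (hD N hN).2 (h N hN)) (Nat.cast_nonneg _))
        rw [← sum_filter, ← sum_mul, mul_div_assoc', mul_comm _ (_ ^ _), mul_div_assoc]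
        gcongr
        exact_mod_cast Nat.le_succ K
    _ = ∑ i ∈ bv_X R, ‖bv_theta x fun n => i.2 n‖ *
          ∑ N ∈ D.filter (i.1 ∣ ·), ((K + 1 : ℕ) : ℝ) ^ #N.primeFactors / N.totient := by
        rw [sum_comm]
        exact sum_congr rfl fun i _ => by rw [← sum_filter, mul_sum]
    _ ≤ _ := by
        rw [mul_sum]
        refine sum_le_sum fun i hi => ?_
        have h0 := (bv_mem_X.1 hi).1.1
        calc _ ≤ ‖bv_theta x fun n => i.2 n‖ * (C / √i.1 *
              ∑ m ∈ Icc 1 R, ((K + 1 : ℕ) : ℝ) ^ #m.primeFactors / m.totient) := by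
              refine mul_le_mul_of_nonneg_left ((bv_weight_le K h0 D hD).trans
                (mul_le_mul_of_nonneg_right (hC _ h0) ?_)) (norm_nonneg _)
              exact sum_nonneg fun _ _ => by positivity
          _ = _ := by ring

theorem bv_eventually (n : ℕ) : ∀ᶠ x : ℝ in atTop,
    3 ≤ x ∧ 2 ≤ x ^ (1 / 20 : ℝ) ∧ Real.log x ^ n ≤ x ^ (1 / 20 : ℝ) := by
  refine (eventually_ge_atTop 3).and (((tendsto_rpow_atTop (by norm_num)).eventually_ge_atTop
    2).and ?_)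
  filter_upwards [(isLittleO_log_rpow_rpow_atTop (n : ℝ) (s := 1 / 20) (by norm_num)).bound one_pos,
    eventually_ge_atTop 0] with x h hx
  rw [one_mul, Real.rpow_natCast, Real.norm_of_nonneg (Real.rpow_nonneg hx _)] at h
  exact (le_abs_self _).trans h

theorem bv_family (A : ℕ) : ∃ C : ℝ, 0 < C ∧ ∀ᶠ x : ℝ in atTop,
    ∑ i ∈ bv_X ⌊x ^ (1 / 20 : ℝ)⌋₊, ‖bv_theta x fun n => i.2 n‖ / √i.1 ≤
      C * x / Real.log x ^ A := by
  obtain ⟨C₁, hC₁, h₁⟩ := siegel_walfisz test_bump (4 * (A + 3) + A) (2 * (A + 3))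
  obtain ⟨C₂, hC₂, h₂⟩ := family_bound test_bump
  refine ⟨C₁ + C₂ + 2, by positivity, ?_⟩
  filter_upwards [bv_eventually (A + 1)] with x ⟨hx, hQ, hLQ⟩
  have hL : 1 ≤ Real.log x := by
    rw [Real.le_log_iff_exp_le (by linarith)]
    linarith [Real.exp_one_lt_d9]
  have hxQ : (x ^ (1 / 20 : ℝ)) ^ 20 = x := by
    rw [← Real.rpow_natCast, ← Real.rpow_mul (by linarith)]
    norm_num
  have hR : (⌊x ^ (1 / 20 : ℝ)⌋₊ : ℝ) ≤ x ^ (1 / 20 : ℝ) := Nat.floor_le (by linarith)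
  have h₁ := h₁ x hx
  have h₂ := @h₂ x hx
  have hθ := fun f hf => bv_theta_le (x := x) (by linarith) (f := f) hf
  generalize ⌊x ^ (1 / 20 : ℝ)⌋₊ = R at *
  generalize x ^ (1 / 20 : ℝ) = Q at *
  generalize Real.log x = L at *
  have hsq : √x = Q ^ 10 := by
    rw [← hxQ, show Q ^ 20 = (Q ^ 10) ^ 2 by ring, Real.sqrt_sq (by positivity)]
  have hcard : (#(bv_X R) : ℝ) ≤ Q ^ 2 := by
    calc (#(bv_X R) : ℝ) ≤ (R : ℝ) ^ 2 := by exact_mod_cast bv_card_X R
      _ ≤ _ := by gcongr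
  set P : (Σ q : ℕ, DirichletCharacter ℂ q) → ℝ :=
    fun i => ‖psiW (fun u => (bump u : ℂ)) (fun n => i.2 n) x‖ with hP
  have hfam : ∑ i ∈ bv_X R, P i ≤ C₂ * x * L ^ 3 := by
    refine h₂ (bv_X R) (fun i n => i.2 n) (Q ^ 2) (fun i m n => by simp)
      (fun i n => i.2.norm_le_one _) (fun i hi N => ?_)
      (fun i hi i' hi' hne N => (bv_pair_le hi hi' hne N).trans (by gcongr)) hcard
      (by rw [← hxQ]; exact le_of_eq (by ring))
    obtain ⟨⟨h1, h2⟩, -, h3⟩ := bv_mem_X.1 hi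
    have : NeZero i.1 := ⟨h1.ne'⟩
    have h4 : (i.1 : ℝ) ≤ R := by exact_mod_cast h2
    nlinarith [partial_sum_le i.2 h3 N]
  have hsmall : ∑ i ∈ (bv_X R).filter (fun i => (i.1 : ℝ) ≤ L ^ (2 * (A + 3))), P i ≤
      C₁ * x / L ^ A := by
    have hc : (#((bv_X R).filter fun i => (i.1 : ℝ) ≤ L ^ (2 * (A + 3))) : ℝ) ≤
        L ^ (4 * (A + 3)) := by
      calc _ ≤ (#(bv_X ⌊L ^ (2 * (A + 3))⌋₊) : ℝ) := by
            refine Nat.cast_le.2 (card_le_card fun i hi => ?_)
            obtain ⟨h1, h2⟩ := mem_filter.1 hi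
            obtain ⟨h3, h4⟩ := bv_mem_X.1 h1
            exact bv_mem_X.2 ⟨⟨h3.1, Nat.le_floor h2⟩, h4⟩
        _ ≤ (⌊L ^ (2 * (A + 3))⌋₊ : ℝ) ^ 2 := by exact_mod_cast bv_card_X _
        _ ≤ (L ^ (2 * (A + 3))) ^ 2 := by
            gcongr
            exact Nat.floor_le (by positivity)
        _ = _ := by ring
    calc _ ≤ #((bv_X R).filter fun i => (i.1 : ℝ) ≤ L ^ (2 * (A + 3))) •
          (C₁ * x / L ^ (4 * (A + 3) + A)) := by
          refine sum_le_card_nsmul _ _ _ fun i hi => ?_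
          obtain ⟨h1, h2⟩ := mem_filter.1 hi
          obtain ⟨h3, h4, h5⟩ := bv_mem_X.1 h1
          have : NeZero i.1 := ⟨h3.1.ne'⟩
          exact h₁ i.1 i.2 h4 h5 h2
      _ ≤ L ^ (4 * (A + 3)) * (C₁ * x / L ^ (4 * (A + 3) + A)) := by
          rw [nsmul_eq_mul]
          gcongr
      _ = _ := by
          rw [pow_add]
          field_simp
  have herr : Q ^ 2 * (2 * Q ^ 10 * L) ≤ 2 * x / L ^ A := by
    rw [le_div_iff₀ (by positivity), ← hxQ]
    calc _ = 2 * Q ^ 12 * L ^ (A + 1) := by ring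
      _ ≤ 2 * Q ^ 12 * Q ^ 8 := by
          gcongr
          exact hLQ.trans (le_self_pow₀ (by linarith) (by norm_num))
      _ = _ := by ring
  calc _ ≤ ∑ i ∈ bv_X R, ((if (i.1 : ℝ) ≤ L ^ (2 * (A + 3)) then P i else 0) +
          P i / L ^ (A + 3) + 2 * Q ^ 10 * L) := by
        refine sum_le_sum fun i hi => ?_
        have h0 : (1 : ℝ) ≤ i.1 := by exact_mod_cast (bv_mem_X.1 hi).1.1
        have h1 : 1 ≤ √(i.1 : ℝ) := Real.one_le_sqrt.2 h0
        have h2 : 0 ≤ P i := norm_nonneg _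
        have h3 := hθ (fun n => i.2 n) fun n => i.2.norm_le_one _
        rw [hsq] at h3
        calc _ ≤ (P i + 2 * Q ^ 10 * L) / √i.1 := by gcongr
          _ = P i / √i.1 + 2 * Q ^ 10 * L / √i.1 := add_div _ _ _
          _ ≤ _ := by
            refine add_le_add ?_ (div_le_self (by positivity) h1)
            split_ifs with h
            · exact (div_le_self h2 h1).trans (le_add_of_nonneg_right (by positivity))
            · rw [zero_add]
              gcongr
              refine Real.le_sqrt_of_sq_le ?_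
              rw [← pow_mul, mul_comm]
              exact (not_le.1 h).le
    _ ≤ C₁ * x / L ^ A + C₂ * x * L ^ 3 / L ^ (A + 3) + Q ^ 2 * (2 * Q ^ 10 * L) := by
        rw [sum_add_distrib, sum_add_distrib, ← sum_filter, ← sum_div, sum_const, nsmul_eq_mul]
        gcongr
    _ ≤ C₁ * x / L ^ A + C₂ * x / L ^ A + 2 * x / L ^ A := by
        refine add_le_add (add_le_add le_rfl (le_of_eq ?_)) herr
        rw [pow_add]
        field_simp
    _ = _ := by ring

theorem bombieri_vinogradov (K A : ℕ) : ∃ C : ℝ, ∀ᶠ x : ℝ in atTop,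
    ∀ (D : Finset ℕ) (a : ℕ → ℕ),
      (∀ N ∈ D, 0 < N ∧ (N : ℝ) ≤ x ^ (1 / 20 : ℝ) ∧ (a N).Coprime N) →
        ∑ N ∈ D, (K : ℝ) ^ #N.primeFactors * |Err x N (a N)| ≤ C * x / Real.log x ^ A := by
  obtain ⟨C₁, hC₁, h₁⟩ := omega_totient_le (K + 1)
  obtain ⟨C₂, j, hC₂, h₂⟩ := sum_omega_totient_le (K + 1)
  obtain ⟨C₃, hC₃, h₃⟩ := bv_family (A + j)
  refine ⟨C₁ * C₂ * C₃, ?_⟩
  filter_upwards [bv_eventually 0, h₃] with x ⟨hx, hQ, _⟩ h₃ D a hD
  have hL : 0 < Real.log x := Real.log_pos (by linarith)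
  have hxQ : (x ^ (1 / 20 : ℝ)) ^ 20 = x := by
    rw [← Real.rpow_natCast, ← Real.rpow_mul (by linarith)]
    norm_num
  have he : Real.exp 4 ≤ 2 ^ 19 := by
    calc Real.exp 4 = Real.exp 1 ^ 4 := by rw [← Real.exp_nat_mul]; norm_num
      _ ≤ 3 ^ 4 := by
          gcongr
          linarith [Real.exp_one_lt_d9]
      _ ≤ _ := by norm_num
  have hQx : x ^ (1 / 20 : ℝ) ≤ x / Real.exp 4 := by
    rw [le_div_iff₀ (Real.exp_pos _)]
    calc _ ≤ x ^ (1 / 20 : ℝ) * (x ^ (1 / 20 : ℝ)) ^ 19 := by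
          gcongr
          exact he.trans (by gcongr)
      _ = x := by rw [← pow_succ', hxQ]
  have hQx' : x ^ (1 / 20 : ℝ) ≤ x :=
    hQx.trans (div_le_self (by linarith) (Real.one_le_exp (by norm_num)))
  refine (bv_reduce K h₁ (R := ⌊x ^ (1 / 20 : ℝ)⌋₊) D a
    (fun N hN => ⟨(hD N hN).1, Nat.le_floor (hD N hN).2.1⟩) (fun N hN => (hD N hN).2.2)
    fun N hN n hn => ?_).trans ?_
  · obtain ⟨h1, -, h2⟩ := mem_PI.1 (mem_PI_of_wt (by linarith) hn)
    refine (Nat.Prime.coprime_iff_not_dvd h2).2 (Nat.not_dvd_of_pos_of_lt (hD N hN).1 ?_)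
    exact_mod_cast ((hD N hN).2.1.trans hQx).trans_lt h1
  · calc _ ≤ C₁ * (C₂ * Real.log x ^ j) * (C₃ * x / Real.log x ^ (A + j)) := by
          gcongr
          refine le_trans (sum_le_sum_of_subset_of_nonneg
            (Icc_subset_Icc_right (Nat.floor_le_floor hQx')) fun _ _ _ => by positivity) (h₂ x hx)
      _ = _ := by
          rw [pow_add]
          field_simp

end Pool.Agent.MP_48b1c3_nt.H54
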