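import Mathlib

/-! Definitions for the lower bound `x log log x / (log x) ^ 2` in the Artin-Lenstra problem. -/

namespace Pool.Agent.MP_48b1c3_nt.H54

open Finset
open scoped ContDiff

/-- smooth functions supported in `[-4, 0]` -/
def Test (v : ℝ → ℂ) : Prop := ContDiff ℝ ∞ v ∧ ∀ u, u ∉ Set.Icc (-4 : ℝ) 0 → v u = 0

/-- smoothed twisted Chebyshev function -/
noncomputable def psiW (v : ℝ → ℂ) (f : ℕ → ℂ) (x : ℝ) : ℂ :=
  ∑ n ∈ Icc 1 ⌊x⌋₊, (ArithmeticFunction.vonMangoldt n : ℂ) * f n * v (Real.log (n / x))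

/-- a bump function, `1` on `[-3, -1]` and `0` outside `(-4, 0)` -/
noncomputable def bump : ContDiffBump (-2 : ℝ) := ⟨1, 2, one_pos, one_lt_two⟩

/-- weight on the primes in `(x / e ^ 4, x)` -/
noncomputable def wt (x : ℝ) (n : ℕ) : ℝ :=
  if n.Prime then Real.log n * bump (Real.log (n / x)) else 0

/-- error term for primes in an arithmetic progression -/
noncomputable def Err (x : ℝ) (N a : ℕ) : ℝ :=
  ∑ n ∈ (Icc 1 ⌊x⌋₊).filter (fun n => n ≡ a [MOD N]), wt x n -
    (∑ n ∈ Icc 1 ⌊x⌋₊, wt x n) / N.totient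

/-- the primes in `(a, b]` -/
noncomputable def PI (a b : ℝ) : Finset ℕ := (Ioc ⌊a⌋₊ ⌊b⌋₊).filter Nat.Prime

theorem mem_PI {a b : ℝ} {p : ℕ} : p ∈ PI a b ↔ a < p ∧ (p : ℝ) ≤ b ∧ p.Prime := by
  simp only [PI, mem_filter, mem_Ioc]
  constructor
  · rintro ⟨⟨h1, h2⟩, h3⟩
    exact ⟨(Nat.floor_lt' h3.ne_zero).1 h1, (Nat.le_floor_iff' h3.ne_zero).1 h2, h3⟩
  · rintro ⟨h1, h2, h3⟩
    exact ⟨⟨(Nat.floor_lt' h3.ne_zero).2 h1, (Nat.le_floor_iff' h3.ne_zero).2 h2⟩, h3⟩

theorem wt_nonneg (x : ℝ) (n : ℕ) : 0 ≤ wt x n := by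
  unfold wt
  split_ifs
  · exact mul_nonneg (Real.log_natCast_nonneg n) bump.nonneg
  · exact le_rfl

theorem wt_le (x : ℝ) (n : ℕ) : wt x n ≤ Real.log n := by
  unfold wt
  split_ifs
  · exact mul_le_of_le_one_right (Real.log_natCast_nonneg n) bump.le_one
  · exact Real.log_natCast_nonneg n

theorem bump_eq_zero {u : ℝ} (hu : u ≤ -4 ∨ 0 ≤ u) : bump u = 0 := by
  refine bump.zero_of_le_dist ?_
  change (2 : ℝ) ≤ _
  rw [Real.dist_eq, le_abs]
  rcases hu with h | h
  · right; linarith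
  · left; linarith

theorem bump_eq_one {u : ℝ} (h1 : -3 ≤ u) (h2 : u ≤ -1) : bump u = 1 := by
  refine bump.one_of_mem_closedBall ?_
  change dist u _ ≤ (1 : ℝ)
  rw [Real.dist_eq, abs_le]
  constructor <;> linarith

theorem test_bump : Test fun u => (bump u : ℂ) := by
  refine ⟨Complex.ofRealCLM.contDiff.comp bump.contDiff, fun u hu => ?_⟩
  rw [Set.mem_Icc, not_and_or, not_le, not_le] at hu
  exact Complex.ofReal_eq_zero.2 (bump_eq_zero (hu.imp le_of_lt le_of_lt))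

theorem mem_PI_of_wt {x : ℝ} (hx : 0 < x) {n : ℕ} (h : wt x n ≠ 0) :
    n ∈ PI (x / Real.exp 4) x := by
  unfold wt at h
  split_ifs at h with hp
  · have h0 : (0 : ℝ) < n := by exact_mod_cast hp.pos
    have h1 : ¬ (Real.log (n / x) ≤ -4 ∨ 0 ≤ Real.log (n / x)) := fun h' =>
      h (by rw [bump_eq_zero h', mul_zero])
    rw [not_or, not_le, not_le, Real.lt_log_iff_exp_lt (by positivity),
      Real.log_neg_iff (by positivity), div_lt_one hx, lt_div_iff₀ hx, Real.exp_neg] at h1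
    exact mem_PI.2 ⟨by rw [div_eq_inv_mul]; exact h1.1, h1.2.le, hp⟩
  · exact absurd rfl h

/-- the fractions `u i / w i` have diagonal valuations at the primes `q j` -/
def Diag {r : ℕ} (u w q : Fin r → ℕ) : Prop :=
  (∀ i, 0 < u i ∧ 0 < w i ∧ (q i).Prime ∧ (u i).factorization (q i) ≠ (w i).factorization (q i)) ∧
    ∀ i j, i ≠ j → (u i).factorization (q j) = (w i).factorization (q j)

section Lattice

variable {O : Type*} [CommRing O] {n : ℕ} (b : Module.Basis (Fin n) ℤ O)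

/-- all coordinates are at most `δ` in absolute value -/
def Box (δ : ℕ) (v : O) : Prop := ∀ i, |b.repr v i| ≤ δ

/-- the points with coordinates in `[0, T)` -/
noncomputable def cube (T : ℕ) : Finset O :=
  (Fintype.piFinset fun _ => Ico (0 : ℤ) T).map b.equivFun.symm.toEquiv.toEmbedding

theorem mem_cube {T : ℕ} {v : O} : v ∈ cube b T ↔ ∀ i, 0 ≤ b.repr v i ∧ b.repr v i < T := by
  simp [cube, mem_map_equiv, Fintype.mem_piFinset]

/-- the structure constants are at most one -/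
def Small : Prop := ∀ i j k, |b.repr (b i * b j) k| ≤ 1

/-- proportion of the residue classes modulo `I` that meet `E` -/
noncomputable def dn (I : Ideal O) (E : O → Prop) : ℝ :=
  Nat.card {y : O ⧸ I // ∃ a, Ideal.Quotient.mk I a = y ∧ E a} / Nat.card (O ⧸ I)

/-- `E` is periodic modulo `I` -/
def Per (I : Ideal O) (E : O → Prop) : Prop := ∀ a a', a - a' ∈ I → E a → E a'

/-- `a` survives the sieve at `q` -/
def Sv (q : ℕ) (c : ℤ) (F : Prop) (a : O) : Prop :=
  IsCoprime a (q : O) ∧ (F → ¬ (q : ℤ) ∣ Algebra.norm ℤ a - c)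

/-- `s` is a non-trivial character of order `l` of the units modulo `q`, written additively -/
def IsSym {l : ℕ} (q : ℕ) (s : O → ZMod l) : Prop :=
  (∀ a a', IsCoprime a (q : O) → IsCoprime a' (q : O) → s (a * a') = s a + s a') ∧
    (∀ a a', (q : O) ∣ a - a' → s a = s a') ∧ ∃ g, IsCoprime g (q : O) ∧ s g ≠ 0

end Lattice

end Pool.Agent.MP_48b1c3_nt.H54
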