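import Pool.Agent.MP_48b1c3_nt.H54.Defs

/-! Finitely generated subgroups of the rationals: diagonal generators and Matthews' lemma. -/

/-
HINTS.  exists_diag: first prove, by induction on r for all finitely generated W, the version with padicValRat: a i ∈ W, (q i).Prime, padicValRat (q i) (a i) ≠ 0, padicValRat (q j) (a i) = 0 for i ≠ j.
Step: finrank ≥ 1 so W has an element a₀ other than ± 1 (if W ⊆ {1, -1} it is finite / torsion and finrank = 0: Module.finrank_eq_zero_iff_isTorsion or finrank_eq_zero_iff), a₀ has a prime q₀ with v a₀ ≠ 0 (else num.natAbs = den = 1).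
W' = W ⊓ ker v is finitely generated (ℤ Noetherian; Subgroup.FG of a subgroup of a f.g. commutative group, or work with Submodule ℤ (Additive ℚˣ) throughout) and finrank W ≤ finrank W' + 1
(rank-nullity for the ℤ-linear map v : LinearMap.finrank_range_add_finrank_ker needs a field; use LinearMap.rank_range_add_rank_ker / Submodule.finrank_quotient_add_finrank over the domain ℤ).
Replace a₀ by a₀^N ∏ a' i ^ (-(N / d i) * v_(q' i) a₀), d i = v_(q' i) (a' i), N = ∏ d i; use Fin.cons.  Finally padicValRat q a = padicValNat q a.num.natAbs - padicValNat q a.den and Nat.factorization_def.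
exists_unit_bound: Subgroup.closure_induction; p₀ = a bound for the numerators and denominators of the generators.
matthews: N = ⌊Y^(1/r)⌋₊, (N+1)^r > Y.  For p ∈ S the units x i = u i / w i of ZMod p satisfy x i ^ m = 1; there are at most m ≤ Y elements with x^m = 1 (card_nthRoots / IsCyclic.card_pow_eq_one_le), so two distinct
e, e' : Fin r → range (N+1) have ∏ x i ^ e i = ∏ x i ^ e' i.  With d = e - e' ∈ [-N, N]^r \ {0}: p ∣ Z d := ∏ u^(d⁺) w^(d⁻) - ∏ u^(d⁻) w^(d⁺) (d⁺ = toNat d, d⁻ = toNat (-d)), Z d ≠ 0 (compare factorization at q j for a j with d j ≠ 0),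
|Z d| ≤ A^N with A = ∏ u i * w i, and an integer Z ≠ 0 has at most log₂ |Z| ≤ N * A prime factors (2^#primeFactors ≤ ∏ primeFactors ≤ |Z|).  So #S ≤ (2N+1)^r * N * A ≤ 3^r A N^(r+1).
-/

namespace Pool.Agent.MP_48b1c3_nt.H54

open Finset

theorem group_diag {M ι : Type*} [AddCommGroup M] (v : ι → M →ₗ[ℤ] ℤ)
    (hv : ∀ x : M, (∀ q, v q x = 0) → (2 : ℤ) • x = 0) (r : ℕ) :
    ∀ N : Submodule ℤ M, N.FG → r ≤ Module.finrank ℤ N → ∃ (a : Fin r → M) (q : Fin r → ι),
      (∀ i, a i ∈ N ∧ v (q i) (a i) ≠ 0) ∧ ∀ i j, i ≠ j → v (q j) (a i) = 0 := by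
  induction r with
  | zero => exact fun N _ _ => ⟨Fin.elim0, Fin.elim0, fun i => i.elim0, fun i => i.elim0⟩
  | succ r ih =>
    intro N hN hr
    have : Module.Finite ℤ N := Module.Finite.iff_fg.mpr hN
    obtain ⟨a₀, ha₀, q₀, h₀⟩ : ∃ a₀ ∈ N, ∃ q₀, v q₀ a₀ ≠ 0 := by
      by_contra hc
      push Not at hc
      have : Module.finrank ℤ N = 0 := Module.finrank_eq_zero_iff.mpr fun x =>
        ⟨2, two_ne_zero, Subtype.ext (hv x (hc x x.2))⟩
      omega
    have h1 := (LinearMap.ker ((v q₀).domRestrict N)).finrank_quotient_add_finrank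
    rw [LinearEquiv.finrank_eq ((v q₀).domRestrict N).quotKerEquivRange] at h1
    have h2 := (LinearMap.range ((v q₀).domRestrict N)).finrank_le
    rw [Module.finrank_self] at h2
    have h3 := Submodule.finrank_map_subtype_eq N (LinearMap.ker ((v q₀).domRestrict N))
    obtain ⟨a, q, h4, h5⟩ := ih ((LinearMap.ker ((v q₀).domRestrict N)).map N.subtype)
      (hN.of_le (Submodule.map_subtype_le _ _)) (by omega)
    have h6 : ∀ i, a i ∈ N ∧ v q₀ (a i) = 0 := by
      intro i
      obtain ⟨x, hx, e⟩ := Submodule.mem_map.mp (h4 i).1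
      rw [← e]
      exact ⟨x.2, hx⟩
    choose c hc using fun i : Fin r =>
      Finset.dvd_prod_of_mem (fun i => v (q i) (a i)) (Finset.mem_univ i)
    have hD : ∏ i, v (q i) (a i) ≠ 0 := Finset.prod_ne_zero_iff.mpr fun i _ => (h4 i).2
    refine ⟨Fin.cons ((∏ i, v (q i) (a i)) • a₀ - ∑ i, (c i * v (q i) a₀) • a i) a,
      Fin.cons q₀ q, fun i => ?_, fun i j hij => ?_⟩
    · refine Fin.cases ?_ (fun i => ?_) i
      · simp only [Fin.cons_zero]
        refine ⟨N.sub_mem (N.smul_mem _ ha₀) (N.sum_mem fun i _ => N.smul_mem _ (h6 i).1), ?_⟩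
        simp only [map_sub, map_sum, map_smul, (h6 _).2, smul_eq_mul, mul_zero, sum_const_zero,
          sub_zero]
        exact mul_ne_zero hD h₀
      · simp only [Fin.cons_succ]
        exact ⟨(h6 i).1, (h4 i).2⟩
    · induction i using Fin.cases with
      | zero =>
        induction j using Fin.cases with
        | zero => exact absurd rfl hij
        | succ j =>
          simp only [Fin.cons_zero, Fin.cons_succ, map_sub, map_sum, map_smul, smul_eq_mul]
          rw [Finset.sum_eq_single j (fun i _ hi => by rw [h5 i j hi, mul_zero]) (by simp), hc j]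
          ring
      | succ i =>
        induction j using Fin.cases with
        | zero => simpa using (h6 i).2
        | succ j => simpa using h5 i j fun h => hij (by rw [h])

theorem group_val (p : ℕ) (hp : p.Prime) (x : ℚ) :
    padicValRat p x = (x.num.natAbs.factorization p : ℤ) - x.den.factorization p := by
  rw [Nat.factorization_def _ hp, Nat.factorization_def _ hp, padicValRat, padicValInt]

theorem group_eq_one {n : ℕ} (h : ∀ p : ℕ, p.Prime → ¬ p ∣ n) : n = 1 := by
  by_contra hc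
  exact h _ (Nat.minFac_prime hc) (Nat.minFac_dvd n)

theorem group_torsion {x : ℚ} (hx : x ≠ 0) (h : ∀ p : ℕ, p.Prime → padicValRat p x = 0) :
    x ^ 2 = 1 := by
  have h0 : x.num.natAbs ≠ 0 := by simpa using hx
  have key : ∀ p : ℕ, p.Prime → ¬ p ∣ x.num.natAbs ∧ ¬ p ∣ x.den := by
    intro p hp
    have h1 := h p hp
    rw [group_val p hp, sub_eq_zero, Nat.cast_inj] at h1
    have h2 : p ∣ x.num.natAbs ↔ p ∣ x.den := by
      rw [hp.dvd_iff_one_le_factorization h0, hp.dvd_iff_one_le_factorization x.den_nz, h1]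
    have h3 : ¬ p ∣ x.den := fun hd =>
      hp.one_lt.ne' (Nat.eq_one_of_dvd_coprimes x.reduced (h2.mpr hd) hd)
    exact ⟨fun hd => h3 (h2.mp hd), h3⟩
  have h1 := group_eq_one fun p hp => (key p hp).1
  have h2 := group_eq_one fun p hp => (key p hp).2
  rw [← Rat.num_div_den x, h2]
  rcases Int.natAbs_eq_iff.mp h1 with h3 | h3 <;> rw [h3] <;> norm_num

/-- the valuation at a prime as a linear map -/
noncomputable def groupV (W : Subgroup ℚˣ) (p : Nat.Primes) : Additive W →ₗ[ℤ] ℤ :=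
  AddMonoidHom.toIntLinearMap (AddMonoidHom.mk'
    (fun x => padicValRat p ((x.toMul : W) : ℚˣ)) (fun x y => by
      have : Fact (p : ℕ).Prime := ⟨p.2⟩
      simp only [toMul_add, Subgroup.coe_mul, Units.val_mul]
      exact padicValRat.mul (Units.ne_zero _) (Units.ne_zero _)))

theorem group_V_apply (W : Subgroup ℚˣ) (p : Nat.Primes) (x : Additive W) :
    groupV W p x = padicValRat p ((x.toMul : W) : ℚˣ) := rfl

theorem exists_diag (W : Subgroup ℚˣ) (hW : W.FG) {r : ℕ}
    (hr : r ≤ Module.finrank ℤ (Additive W)) : ∃ (a : Fin r → ℚˣ) (q : Fin r → ℕ),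
      (∀ i, a i ∈ W) ∧ Diag (fun i => (a i : ℚ).num.natAbs) (fun i => (a i : ℚ).den) q := by
  have : Group.FG W := (Group.fg_iff_subgroup_fg W).mpr hW
  have : Module.Finite ℤ (Additive W) := Module.Finite.iff_addGroup_fg.mpr inferInstance
  obtain ⟨a, q, h1, h2⟩ := group_diag (groupV W) (fun x hx => by
    have h := group_torsion (Units.ne_zero ((x.toMul : W) : ℚˣ)) fun p hp => hx ⟨p, hp⟩
    apply Additive.toMul.injective
    apply Subtype.ext
    apply Units.ext
    simpa using h) r ⊤ Module.Finite.fg_top (by rwa [finrank_top])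
  refine ⟨fun i => ((a i).toMul : W), fun i => q i, fun i => ((a i).toMul).2, fun i => ?_,
    fun i j hij => ?_⟩
  · refine ⟨Nat.pos_of_ne_zero (by simp), Rat.den_pos _, (q i).2, fun h => (h1 i).2 ?_⟩
    rw [group_V_apply, group_val _ (q i).2, h, sub_self]
  · have h := h2 i j hij
    rwa [group_V_apply, group_val _ (q j).2, sub_eq_zero, Nat.cast_inj] at h

theorem exists_unit_bound (W : Subgroup ℚˣ) (hW : W.FG) :
    ∃ p₀ : ℕ, ∀ p : ℕ, p.Prime → p₀ < p → ∀ w ∈ W, padicValRat p (w : ℚ) = 0 := by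
  obtain ⟨S, rfl⟩ := hW
  refine ⟨S.sup fun s => max (s : ℚ).num.natAbs (s : ℚ).den, fun p hp hlt w hw => ?_⟩
  have : Fact p.Prime := ⟨hp⟩
  induction hw using Subgroup.closure_induction with
  | mem s hs =>
    have h1 : max (s : ℚ).num.natAbs (s : ℚ).den < p :=
      (Finset.le_sup (f := fun s : ℚˣ => max (s : ℚ).num.natAbs (s : ℚ).den) hs).trans_lt hlt
    rw [group_val p hp, Nat.factorization_eq_zero_of_lt ((le_max_left _ _).trans_lt h1),
      Nat.factorization_eq_zero_of_lt ((le_max_right _ _).trans_lt h1)]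
    simp
  | one => simp
  | mul x y _ _ hx hy =>
    rw [Units.val_mul, padicValRat.mul (Units.ne_zero _) (Units.ne_zero _), hx, hy, add_zero]
  | inv x _ hx => rw [Units.val_inv_eq_inv_val, padicValRat.inv, hx, neg_zero]

/-- the numerator attached to an exponent vector -/
def groupA {r : ℕ} (u w : Fin r → ℕ) (d : Fin r → ℤ) : ℕ :=
  ∏ i, u i ^ (d i).toNat * w i ^ (-d i).toNat

theorem group_A_ne {r : ℕ} {u w q : Fin r → ℕ} (h : Diag u w q) {d : Fin r → ℤ} (hd : d ≠ 0) :
    groupA u w d ≠ groupA w u d := by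
  obtain ⟨j, hj⟩ := Function.ne_iff.mp hd
  intro he
  have key : ∀ u w : Fin r → ℕ, (∀ i, 0 < u i) → (∀ i, 0 < w i) →
      (groupA u w d).factorization (q j) = ∑ i, ((d i).toNat * (u i).factorization (q j) +
        (-d i).toNat * (w i).factorization (q j)) := by
    intro u w hu hw
    unfold groupA
    rw [Nat.factorization_prod fun i _ => (mul_pos (pow_pos (hu i) _) (pow_pos (hw i) _)).ne',
      Finsupp.finsetSum_apply]
    refine Finset.sum_congr rfl fun i _ => ?_
    rw [Nat.factorization_mul (pow_pos (hu i) _).ne' (pow_pos (hw i) _).ne',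
      Nat.factorization_pow, Nat.factorization_pow]
    simp
  have h1 := key u w (fun i => (h.1 i).1) fun i => (h.1 i).2.1
  rw [he, key w u (fun i => (h.1 i).2.1) fun i => (h.1 i).1,
    ← Finset.add_sum_erase _ _ (Finset.mem_univ j), ← Finset.add_sum_erase _ _ (Finset.mem_univ j),
    Finset.sum_congr rfl fun i hi => by rw [← h.2 i j (Finset.ne_of_mem_erase hi)]] at h1
  have h2 := Nat.add_right_cancel (h1.trans (congrArg _
    (Finset.sum_congr rfl fun i hi => by rw [← h.2 i j (Finset.ne_of_mem_erase hi)])))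
  have h3 := (h.1 j).2.2.2
  simp only [Pi.zero_apply] at hj
  rcases lt_or_gt_of_ne hj with h4 | h4
  · rw [Int.toNat_eq_zero.mpr h4.le, zero_mul, zero_mul, zero_add, zero_add] at h2
    exact h3 (Nat.eq_of_mul_eq_mul_left (by omega) h2)
  · rw [Int.toNat_eq_zero.mpr (by omega : -d j ≤ 0), zero_mul, zero_mul, add_zero, add_zero] at h2
    exact h3 (Nat.eq_of_mul_eq_mul_left (by omega) h2).symm

theorem group_A_le {r : ℕ} {u w : Fin r → ℕ} (hu : ∀ i, 0 < u i) (hw : ∀ i, 0 < w i)
    {d : Fin r → ℤ} {N : ℕ} (hd : ∀ i, d i ∈ Icc (-(N : ℤ)) N) :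
    groupA u w d ≤ (∏ i, u i * w i) ^ N := by
  rw [← Finset.prod_pow]
  refine Finset.prod_le_prod' fun i _ => ?_
  have := Finset.mem_Icc.mp (hd i)
  rw [mul_pow]
  exact Nat.mul_le_mul (Nat.pow_le_pow_right (hu i) (by omega))
    (Nat.pow_le_pow_right (hw i) (by omega))

theorem group_card_primeFactors {Z A N : ℕ} (hZ : Z ≠ 0) (h : Z ≤ A ^ N) :
    #Z.primeFactors ≤ N * A := by
  have h1 : 2 ^ #Z.primeFactors ≤ ∏ p ∈ Z.primeFactors, p :=
    Finset.pow_card_le_prod _ _ _ fun p hp => (Nat.prime_of_mem_primeFactors hp).two_le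
  have h2 := Nat.le_of_dvd (Nat.pos_of_ne_zero hZ) (Nat.prod_primeFactors_dvd Z)
  have h3 : A ^ N ≤ (2 ^ A) ^ N := Nat.pow_le_pow_left Nat.lt_two_pow_self.le N
  rw [← pow_mul, mul_comm] at h3
  exact (Nat.pow_le_pow_iff_right (by norm_num)).mp (h1.trans (h2.trans (h.trans h3)))

theorem group_rel {r : ℕ} {u w : Fin r → ℕ} {p m N : ℕ} (hp : p.Prime) (hw : ∀ i, ¬ p ∣ w i)
    (hm : 0 < m) (hN : m < (N + 1) ^ r) (h : ∀ i, (u i : ZMod p) ^ m = (w i : ZMod p) ^ m) :
    ∃ d : Fin r → ℤ, d ≠ 0 ∧ (∀ i, d i ∈ Icc (-(N : ℤ)) N) ∧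
      p ∣ ((groupA u w d : ℤ) - groupA w u d).natAbs := by
  have : Fact p.Prime := ⟨hp⟩
  have hw' : ∀ i, (w i : ZMod p) ≠ 0 := fun i h => hw i ((ZMod.natCast_eq_zero_iff _ _).mp h)
  have hx : ∀ i, ((u i : ZMod p) / w i) ^ m = 1 := fun i => by
    rw [div_pow, h i, div_self (pow_ne_zero _ (hw' i))]
  have hx0 : ∀ i, (u i : ZMod p) / w i ≠ 0 := fun i h0 => by
    have := hx i
    rw [h0, zero_pow hm.ne'] at this
    exact zero_ne_one this
  obtain ⟨e, he, e', he', hne, heq⟩ := Finset.exists_ne_map_eq_of_card_lt_of_maps_to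
    (s := Fintype.piFinset fun _ : Fin r => range (N + 1))
    (t := (Polynomial.nthRoots m (1 : ZMod p)).toFinset)
    (f := fun e => ∏ i, ((u i : ZMod p) / w i) ^ e i)
    (by
      rw [Fintype.card_piFinset_const, Finset.card_range]
      exact ((Multiset.toFinset_card_le _).trans (Polynomial.card_nthRoots m 1)).trans_lt hN)
    (fun e _ => by
      rw [Finset.mem_coe, Multiset.mem_toFinset, Polynomial.mem_nthRoots hm, ← Finset.prod_pow]
      exact Finset.prod_eq_one fun i _ => by rw [← pow_mul, mul_comm, pow_mul, hx i, one_pow])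
  refine ⟨fun i => (e i : ℤ) - e' i, fun h0 => hne (funext fun i => ?_), fun i => ?_, ?_⟩
  · have := congrFun h0 i
    simp only [Pi.zero_apply] at this
    omega
  · have h1 := Finset.mem_range.mp (Fintype.mem_piFinset.mp he i)
    have h2 := Finset.mem_range.mp (Fintype.mem_piFinset.mp he' i)
    simp only [Finset.mem_Icc]
    omega
  · rw [← Int.natCast_dvd, ← ZMod.intCast_zmod_eq_zero_iff_dvd]
    push_cast
    rw [sub_eq_zero]
    have h0 : ∏ i, ((u i : ZMod p) / w i) ^ e' i ≠ 0 :=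
      Finset.prod_ne_zero_iff.mpr fun i _ => pow_ne_zero _ (hx0 i)
    refine mul_right_cancel₀ h0 ?_
    conv_rhs => rw [← heq]
    unfold groupA
    push_cast
    rw [← Finset.prod_mul_distrib, ← Finset.prod_mul_distrib]
    refine Finset.prod_congr rfl fun i _ => ?_
    have h1 := hw' i
    rcases le_total (e i) (e' i) with h2 | h2
    · obtain ⟨k, hk⟩ := Nat.exists_eq_add_of_le h2
      rw [show ((e i : ℤ) - e' i).toNat = 0 by omega, show (-((e i : ℤ) - e' i)).toNat = k by omega,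
        hk, pow_add, div_pow _ _ k]
      field_simp
    · obtain ⟨k, hk⟩ := Nat.exists_eq_add_of_le h2
      rw [show ((e i : ℤ) - e' i).toNat = k by omega, show (-((e i : ℤ) - e' i)).toNat = 0 by omega,
        hk, pow_add, div_pow _ _ k]
      field_simp

theorem matthews {r : ℕ} (hr : 0 < r) {u w q : Fin r → ℕ} (h : Diag u w q) :
    ∃ C : ℝ, 0 < C ∧ ∀ Y : ℝ, 1 ≤ Y → ∀ S : Finset ℕ,
      (∀ p ∈ S, p.Prime ∧ (∀ i, ¬ p ∣ w i) ∧
        ∃ m : ℕ, 0 < m ∧ (m : ℝ) ≤ Y ∧ ∀ i, (u i : ZMod p) ^ m = (w i : ZMod p) ^ m) →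
      (#S : ℝ) ≤ C * Y ^ (1 + 1 / (r : ℝ)) := by
  have hu : ∀ i, 0 < u i := fun i => (h.1 i).1
  have hw : ∀ i, 0 < w i := fun i => (h.1 i).2.1
  have hA : 0 < ∏ i, u i * w i := Finset.prod_pos fun i _ => mul_pos (hu i) (hw i)
  refine ⟨3 ^ r * (∏ i, u i * w i : ℕ), by positivity, fun Y hY S hS => ?_⟩
  have hr' : (r : ℝ) ≠ 0 := by positivity
  have hy1 : 1 ≤ Y ^ (1 / (r : ℝ)) := Real.one_le_rpow hY (by positivity)
  have hyr : (Y ^ (1 / (r : ℝ))) ^ r = Y := by
    rw [one_div, Real.rpow_inv_natCast_pow (by linarith) hr.ne']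
  obtain ⟨N, hN⟩ : ∃ N, N = ⌊Y ^ (1 / (r : ℝ))⌋₊ := ⟨_, rfl⟩
  have hN1 : 1 ≤ N := by rw [hN]; exact Nat.le_floor (by simpa using hy1)
  have hN2 : (N : ℝ) ≤ Y ^ (1 / (r : ℝ)) := by rw [hN]; exact Nat.floor_le (by linarith)
  have hN3 : Y < ((N : ℝ) + 1) ^ r := by
    rw [← hyr]
    refine pow_lt_pow_left₀ ?_ (by linarith) hr.ne'
    rw [hN]; exact Nat.lt_floor_add_one _
  have hsub : S ⊆ ((Fintype.piFinset fun _ : Fin r => Icc (-(N : ℤ)) N).erase 0).biUnion
      fun d => ((groupA u w d : ℤ) - groupA w u d).natAbs.primeFactors := by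
    intro p hp
    obtain ⟨h1, h2, m, h3, h4, h5⟩ := hS p hp
    obtain ⟨d, hd0, hd1, hd2⟩ := group_rel (N := N) h1 h2 h3
      (by exact_mod_cast h4.trans_lt hN3) h5
    refine Finset.mem_biUnion.mpr ⟨d, Finset.mem_erase.mpr ⟨hd0, Fintype.mem_piFinset.mpr hd1⟩,
      Nat.mem_primeFactors.mpr ⟨h1, hd2, ?_⟩⟩
    have := group_A_ne h hd0
    omega
  have hcard : #S ≤ (3 * N) ^ r * (N * ∏ i, u i * w i) := by
    refine (Finset.card_le_card hsub).trans ((Finset.card_biUnion_le_card_mul _ _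
      (N * ∏ i, u i * w i) fun d hd => ?_).trans (Nat.mul_le_mul_right _ ?_))
    · obtain ⟨hd0, hd1⟩ := Finset.mem_erase.mp hd
      have h1 := group_A_ne h hd0
      have h2 := group_A_le hu hw (Fintype.mem_piFinset.mp hd1)
      have h3 := group_A_le hw hu (Fintype.mem_piFinset.mp hd1)
      simp only [mul_comm (w _)] at h3
      exact group_card_primeFactors (by omega) (by omega)
    · refine Finset.card_erase_le.trans ?_
      rw [Fintype.card_piFinset_const, Int.card_Icc]
      exact Nat.pow_le_pow_left (by omega) r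
  calc (#S : ℝ) ≤ (3 * N) ^ r * (N * (∏ i, u i * w i : ℕ)) := by exact_mod_cast hcard
    _ ≤ (3 * Y ^ (1 / (r : ℝ))) ^ r * (Y ^ (1 / (r : ℝ)) * (∏ i, u i * w i : ℕ)) := by gcongr
    _ = _ := by
      rw [mul_pow, hyr, Real.rpow_add (by linarith), Real.rpow_one]
      ring

end Pool.Agent.MP_48b1c3_nt.H54
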