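import Pool.Agent.MP_48b1c3_nt.H54.Defs
import Pool.Agent.MP_f0209c_nt.Zeta

/-! Upper bounds for Dirichlet L-functions near the line `re s = 1`. -/

/-
HINTS.  General tool (Abel summation): a : ℕ → ℂ, a 0 = 0, ‖a n‖ ≤ 1, A n = ∑ m ∈ range (n+1), a m with ‖A n‖ ≤ q.
Put G s = ∑' n, A (n+1) * ((n+1)^(-s) - (n+2)^(-s)).  ‖t^(-s) - (t+1)^(-s)‖ ≤ ‖s‖ t^(-re s - 1) (mean value inequality,
see hasDerivAt_pw / norm_pw / norm_zt in MP_f0209c_nt.Zeta).  ‖A n‖ ≤ min n q ≤ q^η n^(1-η) for 0 < η ≤ 1.  Hence for re s ≥ 1 - η/2: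
‖G s‖ ≤ q^η ‖s‖ ∑ n^(-1-η/2).  G is differentiable on {0 < re s} (differentiableOn_tsum_of_summable_norm on bounded open
pieces {δ < re} ∩ ball 0 R), and G s = LSeries a s for 1 < re s (summation by parts of partial sums; A N * N^(-s) → 0).
For χ ≠ 1 the identity theorem (AnalyticOnNhd.eqOn_of_preconnected_of_eventuallyEq, differentiable_LFunction) gives LFunction χ = G
on {0 < re s}.  For real χ (χ ^ 2 = 1 means values in {0, 1, -1}, MulChar.isQuadratic_iff_sq_eq_one) and real s every term of G is real.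
Trivial character: a n = (1 : DirichletCharacter ℂ q) n - φ(q)/q for n ≥ 1 has partial sums bounded by q (sum over a period is 0),
so L(s, 1) = (φ(q)/q) ζ(s) + G s, and ζ s = 1/(s-1) + ∑' zt n s (zeta_eq_of_one_lt, norm_zt).
inv_norm_le: LSeries.mul_mu_eq_one gives 1 ≤ ‖L‖ * ∑ n^(-σ), and ∑_{n ≥ 1} n^(-σ) ≤ 1 + 1/(σ-1) ≤ 2/(σ-1) for σ ≤ 2.
-/

namespace Pool.Agent.MP_48b1c3_nt.H54

open Finset DirichletCharacter

section General

open Complex Filter Topology Pool.Agent.MP_f0209c_nt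

theorem lbound_periodic {f : ℕ → ℂ} {q : ℕ} (hq : 0 < q) (hp : ∀ n, f (n + q) = f n)
    (h0 : ∑ n ∈ range q, f n = 0) (h1 : ∀ n, ‖f n‖ ≤ 1) (N : ℕ) :
    ‖∑ n ∈ range N, f n‖ ≤ q := by
  induction N using Nat.strong_induction_on with
  | _ N ih =>
    rcases le_or_gt N q with h | h
    · refine (norm_sum_le _ _).trans ((sum_le_sum fun n _ => h1 n).trans ?_)
      simpa using h
    · obtain ⟨M, rfl⟩ : ∃ M, N = q + M := ⟨N - q, by omega⟩
      rw [sum_range_add, h0, zero_add]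
      simp only [add_comm q, hp]
      exact ih M (by omega)

theorem lbound_shift {f : ℕ → ℂ} {q : ℕ} (hp : ∀ n, f (n + q) = f n)
    (h0 : ∑ n ∈ range q, f n = 0) : ∑ n ∈ range q, f (n + 1) = 0 := by
  have h1 := sum_range_succ' f q
  have h2 := sum_range_succ f q
  have h3 := hp 0
  rw [zero_add] at h3
  rw [h2, h0, h3] at h1
  linear_combination -h1

theorem lbound_sum_zmod {q : ℕ} [NeZero q] (g : ZMod q → ℂ) :
    ∑ n ∈ range q, g n = ∑ a, g a := by
  refine sum_nbij' (fun n => (n : ZMod q)) (fun a => a.val) (fun _ _ => mem_univ _)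
    (fun a _ => mem_range.2 (ZMod.val_lt a)) (fun n hn => ZMod.val_cast_of_lt (mem_range.1 hn))
    (fun a _ => ZMod.natCast_zmod_val a) fun _ _ => rfl

/-- difference of consecutive powers -/
noncomputable def lbound_d (n : ℕ) (s : ℂ) : ℂ :=
  exp (-s * Real.log (n + 1 : ℝ)) - exp (-s * Real.log (n + 1 + 1 : ℝ))

theorem lbound_norm_d (n : ℕ) {s : ℂ} (h0 : 0 ≤ s.re) :
    ‖lbound_d n s‖ ≤ ‖s‖ * (n + 1 : ℝ) ^ (-s.re - 1) := by
  set a : ℝ := n + 1 with ha
  have a1 : 1 ≤ a := by rw [ha]; linarith [(n.cast_nonneg : (0 : ℝ) ≤ n)]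
  have p1 := norm_image_sub_le_of_norm_deriv_le_segment' (C := ‖s‖ * a ^ (-s.re - 1))
      (a := a) (b := a + 1)
      (f := fun y : ℝ => exp (-s * Real.log y)) (f' := fun x => -s * exp ((-s - 1) * Real.log x))
      (fun x hx => (hasDerivAt_pw (-s) (by linarith [hx.1])).hasDerivWithinAt) (fun x hx => by
        rw [norm_mul, norm_neg, norm_pw _ (by linarith [hx.1])]
        refine mul_le_mul_of_nonneg_left ?_ (norm_nonneg _)
        rw [show (-s - 1).re = -s.re - 1 by simp]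
        exact Real.rpow_le_rpow_of_nonpos (by linarith) hx.1 (by linarith))
      (a + 1) (Set.right_mem_Icc.2 (by linarith))
  unfold lbound_d
  rw [← ha, norm_sub_rev]
  simpa using p1

/-- the series obtained by Abel summation -/
noncomputable def lbound_G (a : ℕ → ℂ) (s : ℂ) : ℂ :=
  ∑' n, (∑ m ∈ range (n + 1), a (m + 1)) * lbound_d n s

theorem lbound_summable {δ : ℝ} (hδ : 0 < δ) :
    Summable fun n : ℕ => (n + 1 : ℝ) ^ (-δ - 1) := by
  have := (summable_nat_add_iff 1).2 (Real.summable_nat_rpow.2 (by linarith : -δ - 1 < -1))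
  simpa using this

theorem lbound_term_le {a : ℕ → ℂ} {Q : ℝ} (hQ : ∀ N, ‖∑ m ∈ range N, a (m + 1)‖ ≤ Q)
    {δ : ℝ} (hδ : 0 < δ) {s : ℂ} (hs : δ ≤ s.re) (n : ℕ) :
    ‖(∑ m ∈ range (n + 1), a (m + 1)) * lbound_d n s‖ ≤ Q * ‖s‖ * (n + 1 : ℝ) ^ (-δ - 1) := by
  have a1 : (1 : ℝ) ≤ n + 1 := by linarith [(n.cast_nonneg : (0 : ℝ) ≤ n)]
  rw [norm_mul, mul_assoc]
  refine mul_le_mul (hQ _) ((lbound_norm_d n (by linarith)).trans ?_) (norm_nonneg _)
    ((norm_nonneg _).trans (hQ 0))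
  exact mul_le_mul_of_nonneg_left (Real.rpow_le_rpow_of_exponent_le a1 (by linarith))
    (norm_nonneg _)

theorem lbound_diff {a : ℕ → ℂ} {Q : ℝ} (hQ : ∀ N, ‖∑ m ∈ range N, a (m + 1)‖ ≤ Q) :
    DifferentiableOn ℂ (lbound_G a) {s | 0 < s.re} := by
  intro s hs
  have hs' : 0 < s.re := hs
  have Q0 : 0 ≤ Q := (norm_nonneg _).trans (hQ 0)
  set U : Set ℂ := {z | s.re / 2 < z.re} ∩ Metric.ball 0 (‖s‖ + 1) with hU
  have Uo : IsOpen U := (isOpen_lt continuous_const continuous_re).inter Metric.isOpen_ball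
  have d2 : DifferentiableOn ℂ (lbound_G a) U :=
    differentiableOn_tsum_of_summable_norm
      ((lbound_summable (half_pos hs')).mul_left (Q * (‖s‖ + 1))) (fun n => by
        unfold lbound_d
        fun_prop) Uo fun n z hz =>
      (lbound_term_le hQ (half_pos hs') (le_of_lt hz.1) n).trans (mul_le_mul_of_nonneg_right
        (mul_le_mul_of_nonneg_left (mem_ball_zero_iff.1 hz.2).le Q0) (by positivity))
  have hsU : s ∈ U := ⟨show s.re / 2 < s.re by linarith, mem_ball_zero_iff.2 (by linarith)⟩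
  exact (d2.differentiableAt (Uo.mem_nhds hsU)).differentiableWithinAt

theorem lbound_eq {a : ℕ → ℂ} {Q : ℝ} (hQ : ∀ N, ‖∑ m ∈ range N, a (m + 1)‖ ≤ Q)
    (h1 : ∀ n, ‖a n‖ ≤ 1) {s : ℂ} (hs : 1 < s.re) : LSeries a s = lbound_G a s := by
  have hz : Summable fun n => (∑ m ∈ range (n + 1), a (m + 1)) * lbound_d n s :=
    ((lbound_summable one_pos).mul_left (Q * ‖s‖)).of_norm_bounded
      fun n => lbound_term_le hQ one_pos hs.le n
  have t1 := hz.hasSum.tendsto_sum_nat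
  have hsum : LSeriesSummable a s := LSeriesSummable_of_bounded_of_one_lt_re (fun n _ => h1 n) hs
  have t2 := (tendsto_add_atTop_iff_nat 1).2 hsum.hasSum.tendsto_sum_nat
  have t3 : Tendsto (fun N : ℕ => (∑ m ∈ range N, a (m + 1)) * exp (-s * Real.log (N + 1 : ℝ)))
      atTop (𝓝 0) := by
    rw [tendsto_zero_iff_norm_tendsto_zero]
    have := ((tendsto_rpow_neg_atTop (y := s.re) (by linarith)).comp
      (tendsto_atTop_add_const_right atTop (1 : ℝ) tendsto_natCast_atTop_atTop)).const_mul Q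
    rw [mul_zero] at this
    refine squeeze_zero (fun _ => norm_nonneg _) (fun n => ?_) this
    rw [norm_mul, norm_pw _ (by positivity)]
    exact mul_le_mul_of_nonneg_right (hQ n) (by positivity)
  have e : ∀ N : ℕ, ∑ n ∈ range N, (∑ m ∈ range (n + 1), a (m + 1)) * lbound_d n s =
      ∑ n ∈ range (N + 1), LSeries.term a s n -
        (∑ m ∈ range N, a (m + 1)) * exp (-s * Real.log (N + 1 : ℝ)) := fun N => by
    induction N with
    | zero => simp
    | succ N ih =>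
      have := pw_nat (-s) (n := N + 1) (by omega)
      rw [cpow_neg] at this
      rw [sum_range_succ _ N, sum_range_succ _ (N + 1), ih, lbound_d,
        LSeries.term_of_ne_zero (by omega), div_eq_mul_inv, this,
        sum_range_succ (fun m => a (m + 1)) N]
      push_cast
      ring
  have t4 := t2.sub t3
  rw [sub_zero] at t4
  exact tendsto_nhds_unique (t4.congr fun N => (e N).symm) t1

theorem lbound_min {x q η t : ℝ} (h0 : 0 < η) (h1 : η ≤ 1) (hx : 0 ≤ x) (hq : x ≤ q)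
    (ht : x ≤ t) : x ≤ q ^ η * t ^ (1 - η) := by
  calc x = x ^ η * x ^ (1 - η) := by
        rw [← Real.rpow_add' hx (by norm_num)]; simp
    _ ≤ _ := mul_le_mul (Real.rpow_le_rpow hx hq h0.le) (Real.rpow_le_rpow hx ht (by linarith))
      (by positivity) (Real.rpow_nonneg (hx.trans hq) _)

theorem lbound_norm_G {η : ℝ} (h0 : 0 < η) (h1 : η ≤ 1) {a : ℕ → ℂ} {Q : ℝ}
    (hQ : ∀ N, ‖∑ m ∈ range N, a (m + 1)‖ ≤ Q) (ha : ∀ n, ‖a n‖ ≤ 1) {s : ℂ}
    (hs : 1 - η / 2 ≤ s.re) :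
    ‖lbound_G a s‖ ≤ (∑' n : ℕ, (n + 1 : ℝ) ^ (-(η / 2) - 1)) * Q ^ η * ‖s‖ := by
  have Q0 : 0 ≤ Q := (norm_nonneg _).trans (hQ 0)
  have := tsum_of_norm_bounded (f := fun n => (∑ m ∈ range (n + 1), a (m + 1)) * lbound_d n s)
    ((lbound_summable (half_pos h0)).hasSum.mul_left (Q ^ η * ‖s‖)) fun n => by
      have a1 : (1 : ℝ) ≤ n + 1 := by linarith [(n.cast_nonneg : (0 : ℝ) ≤ n)]
      have b1 : ‖∑ m ∈ range (n + 1), a (m + 1)‖ ≤ (n + 1 : ℝ) := by
        refine (norm_sum_le _ _).trans ((sum_le_sum fun m _ => ha (m + 1)).trans ?_)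
        simp
      have b2 := lbound_min h0 h1 (norm_nonneg _) (hQ (n + 1)) b1
      rw [norm_mul]
      refine (mul_le_mul b2 (lbound_norm_d n (by linarith)) (norm_nonneg _)
        (by positivity)).trans ?_
      have b3 : (n + 1 : ℝ) ^ (1 - η) * (n + 1 : ℝ) ^ (-s.re - 1) ≤
          (n + 1 : ℝ) ^ (-(η / 2) - 1) := by
        rw [← Real.rpow_add (by linarith)]
        exact Real.rpow_le_rpow_of_exponent_le a1 (by linarith)
      calc _ = Q ^ η * ‖s‖ * ((n + 1 : ℝ) ^ (1 - η) * (n + 1 : ℝ) ^ (-s.re - 1)) := by ring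
        _ ≤ _ := mul_le_mul_of_nonneg_left b3 (by positivity)
  exact this.trans (le_of_eq (by ring))

theorem lbound_K_pos {δ : ℝ} (hδ : 0 < δ) : 0 < ∑' n : ℕ, (n + 1 : ℝ) ^ (-δ - 1) :=
  (lbound_summable hδ).tsum_pos (fun n => by positivity) 0 (by positivity)

theorem lbound_char_sum {q : ℕ} [NeZero q] (χ : DirichletCharacter ℂ q) (hχ : χ ≠ 1) :
    ∑ n ∈ range q, χ n = 0 := by
  rw [lbound_sum_zmod χ]
  exact MulChar.sum_eq_zero_of_ne_one hχ

theorem lbound_char_shift {q : ℕ} [NeZero q] (χ : DirichletCharacter ℂ q) (hχ : χ ≠ 1) (N : ℕ) :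
    ‖∑ m ∈ range N, χ ((m + 1 : ℕ) : ZMod q)‖ ≤ q :=
  lbound_periodic (f := fun m => χ ((m + 1 : ℕ) : ZMod q)) (NeZero.pos q)
    (fun n => by simp)
    (lbound_shift (f := fun m => χ (m : ZMod q)) (fun n => by simp) (lbound_char_sum χ hχ))
    (fun n => χ.norm_le_one _) N

theorem lbound_LFunction_eq {q : ℕ} [NeZero q] (χ : DirichletCharacter ℂ q) (hχ : χ ≠ 1)
    {s : ℂ} (hs : 0 < s.re) : LFunction χ s = lbound_G (fun n => χ n) s := by
  have Uo : IsOpen {s : ℂ | 0 < s.re} := isOpen_lt continuous_const continuous_re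
  have d1 := lbound_diff (a := fun n => χ n) (lbound_char_shift χ hχ)
  refine ((differentiable_LFunction hχ).differentiableOn.analyticOnNhd
    Uo).eqOn_of_preconnected_of_eventuallyEq (d1.analyticOnNhd Uo)
    (convex_halfSpace_re_gt 0).isPreconnected (z₀ := 2) (by simp) ?_ hs
  filter_upwards [(isOpen_lt continuous_const continuous_re).mem_nhds
    (show (2 : ℂ) ∈ {z : ℂ | 1 < z.re} by simp)] with z hz
  rw [LFunction_eq_LSeries χ hz]
  exact lbound_eq (lbound_char_shift χ hχ) (fun n => χ.norm_le_one _) hz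

theorem lbound_step {σ : ℝ} (h1 : 1 < σ) {x : ℝ} (hx : 0 < x) :
    (x + 1) ^ (-σ) ≤ (x ^ (1 - σ) - (x + 1) ^ (1 - σ)) / (σ - 1) := by
  rw [le_div_iff₀ (by linarith)]
  have hx1 : 0 < x + 1 := by linarith
  have e1 : (x + 1) ^ (-σ) = (x + 1) ^ (1 - σ) * (1 / (x + 1)) := by
    rw [show -σ = (1 - σ) + (-1) by ring, Real.rpow_add hx1, Real.rpow_neg_one, one_div]
  have e2 : x ^ (1 - σ) = (x + 1) ^ (1 - σ) * Real.exp ((σ - 1) * -Real.log (x / (x + 1))) := by
    rw [Real.rpow_def_of_pos hx, Real.rpow_def_of_pos hx1, ← Real.exp_add,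
      Real.log_div hx.ne' hx1.ne']
    congr 1
    ring
  have e3 : Real.log (x / (x + 1)) ≤ -(1 / (x + 1)) := by
    refine (Real.log_le_sub_one_of_pos (by positivity)).trans (le_of_eq ?_)
    field_simp
    ring
  have e4 := Real.add_one_le_exp ((σ - 1) * -Real.log (x / (x + 1)))
  have e5 : 0 < (x + 1) ^ (1 - σ) := by positivity
  have e6 : (σ - 1) * (1 / (x + 1)) ≤ (σ - 1) * -Real.log (x / (x + 1)) :=
    mul_le_mul_of_nonneg_left (by linarith) (by linarith)
  rw [e1, e2]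
  nlinarith

theorem lbound_zeta_sum {σ : ℝ} (h1 : 1 < σ) (N : ℕ) :
    ∑ n ∈ range (N + 1), (n + 1 : ℝ) ^ (-σ) ≤ 1 + (1 - (N + 1 : ℝ) ^ (1 - σ)) / (σ - 1) := by
  induction N with
  | zero => simp
  | succ N ih =>
    rw [sum_range_succ]
    have := lbound_step h1 (x := N + 1) (by positivity)
    push_cast
    refine (add_le_add ih this).trans (le_of_eq ?_)
    ring

theorem lbound_LSeries_le {a : ℕ → ℂ} (ha : ∀ n, ‖a n‖ ≤ 1) {s : ℂ} (h1 : 1 < s.re)
    (h2 : s.re ≤ 2) : ‖LSeries a s‖ ≤ 2 / (s.re - 1) := by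
  have hsum : LSeriesSummable a s := LSeriesSummable_of_bounded_of_one_lt_re (fun n _ => ha n) h1
  have t2 := ((tendsto_add_atTop_iff_nat 2).2 hsum.hasSum.tendsto_sum_nat).norm
  refine le_of_tendsto' t2 fun N => ?_
  rw [sum_range_succ', LSeries.term_zero, add_zero]
  refine (norm_sum_le _ _).trans ((sum_le_sum (g := fun n : ℕ => (n + 1 : ℝ) ^ (-s.re))
    fun n _ => ?_).trans ((lbound_zeta_sum h1 N).trans ?_))
  · rw [LSeries.norm_term_eq, if_neg (by omega), Real.rpow_neg (by positivity), div_eq_mul_inv]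
    push_cast
    exact mul_le_of_le_one_left (by positivity) (ha _)
  · have : 0 < s.re - 1 := by linarith
    have h3 : 0 ≤ (N + 1 : ℝ) ^ (1 - s.re) := by positivity
    rw [le_div_iff₀ this, add_mul, div_mul_cancel₀ _ this.ne']
    linarith

end General

theorem partial_sum_le {q : ℕ} [NeZero q] (χ : DirichletCharacter ℂ q) (hχ : χ ≠ 1) (N : ℕ) :
    ‖∑ n ∈ range N, χ n‖ ≤ q :=
  lbound_periodic (f := fun m => χ (m : ZMod q)) (NeZero.pos q) (fun n => by simp)
    (lbound_char_sum χ hχ) (fun n => χ.norm_le_one _) N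

theorem norm_LFunction_le {η : ℝ} (h0 : 0 < η) (h1 : η ≤ 1) :
    ∃ C : ℝ, 0 < C ∧ ∀ (q : ℕ) [NeZero q] (χ : DirichletCharacter ℂ q), χ ≠ 1 → ∀ s : ℂ,
      1 - η / 2 ≤ s.re → ‖LFunction χ s‖ ≤ C * (q : ℝ) ^ η * ‖s‖ := by
  refine ⟨_, lbound_K_pos (half_pos h0), fun q _ χ hχ s hs => ?_⟩
  rw [lbound_LFunction_eq χ hχ (by linarith)]
  exact lbound_norm_G h0 h1 (lbound_char_shift χ hχ) (fun n => χ.norm_le_one _) hs

theorem norm_LFunction_one_le {η : ℝ} (h0 : 0 < η) (h1 : η ≤ 1) :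
    ∃ C : ℝ, 0 < C ∧ ∀ (q : ℕ) [NeZero q] (s : ℂ), 1 < s.re →
      ‖LFunction (1 : DirichletCharacter ℂ q) s‖ ≤ 1 / ‖s - 1‖ + C * (q : ℝ) ^ η * ‖s‖ := by
  set K := ∑' n : ℕ, (n + 1 : ℝ) ^ (-(11 / 10) : ℝ) with hK
  have K0 : 0 ≤ K := tsum_nonneg fun n => by positivity
  have K1 := lbound_K_pos (half_pos h0)
  refine ⟨K + ∑' n : ℕ, (n + 1 : ℝ) ^ (-(η / 2) - 1), by linarith, fun q _ s hs => ?_⟩
  have q0 : (0 : ℝ) < q := by exact_mod_cast NeZero.pos q
  have q1 : (1 : ℝ) ≤ q := by exact_mod_cast NeZero.pos q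
  set c : ℝ := (q.totient : ℝ) / q with hc
  have c0 : 0 ≤ c := by positivity
  have c1 : c ≤ 1 := (div_le_one q0).2 (by exact_mod_cast q.totient_le)
  set a : ℕ → ℂ := fun n => (1 : DirichletCharacter ℂ q) n - c with ha
  have a1 : ∀ n, ‖a n‖ ≤ 1 := fun n => by
    by_cases hn : IsUnit (n : ZMod q)
    · have : a n = ((1 - c : ℝ) : ℂ) := by simp [ha, MulChar.one_apply hn]
      rw [this, Complex.norm_real, Real.norm_eq_abs, abs_le]
      constructor <;> linarith
    · have : a n = ((-c : ℝ) : ℂ) := by simp [ha, MulChar.map_nonunit _ hn]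
      rw [this, Complex.norm_real, Real.norm_eq_abs, abs_le]
      constructor <;> linarith
  have ap : ∀ n, a (n + q) = a n := fun n => by simp [ha]
  have a0 : ∑ n ∈ range q, a n = 0 := by
    simp only [ha]
    rw [sum_sub_distrib, lbound_sum_zmod (1 : DirichletCharacter ℂ q),
      MulChar.sum_one_eq_card_units, ZMod.card_units_eq_totient, sum_const, card_range,
      nsmul_eq_mul, hc]
    have : (q : ℂ) ≠ 0 := by exact_mod_cast NeZero.ne q
    push_cast
    field_simp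
    ring
  have hQ := lbound_periodic (f := fun m => a (m + 1)) (NeZero.pos q)
    (fun n => by rw [add_right_comm]; exact ap _) (lbound_shift ap a0) fun n => a1 _
  have ne1 : s ≠ 1 := fun h => by simp [h] at hs
  have e : LFunction (1 : DirichletCharacter ℂ q) s = c * riemannZeta s + lbound_G a s := by
    rw [← lbound_eq hQ a1 hs, LFunction_eq_LSeries _ hs, ← LSeries_one_eq_riemannZeta hs,
      ← LSeries_smul, ← LSeries_add ((LSeriesSummable_one_iff.2 hs).smul _)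
        (LSeriesSummable_of_bounded_of_one_lt_re (fun n _ => a1 n) hs)]
    congr 1
    funext n
    simp [ha]
  have e1 : ‖∑' n, MP_f0209c_nt.zt n s‖ ≤ ‖s‖ * K :=
    tsum_of_norm_bounded (MP_f0209c_nt.summable_11.hasSum.mul_left ‖s‖)
      fun n => MP_f0209c_nt.norm_zt n (by linarith) ne1
  have e2 : ‖riemannZeta s‖ ≤ 1 / ‖s - 1‖ + ‖s‖ * K := by
    rw [MP_f0209c_nt.zeta_eq_of_one_lt hs]
    refine (norm_add_le _ _).trans (add_le_add (le_of_eq ?_) e1)
    rw [norm_div, norm_one]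
  have e3 := lbound_norm_G h0 h1 hQ a1 (s := s) (by linarith)
  have e4 : ‖(c : ℂ) * riemannZeta s‖ ≤ ‖riemannZeta s‖ := by
    rw [norm_mul, Complex.norm_real, Real.norm_eq_abs, abs_of_nonneg c0]
    exact mul_le_of_le_one_left (norm_nonneg _) c1
  have e5 : 1 ≤ (q : ℝ) ^ η := Real.one_le_rpow q1 h0.le
  have e6 : ‖s‖ * K ≤ K * (q : ℝ) ^ η * ‖s‖ := by
    have := mul_le_mul_of_nonneg_left e5 (mul_nonneg (norm_nonneg s) K0)
    linarith
  rw [e]
  refine (norm_add_le _ _).trans ?_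
  linarith

theorem LFunction_im {q : ℕ} [NeZero q] (χ : DirichletCharacter ℂ q) (hχ : χ ≠ 1)
    (h2 : χ ^ 2 = 1) {σ : ℝ} (hσ : 0 < σ) : (LFunction χ σ).im = 0 := by
  have hq := MulChar.isQuadratic_iff_sq_eq_one.2 h2
  have h3 : ∀ a, (χ a).im = 0 := fun a => by
    rcases hq a with h | h | h <;> simp [h]
  have hs : 0 < (σ : ℂ).re := by simpa using hσ
  rw [lbound_LFunction_eq χ hχ hs, lbound_G, Complex.im_tsum
    (((lbound_summable hs).mul_left (q * ‖(σ : ℂ)‖)).of_norm_bounded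
      fun n => lbound_term_le (a := fun n => χ n) (lbound_char_shift χ hχ) hs le_rfl n)]
  refine (tsum_congr fun n => ?_).trans tsum_zero
  have h4 : (lbound_d n σ).im = 0 := by
    unfold lbound_d
    rw [← Complex.ofReal_neg, ← Complex.ofReal_mul, ← Complex.ofReal_mul, ← Complex.ofReal_exp,
      ← Complex.ofReal_exp, ← Complex.ofReal_sub, Complex.ofReal_im]
  rw [Complex.mul_im, h4, Complex.im_sum, sum_eq_zero fun m _ => h3 _]
  simp

theorem norm_LFunction_le_inv {q : ℕ} [NeZero q] (χ : DirichletCharacter ℂ q) {s : ℂ}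
    (h1 : 1 < s.re) (h2 : s.re ≤ 2) : ‖LFunction χ s‖ ≤ 2 / (s.re - 1) := by
  rw [LFunction_eq_LSeries χ h1]
  exact lbound_LSeries_le (fun n => χ.norm_le_one _) h1 h2

theorem le_norm_LFunction {q : ℕ} [NeZero q] (χ : DirichletCharacter ℂ q) {s : ℂ}
    (h1 : 1 < s.re) (h2 : s.re ≤ 2) : (s.re - 1) / 2 ≤ ‖LFunction χ s‖ := by
  have e := congrArg norm (LSeries.mul_mu_eq_one χ h1)
  rw [norm_mul, norm_one, ← LFunction_eq_LSeries χ h1] at e
  have e1 := lbound_LSeries_le (a := (fun n : ℕ => χ n) *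
    fun n => (ArithmeticFunction.moebius n : ℂ)) (fun n => by
      rw [Pi.mul_apply, norm_mul, Complex.norm_intCast]
      exact mul_le_one₀ (χ.norm_le_one _) (abs_nonneg _)
        (by exact_mod_cast ArithmeticFunction.abs_moebius_le_one)) h1 h2
  have h3 : 0 < s.re - 1 := by linarith
  have e2 := mul_le_mul_of_nonneg_left e1 (norm_nonneg (LFunction χ s))
  rw [e, ← mul_div_assoc, le_div_iff₀ h3] at e2
  linarith

end Pool.Agent.MP_48b1c3_nt.H54
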