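import Pool.Agent.MP_48b1c3_nt.H54.Siegel

/-! Lower bounds for `L(s, χ)` and bounds for the derivatives of `L'/L` on `re s > 1`. -/

/-
HINTS.  Write U = q^η (|im s| + 2) ≥ 2.  norm_deriv_LFunction_le: Cauchy estimate (Complex.norm_deriv_le_of_forall_mem_sphere_norm_le, radius η/4) from norm_LFunction_le.
So L is C₂U-Lipschitz on the convex set {1 - η/4 ≤ re ≤ 3, |im| ≤ |im s| + 1} (Convex.norm_image_sub_le_of_norm_deriv_le).
lower_bound, s = σ + i y, 1 < σ ≤ 2.  Always ‖L s‖ ≥ (σ-1)/2 (le_norm_LFunction), which settles σ - 1 ≥ c/U^6.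
(a) χ^2 = 1 and |y| ≤ y₀ := c₄/U^2: siegel gives ‖L 1‖ ≥ c₃/U, and ‖L s - L 1‖ ≤ C₂ U (σ - 1 + |y|) ≤ c₃/(2U) when σ - 1 ≤ y₀.
(b) otherwise ‖LFunction (χ^2) (1+x+2iy)‖ ≤ C₆ U^2 for 0 < x ≤ 1 (norm_LFunction_le if χ^2 ≠ 1, norm_LFunction_one_le if χ^2 = 1, |y| ≥ y₀),
‖LFunctionTrivChar q (1+x)‖ ≤ 2/x (norm_LFunction_le_inv), and norm_LFunction_product_ge_one gives ‖L(1+x+iy)‖^4 ≥ x^3/(8 C₆ U^2).  Take x = c₇/U^6 with c₇ so small that
(2 C₂ U x)^4 ≤ x^3/(8 C₆ U^2); then ‖L(1+x+iy)‖ ≥ 2 C₂ U x and for σ - 1 ≤ x we get ‖L s‖ ≥ C₂ U x.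
logder_bound: η = min 1 (ε / (7 (k+1))); m = c/U^6, ρ = min (η/8) (m/(2 C₂' U)); on closedBall s ρ one has ‖L‖ ≥ m/2, so f = -L'/L is differentiable there with ‖f‖ ≤ 2 C₂' U/m, and
‖iteratedDeriv k f s‖ ≤ k! ‖f‖_∞ / ρ^k (Complex.norm_iteratedDeriv_le_of_forall_mem_sphere_norm_le).  Near s, f = LSeries (↗χ * ↗Λ) (LSeries_twist_vonMangoldt_eq, LFunction_eq_LSeries,
deriv_LFunction_eq_deriv_LSeries; Filter.EventuallyEq.iteratedDeriv_eq), and LSeries_iteratedDeriv gives the series with logMul^[k]; logMul^[k] f n = log n ^ k * f n.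
-/

namespace Pool.Agent.MP_48b1c3_nt.H54

open Finset DirichletCharacter

theorem norm_deriv_LFunction_le {η : ℝ} (h0 : 0 < η) (h1 : η ≤ 1) :
    ∃ C : ℝ, 0 < C ∧ ∀ (q : ℕ) [NeZero q] (χ : DirichletCharacter ℂ q), χ ≠ 1 → ∀ s : ℂ,
      1 - η / 4 ≤ s.re → s.re ≤ 3 →
        ‖deriv (LFunction χ) s‖ ≤ C * ((q : ℝ) ^ η * (|s.im| + 2)) := by
  obtain ⟨C, hC, H⟩ := norm_LFunction_le h0 h1
  refine ⟨8 * C / η, by positivity, fun q _ χ hχ s hs1 hs2 => ?_⟩
  have hq : 0 ≤ (q : ℝ) ^ η := by positivity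
  have key := Complex.norm_deriv_le_of_forall_mem_sphere_norm_le (c := s) (R := η / 4)
    (C := C * (q : ℝ) ^ η * (2 * (|s.im| + 2))) (f := LFunction χ) (by positivity)
    (differentiable_LFunction hχ).diffContOnCl (fun z hz => ?_)
  · refine key.trans_eq ?_
    field_simp
    ring
  · have hz' : ‖z - s‖ = η / 4 := mem_sphere_iff_norm.mp hz
    have a1 := Complex.abs_re_le_norm (z - s)
    rw [hz', Complex.sub_re, abs_le] at a1
    refine (H q χ hχ z (by linarith [a1.1])).trans (mul_le_mul_of_nonneg_left ?_ (by positivity))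
    have a2 : ‖z‖ ≤ ‖z - s‖ + ‖s‖ := by simpa using norm_add_le (z - s) s
    have a3 := Complex.norm_le_abs_re_add_abs_im s
    have a4 : |s.re| ≤ 3 := abs_le.mpr ⟨by linarith, hs2⟩
    have a5 := abs_nonneg s.im
    linarith

theorem logder_lip {η : ℝ} (h0 : 0 < η) (h1 : η ≤ 1) :
    ∃ D : ℝ, 0 < D ∧ ∀ (q : ℕ) [NeZero q] (χ : DirichletCharacter ℂ q), χ ≠ 1 → ∀ y : ℝ,
      (∀ z : ℂ, 1 - η / 4 ≤ z.re → z.re ≤ 3 → |z.im| ≤ |y| + 1 →
        ‖deriv (LFunction χ) z‖ ≤ D * ((q : ℝ) ^ η * (|y| + 2))) ∧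
      (∀ z w : ℂ, 1 - η / 4 ≤ z.re → z.re ≤ 3 → |z.im| ≤ |y| + 1 →
        1 - η / 4 ≤ w.re → w.re ≤ 3 → |w.im| ≤ |y| + 1 →
        ‖LFunction χ w - LFunction χ z‖ ≤ D * ((q : ℝ) ^ η * (|y| + 2)) * ‖w - z‖) := by
  obtain ⟨C, hC, H⟩ := norm_deriv_LFunction_le h0 h1
  refine ⟨2 * C, by positivity, fun q _ χ hχ y => ?_⟩
  have hq : 0 ≤ (q : ℝ) ^ η := by positivity
  have k1 : ∀ z : ℂ, 1 - η / 4 ≤ z.re → z.re ≤ 3 → |z.im| ≤ |y| + 1 →
      ‖deriv (LFunction χ) z‖ ≤ 2 * C * ((q : ℝ) ^ η * (|y| + 2)) := by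
    intro z a1 a2 a3
    refine (H q χ hχ z a1 a2).trans ?_
    have a4 : |z.im| + 2 ≤ 2 * (|y| + 2) := by linarith [abs_nonneg y]
    calc C * ((q : ℝ) ^ η * (|z.im| + 2)) ≤ C * ((q : ℝ) ^ η * (2 * (|y| + 2))) := by gcongr
      _ = _ := by ring
  refine ⟨k1, fun z w a1 a2 a3 b1 b2 b3 => ?_⟩
  have hK : Convex ℝ (({c : ℂ | 1 - η / 4 ≤ c.re} ∩ {c : ℂ | c.re ≤ 3}) ∩
      ({c : ℂ | -(|y| + 1) ≤ c.im} ∩ {c : ℂ | c.im ≤ |y| + 1})) :=
    ((convex_halfSpace_re_ge _).inter (convex_halfSpace_re_le _)).inter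
      ((convex_halfSpace_im_ge _).inter (convex_halfSpace_im_le _))
  exact hK.norm_image_sub_le_of_norm_deriv_le (fun x _ => differentiable_LFunction hχ x)
    (fun x hx => k1 x hx.1.1 hx.1.2 (abs_le.mpr ⟨hx.2.1, hx.2.2⟩))
    ⟨⟨a1, a2⟩, abs_le.mp a3⟩ ⟨⟨b1, b2⟩, abs_le.mp b3⟩

theorem logder_one_le_rpow {η : ℝ} (h0 : 0 < η) (q : ℕ) [NeZero q] : 1 ≤ (q : ℝ) ^ η :=
  Real.one_le_rpow (by exact_mod_cast Nat.one_le_iff_ne_zero.mpr (NeZero.ne q)) h0.le

theorem lower_bound {η : ℝ} (h0 : 0 < η) (h1 : η ≤ 1) :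
    ∃ c : ℝ, 0 < c ∧ ∀ (q : ℕ) [NeZero q] (χ : DirichletCharacter ℂ q), χ.IsPrimitive → χ ≠ 1 →
      ∀ s : ℂ, 1 < s.re → s.re ≤ 2 →
        c / ((q : ℝ) ^ η * (|s.im| + 2)) ^ 6 ≤ ‖LFunction χ s‖ := by
  obtain ⟨D, hD, HD⟩ := logder_lip h0 h1
  obtain ⟨c₃, hc₃, HS⟩ := siegel h0
  obtain ⟨C₁, hC₁, H1⟩ := norm_LFunction_le h0 h1
  obtain ⟨C₂, hC₂, H2⟩ := norm_LFunction_one_le h0 h1
  obtain ⟨a, ha0, ha1, ha2⟩ : ∃ a : ℝ, 0 < a ∧ a ≤ 1 ∧ 4 * D * a ≤ c₃ := by
    refine ⟨min 1 (c₃ / (4 * D)), by positivity, min_le_left _ _, ?_⟩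
    have := min_le_right 1 (c₃ / (4 * D))
    rwa [le_div_iff₀' (by positivity)] at this
  obtain ⟨E, hE⟩ : ∃ E : ℝ, E = 2 * C₁ + 2 * C₂ + 1 / a := ⟨_, rfl⟩
  have hE0 : 0 < E := by rw [hE]; positivity
  obtain ⟨b, hb0, hb1, hb2⟩ : ∃ b : ℝ, 0 < b ∧ b ≤ a ∧ 256 * D ^ 4 * E * b ≤ 1 := by
    refine ⟨min a (1 / (256 * D ^ 4 * E)), by positivity, min_le_left _ _, ?_⟩
    have := min_le_right a (1 / (256 * D ^ 4 * E))
    rwa [le_div_iff₀' (by positivity)] at this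
  refine ⟨min (b / 2) (min (c₃ / 2) (D * b)), by positivity, fun q _ χ hp hχ s hs1 hs2 => ?_⟩
  obtain ⟨-, HL⟩ := HD q χ hχ s.im
  have hq := logder_one_le_rpow h0 q
  have hy := abs_nonneg s.im
  obtain ⟨U, hU⟩ : ∃ U : ℝ, U = (q : ℝ) ^ η * (|s.im| + 2) := ⟨_, rfl⟩
  rw [← hU] at HL ⊢
  have hqU : (q : ℝ) ^ η ≤ U := by rw [hU]; nlinarith
  have hU1 : 1 ≤ U := hq.trans hqU
  have hU0 : 0 < U := by linarith
  have hU2 : U ≤ U ^ 2 := by nlinarith
  have hU26 : U ^ 2 ≤ U ^ 6 := pow_le_pow_right₀ hU1 (by norm_num)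
  obtain ⟨x, hx⟩ : ∃ x : ℝ, x = b / U ^ 6 := ⟨_, rfl⟩
  have hx0 : 0 < x := by rw [hx]; positivity
  have hxa : x ≤ a / U ^ 2 := by rw [hx]; gcongr
  have haU : a / U ^ 2 ≤ 1 := by
    rw [div_le_one (by positivity)]; linarith
  have hx1 : x ≤ 1 := hxa.trans haU
  rcases le_total x (s.re - 1) with hσ | hσ
  · refine le_trans ?_ (le_norm_LFunction χ hs1 hs2)
    calc min (b / 2) (min (c₃ / 2) (D * b)) / U ^ 6 ≤ (b / 2) / U ^ 6 := by
          gcongr; exact min_le_left _ _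
      _ = x / 2 := by rw [hx]; ring
      _ ≤ _ := by linarith
  by_cases hcase : χ ^ 2 = 1 ∧ |s.im| ≤ a / U ^ 2
  · have k1 := HS q χ hp hχ hcase.1
    have k2 := HL 1 s (by simp; linarith) (by simp) (by simp; positivity) (by linarith)
      (by linarith) (by linarith)
    have k3 : ‖s - 1‖ ≤ 2 * (a / U ^ 2) := by
      have := Complex.norm_le_abs_re_add_abs_im (s - 1)
      simp only [Complex.sub_re, Complex.one_re, Complex.sub_im, Complex.one_im, sub_zero] at this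
      rw [abs_of_nonneg (by linarith : 0 ≤ s.re - 1)] at this
      linarith [hcase.2]
    have k4 : D * U * ‖s - 1‖ ≤ c₃ / 2 / U := by
      calc D * U * ‖s - 1‖ ≤ D * U * (2 * (a / U ^ 2)) := by gcongr
        _ = (4 * D * a) / 2 / U := by field_simp; ring
        _ ≤ _ := by gcongr
    have k5 : c₃ / U ≤ c₃ / (q : ℝ) ^ η := by gcongr
    have k6 : ‖LFunction χ 1‖ ≤ ‖LFunction χ s‖ + ‖LFunction χ s - LFunction χ 1‖ := by
      simpa using norm_sub_le (LFunction χ s) (LFunction χ s - LFunction χ 1)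
    have k7 : c₃ / U = c₃ / 2 / U + c₃ / 2 / U := by ring
    calc min (b / 2) (min (c₃ / 2) (D * b)) / U ^ 6 ≤ (c₃ / 2) / U := by
          gcongr
          · exact (min_le_right _ _).trans (min_le_left _ _)
          · linarith
      _ ≤ _ := by linarith
  · have hre : ((1 : ℂ) + x + 2 * Complex.I * s.im).re = 1 + x := by simp
    have him : ((1 : ℂ) + x + 2 * Complex.I * s.im).im = 2 * s.im := by simp
    have hn : ‖(1 : ℂ) + x + 2 * Complex.I * s.im‖ ≤ 2 * (|s.im| + 2) := by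
      have := Complex.norm_le_abs_re_add_abs_im ((1 : ℂ) + x + 2 * Complex.I * s.im)
      rw [hre, him, abs_mul, abs_of_nonneg (by linarith : 0 ≤ 1 + x), abs_two] at this
      linarith
    have hqn : (q : ℝ) ^ η * ‖(1 : ℂ) + x + 2 * Complex.I * s.im‖ ≤ 2 * U ^ 2 := by
      calc _ ≤ (q : ℝ) ^ η * (2 * (|s.im| + 2)) := by gcongr
        _ = 2 * U := by rw [hU]; ring
        _ ≤ _ := by linarith
    have k1 : ‖LFunction (χ ^ 2) (1 + x + 2 * Complex.I * s.im)‖ ≤ E * U ^ 2 := by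
      by_cases h2 : χ ^ 2 = 1
      · have hy2 : a / U ^ 2 < |s.im| := by
          by_contra hc
          exact hcase ⟨h2, not_lt.mp hc⟩
        rw [h2]
        refine (H2 q _ (by rw [hre]; linarith)).trans ?_
        have e1 : |s.im| ≤ ‖(1 : ℂ) + x + 2 * Complex.I * s.im - 1‖ := by
          have := Complex.abs_im_le_norm ((1 : ℂ) + x + 2 * Complex.I * s.im - 1)
          rw [Complex.sub_im, him, Complex.one_im, sub_zero, abs_mul, abs_two] at this
          linarith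
        have e2 : 1 / ‖(1 : ℂ) + x + 2 * Complex.I * s.im - 1‖ ≤ 1 / a * U ^ 2 := by
          calc _ ≤ 1 / (a / U ^ 2) :=
                one_div_le_one_div_of_le (by positivity) (hy2.le.trans e1)
            _ = _ := by field_simp
        have e3 := mul_le_mul_of_nonneg_left hqn hC₂.le
        have e4 : 0 ≤ C₁ * U ^ 2 := by positivity
        rw [hE, mul_assoc C₂]
        nlinarith
      · refine (H1 q _ h2 _ (by rw [hre]; linarith)).trans ?_
        have e3 := mul_le_mul_of_nonneg_left hqn hC₁.le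
        have e4 : 0 ≤ C₂ * U ^ 2 := by positivity
        have e5 : 0 ≤ 1 / a * U ^ 2 := by positivity
        rw [hE, mul_assoc]
        nlinarith
    have k2 : ‖LFunctionTrivChar q (1 + x)‖ ≤ 2 / x := by
      have := norm_LFunction_le_inv (1 : DirichletCharacter ℂ q) (s := 1 + x)
        (by simp; linarith) (by simp; linarith)
      simpa [LFunctionTrivChar] using this
    have k3 := norm_LFunction_product_ge_one χ hx0 s.im
    rw [norm_mul, norm_mul, norm_pow, norm_pow] at k3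
    have k4 : 2 * D * U * x ≤ ‖LFunction χ (1 + x + Complex.I * s.im)‖ := by
      by_contra hc
      have hc' := (not_le.mp hc).le
      have e1 : ‖LFunctionTrivChar q (1 + x)‖ ^ 3 * ‖LFunction χ (1 + x + Complex.I * s.im)‖ ^ 4 *
          ‖LFunction (χ ^ 2) (1 + x + 2 * Complex.I * s.im)‖ ≤
          (2 / x) ^ 3 * (2 * D * U * x) ^ 4 * (E * U ^ 2) := by gcongr
      have e2 : (2 / x) ^ 3 * (2 * D * U * x) ^ 4 * (E * U ^ 2) = 128 * D ^ 4 * E * (x * U ^ 6) := by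
        field_simp
        ring
      have e3 : x * U ^ 6 = b := by rw [hx]; field_simp
      rw [e2, e3] at e1
      linarith
    have k5 := HL s (1 + x + Complex.I * s.im) (by linarith) (by linarith) (by linarith)
      (by simp; linarith) (by simp; linarith) (by simp)
    have k6 : ‖(1 : ℂ) + x + Complex.I * s.im - s‖ ≤ x := by
      have := Complex.norm_le_abs_re_add_abs_im ((1 : ℂ) + x + Complex.I * s.im - s)
      have e1 : ((1 : ℂ) + x + Complex.I * s.im - s).re = 1 + x - s.re := by simp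
      have e2 : ((1 : ℂ) + x + Complex.I * s.im - s).im = 0 := by simp
      rw [e1, e2, abs_zero, abs_of_nonneg (by linarith)] at this
      linarith
    have k7 : D * U * ‖(1 : ℂ) + x + Complex.I * s.im - s‖ ≤ D * U * x := by gcongr
    have k8 : ‖LFunction χ (1 + x + Complex.I * s.im)‖ ≤
        ‖LFunction χ (1 + x + Complex.I * s.im) - LFunction χ s‖ + ‖LFunction χ s‖ := by
      simpa using norm_add_le (LFunction χ (1 + x + Complex.I * s.im) - LFunction χ s)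
        (LFunction χ s)
    have k9 : D * 1 * x ≤ D * U * x := by gcongr
    calc min (b / 2) (min (c₃ / 2) (D * b)) / U ^ 6 ≤ (D * b) / U ^ 6 := by
          gcongr
          exact (min_le_right _ _).trans (min_le_right _ _)
      _ = D * 1 * x := by rw [hx]; ring
      _ ≤ _ := by linarith

theorem logder_iter (k : ℕ) (f : ℕ → ℂ) (n : ℕ) :
    LSeries.logMul^[k] f n = Complex.log n ^ k * f n := by
  induction k with
  | zero => simp
  | succ k ih =>
    rw [Function.iterate_succ_apply', LSeries.logMul, ih]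
    ring

theorem logder_bound (k : ℕ) {ε : ℝ} (hε : 0 < ε) :
    ∃ (C : ℝ) (j : ℕ), 0 < C ∧ ∀ (q : ℕ) [NeZero q] (χ : DirichletCharacter ℂ q),
      χ.IsPrimitive → χ ≠ 1 → ∀ s : ℂ, 1 < s.re → s.re ≤ 2 →
        ‖LSeries (fun n => (Real.log n : ℂ) ^ k * (ArithmeticFunction.vonMangoldt n : ℂ) * χ n) s‖ ≤
          C * (q : ℝ) ^ ε * (|s.im| + 2) ^ j := by
  obtain ⟨η, h0, h1, hη⟩ : ∃ η : ℝ, 0 < η ∧ η ≤ 1 ∧ η * ((7 * (k + 1) : ℕ) : ℝ) ≤ ε := by
    refine ⟨min 1 (ε / ((7 * (k + 1) : ℕ) : ℝ)), by positivity, min_le_left _ _, ?_⟩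
    have := min_le_right 1 (ε / ((7 * (k + 1) : ℕ) : ℝ))
    rwa [le_div_iff₀ (by positivity)] at this
  obtain ⟨D, hD, HD⟩ := logder_lip h0 h1
  obtain ⟨c, hc, Hc⟩ := lower_bound h0 h1
  obtain ⟨r, hr0, hr1, hr2⟩ : ∃ r : ℝ, 0 < r ∧ r ≤ η / 4 ∧ 2 * D * r ≤ c := by
    refine ⟨min (η / 4) (c / (2 * D)), by positivity, min_le_left _ _, ?_⟩
    have := min_le_right (η / 4) (c / (2 * D))
    rwa [le_div_iff₀' (by positivity)] at this
  refine ⟨k.factorial * (2 * D / c) / r ^ k, 7 * (k + 1), by positivity,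
    fun q _ χ hp hχ s hs1 hs2 => ?_⟩
  obtain ⟨HL', HL⟩ := HD q χ hχ s.im
  have Hs := Hc q χ hp hχ s hs1 hs2
  have hq := logder_one_le_rpow h0 q
  have hy := abs_nonneg s.im
  obtain ⟨U, hU⟩ : ∃ U : ℝ, U = (q : ℝ) ^ η * (|s.im| + 2) := ⟨_, rfl⟩
  rw [← hU] at HL HL' Hs
  have hU1 : 1 ≤ U := by rw [hU]; nlinarith
  have hU0 : 0 < U := by linarith
  have hρ : r / U ^ 7 ≤ η / 4 :=
    (div_le_self hr0.le (one_le_pow₀ hU1)).trans hr1
  have hball : ∀ z ∈ Metric.closedBall s (r / U ^ 7),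
      1 - η / 4 ≤ z.re ∧ z.re ≤ 3 ∧ |z.im| ≤ |s.im| + 1 := by
    intro z hz
    have hz' : ‖z - s‖ ≤ r / U ^ 7 := mem_closedBall_iff_norm.mp hz
    have a1 := Complex.abs_re_le_norm (z - s)
    have a2 := Complex.abs_im_le_norm (z - s)
    rw [Complex.sub_re, abs_le] at a1
    rw [Complex.sub_im] at a2
    have a3 : |z.im| ≤ |z.im - s.im| + |s.im| := by simpa using abs_add_le (z.im - s.im) s.im
    exact ⟨by linarith [a1.1], by linarith [a1.2], by linarith⟩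
  have hlow : ∀ z ∈ Metric.closedBall s (r / U ^ 7), c / 2 / U ^ 6 ≤ ‖LFunction χ z‖ := by
    intro z hz
    have hz' : ‖z - s‖ ≤ r / U ^ 7 := mem_closedBall_iff_norm.mp hz
    obtain ⟨a1, a2, a3⟩ := hball z hz
    have k1 := HL s z (by linarith) (by linarith) (by linarith) a1 a2 a3
    have k2 : D * U * ‖z - s‖ ≤ c / 2 / U ^ 6 := by
      calc D * U * ‖z - s‖ ≤ D * U * (r / U ^ 7) := by gcongr
        _ = (2 * D * r) / 2 / U ^ 6 := by field_simp
        _ ≤ _ := by gcongr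
    have k3 : ‖LFunction χ s‖ ≤ ‖LFunction χ z‖ + ‖LFunction χ z - LFunction χ s‖ := by
      simpa using norm_sub_le (LFunction χ z) (LFunction χ z - LFunction χ s)
    have k4 : c / U ^ 6 = c / 2 / U ^ 6 + c / 2 / U ^ 6 := by ring
    linarith
  have hpos : 0 < c / 2 / U ^ 6 := by positivity
  have hdiff : DifferentiableOn ℂ (fun z => -deriv (LFunction χ) z / LFunction χ z)
      (Metric.closedBall s (r / U ^ 7)) := by
    intro z hz
    have hne : LFunction χ z ≠ 0 := norm_pos_iff.mp (hpos.trans_le (hlow z hz))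
    exact ((((differentiable_LFunction hχ).deriv z).fun_neg).fun_div
      (differentiable_LFunction hχ z) hne).differentiableWithinAt
  have key := Complex.norm_iteratedDeriv_le_of_forall_mem_sphere_norm_le (c := s)
    (R := r / U ^ 7) (C := 2 * D / c * U ^ 7) k (by positivity)
    (hdiff.mono Metric.closure_ball_subset_closedBall).diffContOnCl (fun z hz => ?_)
  swap
  · have hz' := Metric.sphere_subset_closedBall hz
    obtain ⟨a1, a2, a3⟩ := hball z hz'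
    rw [norm_div, norm_neg]
    calc _ ≤ D * U / (c / 2 / U ^ 6) := by
          gcongr
          · exact HL' z a1 a2 a3
          · exact hlow z hz'
      _ = _ := by field_simp
  have hev : (fun z => -deriv (LFunction χ) z / LFunction χ z) =ᶠ[nhds s]
      LSeries ((fun n : ℕ => χ n) * fun n : ℕ => (ArithmeticFunction.vonMangoldt n : ℂ)) := by
    filter_upwards [(isOpen_lt continuous_const Complex.continuous_re).mem_nhds hs1] with z hz
    rw [LSeries_twist_vonMangoldt_eq χ hz, deriv_LFunction_eq_deriv_LSeries χ hz,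
      LFunction_eq_LSeries χ hz]
  have habs : LSeries.abscissaOfAbsConv
      ((fun n : ℕ => χ n) * fun n : ℕ => (ArithmeticFunction.vonMangoldt n : ℂ)) < s.re := by
    refine lt_of_le_of_lt (b := ((1 : ℝ) : EReal)) ?_ (by exact_mod_cast hs1)
    exact LSeries.abscissaOfAbsConv_le_of_forall_lt_LSeriesSummable fun y hy =>
      LSeriesSummable_twist_vonMangoldt χ (by simpa using hy)
  rw [hev.iteratedDeriv_eq k, LSeries_iteratedDeriv k habs, norm_mul, norm_pow, norm_neg, norm_one,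
    one_pow, one_mul] at key
  have e : (LSeries.logMul^[k]
      ((fun n : ℕ => χ n) * fun n : ℕ => (ArithmeticFunction.vonMangoldt n : ℂ))) =
      fun n : ℕ => (Real.log n : ℂ) ^ k * (ArithmeticFunction.vonMangoldt n : ℂ) * χ n := by
    funext n
    rw [logder_iter, Complex.natCast_log]
    simp only [Pi.mul_apply]
    ring
  rw [e] at key
  refine key.trans ?_
  have e2 : (k.factorial : ℝ) * (2 * D / c * U ^ 7) / (r / U ^ 7) ^ k =
      k.factorial * (2 * D / c) / r ^ k * U ^ (7 * (k + 1)) := by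
    rw [div_pow, ← pow_mul]
    field_simp
    ring
  have e3 : U ^ (7 * (k + 1)) ≤ (q : ℝ) ^ ε * (|s.im| + 2) ^ (7 * (k + 1)) := by
    rw [hU, mul_pow, ← Real.rpow_natCast ((q : ℝ) ^ η), ← Real.rpow_mul (Nat.cast_nonneg q)]
    gcongr
    exact_mod_cast Nat.one_le_iff_ne_zero.mpr (NeZero.ne q)
  rw [e2, mul_assoc _ ((q : ℝ) ^ ε)]
  gcongr

end Pool.Agent.MP_48b1c3_nt.H54
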