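import Pool.Agent.MP_48b1c3_nt.H54.Defs

/-! Test functions: bounds and Fourier representation. -/

/-
HINTS.  A Test function has compact support (HasCompactSupport.intro isCompact_Icc).  bound: v and deriv v are continuous with compact support, hence bounded
(Continuous.bounded_above_of_compact_support, HasCompactSupport.deriv); mean value inequality Convex.norm_image_sub_le_of_norm_deriv_le (or lipschitzWith_of_nnnorm_deriv_le).
rep: f = HasCompactSupport.toSchwartzMap, its Fourier transform g = 𝓕 f is a Schwartz map (SchwartzMap.fourierTransformCLM / the 𝓕 instance), so (|t|+2)^j ‖g t‖ is integrable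
(SchwartzMap.integrable_pow_mul; (|t|+2)^j ≤ 2^j (|t|^j + 2^j) by add_pow_le), Fourier inversion (Continuous.fourierInv_fourier_eq or the Schwartz version) gives
v u = ∫ g ξ exp (2 π I ξ u) dξ; put φ t = g (t/(2π)) / (2π) and rescale (MeasureTheory.Measure.integral_comp_mul_left, Integrable.comp_mul_left', Real.fourierInv_eq').
-/

namespace Pool.Agent.MP_48b1c3_nt.H54

open MeasureTheory

theorem Test.mul {v g : ℝ → ℂ} (hv : Test v) (hg : ContDiff ℝ (⊤ : ℕ∞) g) :
    Test fun u => g u * v u :=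
  ⟨hg.mul hv.1, fun u hu => by simp only [hv.2 u hu, mul_zero]⟩

theorem Test.sw_cs {v : ℝ → ℂ} (hv : Test v) : HasCompactSupport v :=
  HasCompactSupport.intro isCompact_Icc hv.2

theorem Test.bound {v : ℝ → ℂ} (hv : Test v) :
    ∃ C : ℝ, 0 < C ∧ (∀ u, ‖v u‖ ≤ C) ∧ ∀ u u', ‖v u - v u'‖ ≤ C * |u - u'| := by
  obtain ⟨C₁, h₁⟩ := hv.1.continuous.bounded_above_of_compact_support hv.sw_cs
  have hd : Differentiable ℝ v := hv.1.differentiable (by simp)
  have hc : Continuous (deriv v) := hv.1.continuous_deriv (by simp)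
  obtain ⟨C₂, h₂⟩ := hc.bounded_above_of_compact_support hv.sw_cs.deriv
  have p₁ : 0 ≤ C₁ := (norm_nonneg _).trans (h₁ 0)
  have p₂ : 0 ≤ C₂ := (norm_nonneg _).trans (h₂ 0)
  refine ⟨C₁ + C₂ + 1, by linarith, fun u => (h₁ u).trans (by linarith), fun u u' => ?_⟩
  have := Convex.norm_image_sub_le_of_norm_deriv_le (s := Set.univ) (f := v) (C := C₂)
    (fun x _ => hd x) (fun x _ => h₂ x) convex_univ (Set.mem_univ u') (Set.mem_univ u)
  rw [Real.norm_eq_abs] at this
  exact this.trans (mul_le_mul_of_nonneg_right (by linarith) (abs_nonneg _))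

open scoped FourierTransform Real in
theorem Test.rep {v : ℝ → ℂ} (hv : Test v) :
    ∃ φ : ℝ → ℂ, Continuous φ ∧ (∀ j : ℕ, Integrable fun t : ℝ => (|t| + 2) ^ j * ‖φ t‖) ∧
      ∀ u : ℝ, v u = ∫ t : ℝ, φ t * Complex.exp (Complex.I * t * u) := by
  set f : SchwartzMap ℝ ℂ := hv.sw_cs.toSchwartzMap hv.1 with hf
  set g : SchwartzMap ℝ ℂ := 𝓕 f with hg
  have hp : (0 : ℝ) < 2 * π := Real.two_pi_pos
  have hc : Continuous fun t : ℝ => g (t / (2 * π)) / (2 * π : ℝ) :=
    (g.continuous.comp (continuous_id.div_const _)).div_const _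
  refine ⟨fun t => g (t / (2 * π)) / (2 * π : ℝ), hc, fun j => ?_, fun u => ?_⟩
  · have i1 := ((g.integrable_pow_mul volume j).comp_div hp.ne').const_mul ((2 * π) ^ j)
    have i0 := (g.integrable.norm.comp_div hp.ne').const_mul ((2 : ℝ) ^ j)
    refine ((i1.add i0).const_mul (2 ^ (j - 1) / (2 * π))).mono'
      (((continuous_abs.add continuous_const).pow j).mul hc.norm).aestronglyMeasurable
      (Filter.Eventually.of_forall fun t => ?_)
    rw [Real.norm_of_nonneg (by positivity), norm_div, Complex.norm_real, Real.norm_of_nonneg hp.le]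
    have e : (2 * π) ^ j * ‖t / (2 * π)‖ ^ j = |t| ^ j := by
      rw [← mul_pow, norm_div, Real.norm_of_nonneg hp.le, Real.norm_eq_abs,
        mul_div_cancel₀ _ hp.ne']
    have h1 := mul_le_mul_of_nonneg_right (add_pow_le (abs_nonneg t) zero_le_two j)
      (div_nonneg (norm_nonneg (g (t / (2 * π)))) hp.le)
    refine h1.trans (le_of_eq ?_)
    simp only [Pi.add_apply]
    rw [← mul_assoc, ← e]
    ring
  · have inv : 𝓕⁻ (g : ℝ → ℂ) u = v u := by
      have h1 : (𝓕⁻ g : SchwartzMap ℝ ℂ) = f := FourierTransform.fourierInv_fourier_eq f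
      rw [← SchwartzMap.fourierInv_coe, h1]
      rfl
    rw [← inv, Real.fourierInv_eq']
    have := Measure.integral_comp_div (fun ξ : ℝ =>
      (Complex.exp ((2 * π * inner ℝ ξ u : ℝ) * Complex.I) • g ξ) / (2 * π : ℝ)) (2 * π)
    conv_rhs at this => rw [integral_div, abs_of_pos hp, Complex.real_smul,
      mul_div_cancel₀ _ (Complex.ofReal_ne_zero.2 hp.ne')]
    rw [← this]
    refine integral_congr_ae (Filter.Eventually.of_forall fun t => ?_)
    have e : (2 * π * inner ℝ (t / (2 * π)) u : ℝ) = t * u := by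
      simp only [RCLike.inner_apply, conj_trivial]
      field_simp
    simp only [e, smul_eq_mul]
    rw [show ((t * u : ℝ) : ℂ) * Complex.I = Complex.I * t * u by push_cast; ring]
    ring

end Pool.Agent.MP_48b1c3_nt.H54
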