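import Pool.Agent.MP_48b1c3_nt.H54.LogDer
import Pool.Agent.MP_48b1c3_nt.H54.TestFn

/-! The Siegel-Walfisz theorem in smoothed form. -/

/-
HINTS.  L = log x ≥ 1, u n = log (n / x), S j v χ x = ∑ n ∈ Icc 1 ⌊x⌋₊, (log n)^j Λ n χ n v (u n).
(1) Analytic bound: for every k, ε: ‖S k v χ x‖ ≤ C x q^ε.  Let V u = exp u * v u (Test.mul), so v (u n) = (x/n) V (u n); V u = ∫ φ t exp (I t u) (Test.rep).
For 0 < δ ≤ 1 and b n = (log n)^k Λ n χ n:  ∑' n, b n n^(-1-δ) V (u n) = ∫ φ t x^(-I t) LSeries b (1 + δ - I t) dt (exchange: hasSum_integral_of_summable_norm or integral_tsum;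
∑ ‖b n‖ n^(-1-δ) < ∞), whose norm is ≤ C q^ε ∫ (|t|+2)^j ‖φ t‖ by logder_bound.  The left side is the finite sum over Icc 1 ⌊x⌋₊ (V (u n) = 0 for n > x; n = 0 has Λ = 0).
Let δ → 0+ (le_of_tendsto, the finite sum is continuous in δ).
(2) With ε = 1/(B+1): q^ε ≤ L.  Let P j a be: for every Test v there is C with ‖S j v χ x‖ ≤ C x L^(j+1)/L^a for all admissible x, q, χ.
P j 0 is trivial (Λ n ≤ log n ≤ L, Test.bound).  (1) gives P j a for a ≤ j.  log n = L + u n gives S (j+1) v = L S j v + S j (fun u => u * v u), hence P (j+1) (a+1) and P j a imply P j (a+1).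
Induction on a, inner downward induction on j (prove P (a+1-i) (a+1) by induction on i, or use Nat.decreasingInduction).  The theorem is P 0 (A+1).
-/

namespace Pool.Agent.MP_48b1c3_nt.H54

open Finset

/-- the smoothed sums with logarithmic weights -/
noncomputable def sw_S (j : ℕ) (v : ℝ → ℂ) (f : ℕ → ℂ) (x : ℝ) : ℂ :=
  ∑ n ∈ Icc 1 ⌊x⌋₊,
    (Real.log n : ℂ) ^ j * (ArithmeticFunction.vonMangoldt n : ℂ) * f n * v (Real.log (n / x))

theorem sw_summable (k : ℕ) {q : ℕ} (χ : DirichletCharacter ℂ q) : ∀ s : ℂ, 1 < s.re →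
    LSeriesSummable
      (fun n => (Real.log n : ℂ) ^ k * (ArithmeticFunction.vonMangoldt n : ℂ) * χ n) s := by
  induction k with
  | zero =>
    intro s hs
    have := DirichletCharacter.LSeriesSummable_twist_vonMangoldt χ hs
    convert this using 2 with n
    simp [mul_comm]
  | succ k ih =>
    intro s hs
    have h1 := LSeries.abscissaOfAbsConv_le_of_forall_lt_LSeriesSummable (x := 1)
      (f := fun n => (Real.log n : ℂ) ^ k * (ArithmeticFunction.vonMangoldt n : ℂ) * χ n)
      fun y hy => ih y (by simpa using hy)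
    have := LSeriesSummable_logMul_of_lt_re (s := s) (h1.trans_lt (by exact_mod_cast hs))
    convert this using 2 with n
    rw [LSeries.logMul, Complex.natCast_log]
    ring

theorem sw_term (b : ℕ → ℂ) (hb : b 0 = 0) (δ t : ℝ) (n : ℕ) :
    LSeries.term b (1 + δ - Complex.I * t) n =
      b n * Complex.exp (-(1 + δ) * Real.log n) * Complex.exp (Complex.I * t * Real.log n) := by
  rcases eq_or_ne n 0 with rfl | hn
  · simp [hb]
  · rw [LSeries.term_of_ne_zero hn, Complex.cpow_def_of_ne_zero (Nat.cast_ne_zero.2 hn),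
      div_eq_mul_inv, ← Complex.exp_neg, mul_assoc, ← Complex.exp_add, Complex.natCast_log]
    congr 2
    ring

open MeasureTheory in
theorem sw_analytic (k : ℕ) {ε : ℝ} (hε : 0 < ε) {v : ℝ → ℂ} (hv : Test v) :
    ∃ C : ℝ, 0 < C ∧ ∀ x : ℝ, 0 < x → ∀ (q : ℕ) [NeZero q] (χ : DirichletCharacter ℂ q),
      χ.IsPrimitive → χ ≠ 1 → ‖sw_S k v (fun n => χ n) x‖ ≤ C * x * (q : ℝ) ^ ε := by
  have hV : Test fun u => Complex.exp u * v u :=
    hv.mul (Complex.contDiff_exp.comp Complex.ofRealCLM.contDiff)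
  obtain ⟨φ, φc, φi, hφ⟩ := hV.rep
  obtain ⟨C, j, C0, hC⟩ := logder_bound k hε
  have φ0 : Integrable φ := by
    have := φi 0
    simp only [pow_zero, one_mul] at this
    exact (integrable_norm_iff φc.aestronglyMeasurable).1 this
  set K := ∫ t : ℝ, (|t| + 2) ^ j * ‖φ t‖ with hK
  have K0 : 0 ≤ K := integral_nonneg fun t => by positivity
  refine ⟨C * K + 1, by positivity, fun x hx q _ χ hp h1 => ?_⟩
  set b : ℕ → ℂ :=
    fun n => (Real.log n : ℂ) ^ k * (ArithmeticFunction.vonMangoldt n : ℂ) * χ n with hb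
  have b0 : b 0 = 0 := by simp [hb]
  set T : ℝ → ℂ := fun δ => ∑ n ∈ Icc 1 ⌊x⌋₊, b n * Complex.exp (-(1 + δ) * Real.log n) *
    (Complex.exp (Real.log (n / x) : ℝ) * v (Real.log (n / x))) with hT
  have key : ∀ δ : ℝ, 0 < δ → δ ≤ 1 → ‖T δ‖ ≤ C * K * (q : ℝ) ^ ε := by
    intro δ d0 d1
    set F : ℕ → ℝ → ℂ := fun n t => φ t * Complex.exp (-(Complex.I * t * Real.log x)) *
      LSeries.term b (1 + δ - Complex.I * t) n with hF
    have nE : ∀ t y : ℝ, ‖Complex.exp (Complex.I * t * y)‖ = 1 := fun t y => by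
      rw [Complex.norm_exp]; simp
    have nE' : ∀ t y : ℝ, ‖Complex.exp (-(Complex.I * t * y))‖ = 1 := fun t y => by
      rw [Complex.norm_exp]; simp
    have nF : ∀ n t, ‖F n t‖ = ‖LSeries.term b (1 + δ - Complex.I * (0 : ℝ)) n‖ * ‖φ t‖ :=
      fun n t => by
        simp only [hF, sw_term b b0, norm_mul, nE, nE']
        ring
    have cF : ∀ n, Continuous (F n) := fun n => by
      simp only [hF, sw_term b b0]
      fun_prop
    have iF : ∀ n, Integrable (F n) := fun n =>
      (φ0.norm.const_mul _).mono' (cF n).aestronglyMeasurable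
        (Filter.Eventually.of_forall fun t => (nF n t).le)
    have sF : Summable fun n => ∫ t, ‖F n t‖ := by
      simp only [nF, integral_const_mul]
      exact (sw_summable k χ _ (by simpa using d0)).norm.mul_right _
    have hs := hasSum_integral_of_summable_integral_norm iF sF
    have eF : ∀ n, ∫ t, F n t = b n * Complex.exp (-(1 + δ) * Real.log n) *
        (Complex.exp (Real.log (n / x) : ℝ) * v (Real.log (n / x))) := fun n => by
      rcases eq_or_ne n 0 with rfl | hn
      · simp [hF, b0]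
      · rw [hφ, ← integral_const_mul]
        refine integral_congr_ae (Filter.Eventually.of_forall fun t => ?_)
        simp only [hF, sw_term b b0]
        rw [Real.log_div (Nat.cast_ne_zero.2 hn) hx.ne', Complex.ofReal_sub, mul_sub,
          sub_eq_add_neg, Complex.exp_add]
        ring
    simp only [eF] at hs
    have hs' : HasSum (fun n : ℕ => b n * Complex.exp (-(1 + δ) * Real.log n) *
        (Complex.exp (Real.log (n / x) : ℝ) * v (Real.log (n / x)))) (T δ) := by
      refine hasSum_sum_of_ne_finset_zero fun n hn => ?_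
      rcases eq_or_ne n 0 with rfl | hn0
      · simp [b0]
      · rw [mem_Icc, not_and, not_le] at hn
        have h2 : x < n := (Nat.floor_lt hx.le).1 (hn (Nat.one_le_iff_ne_zero.2 hn0))
        have h3 : 0 < Real.log (n / x) := Real.log_pos ((one_lt_div hx).2 h2)
        rw [hv.2 _ fun h => absurd h.2 (not_le.2 h3)]
        simp
    rw [hs'.unique hs]
    refine (norm_integral_le_of_norm_le ((φi j).const_mul (C * (q : ℝ) ^ ε))
      (Filter.Eventually.of_forall fun t => ?_)).trans (le_of_eq ?_)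
    · simp only [hF]
      rw [tsum_mul_left, norm_mul, norm_mul, nE', mul_one]
      have := hC q χ hp h1 (1 + δ - Complex.I * t) (by simpa using d0) (by simp; linarith)
      have e : |(1 + δ - Complex.I * t : ℂ).im| = |t| := by simp
      rw [e] at this
      refine (mul_le_mul_of_nonneg_left this (norm_nonneg _)).trans (le_of_eq ?_)
      ring
    · rw [integral_const_mul]; ring
  have cT : Continuous T := by
    simp only [hT]
    fun_prop
  have lim : ‖T 0‖ ≤ C * K * (q : ℝ) ^ ε := by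
    refine le_of_tendsto (x := nhdsWithin 0 (Set.Ioi 0))
      ((cT.norm.tendsto 0).mono_left nhdsWithin_le_nhds) ?_
    filter_upwards [Ioc_mem_nhdsGT (zero_lt_one' ℝ)] with δ hδ using key δ hδ.1 hδ.2
  have e : sw_S k v (fun n => χ n) x = x * T 0 := by
    simp only [sw_S, hT, mul_sum]
    refine sum_congr rfl fun n hn => ?_
    have hn0 : (0 : ℝ) < n := by exact_mod_cast (mem_Icc.1 hn).1
    have e1 : Complex.exp (Real.log (n / x) : ℝ) = n / x := by
      rw [← Complex.ofReal_exp, Real.exp_log (by positivity)]; push_cast; rfl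
    have e2 : Complex.exp (-(1 + (0 : ℝ)) * Real.log n) = (n : ℂ)⁻¹ := by
      rw [Complex.ofReal_zero, add_zero, neg_one_mul, Complex.exp_neg, ← Complex.ofReal_exp,
        Real.exp_log hn0, Complex.ofReal_natCast]
    have n0 : (n : ℂ) ≠ 0 := by exact_mod_cast hn0.ne'
    have x0 : (x : ℂ) ≠ 0 := by exact_mod_cast hx.ne'
    rw [e1, e2, hb]
    field_simp
  rw [e, norm_mul, Complex.norm_real, Real.norm_of_nonneg hx.le]
  have q0 : 0 ≤ (q : ℝ) ^ ε := by positivity
  nlinarith [mul_le_mul_of_nonneg_left lim hx.le, mul_nonneg hx.le q0]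

/-- the statement proved by a double induction -/
def sw_P (B j a : ℕ) : Prop :=
  ∀ v : ℝ → ℂ, Test v → ∃ C : ℝ, 0 < C ∧ ∀ x : ℝ, 3 ≤ x →
    ∀ (q : ℕ) [NeZero q] (χ : DirichletCharacter ℂ q), χ.IsPrimitive → χ ≠ 1 →
      (q : ℝ) ≤ Real.log x ^ B →
        ‖sw_S j v (fun n => χ n) x‖ ≤ C * x * Real.log x ^ (j + 1) / Real.log x ^ a

theorem sw_one_le {x : ℝ} (hx : 3 ≤ x) : 1 ≤ Real.log x := by
  rw [Real.le_log_iff_exp_le (by linarith)]
  linarith [Real.exp_one_lt_d9]

theorem sw_zero (B j : ℕ) : sw_P B j 0 := by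
  intro v hv
  obtain ⟨C, C0, hC, -⟩ := hv.bound
  refine ⟨C, C0, fun x hx q _ χ _ _ _ => ?_⟩
  have L1 := sw_one_le hx
  have h1 : ∀ n ∈ Icc 1 ⌊x⌋₊, ‖(Real.log n : ℂ) ^ j * (ArithmeticFunction.vonMangoldt n : ℂ) *
      χ n * v (Real.log (n / x))‖ ≤ Real.log x ^ j * Real.log x * 1 * C := fun n hn => by
    have hn0 : (0 : ℝ) < n := by exact_mod_cast (mem_Icc.1 hn).1
    have hn1 : Real.log n ≤ Real.log x :=
      Real.log_le_log hn0 ((Nat.le_floor_iff (by linarith)).1 (mem_Icc.1 hn).2)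
    have l0 := Real.log_natCast_nonneg n
    rw [norm_mul, norm_mul, norm_mul, norm_pow, Complex.norm_real, Complex.norm_real,
      Real.norm_of_nonneg l0, Real.norm_of_nonneg ArithmeticFunction.vonMangoldt_nonneg]
    have := ArithmeticFunction.vonMangoldt_le_log (n := n)
    have := ArithmeticFunction.vonMangoldt_nonneg (n := n)
    gcongr
    · linarith
    · exact χ.norm_le_one _
    · exact hC _
  refine (norm_sum_le _ _).trans ((sum_le_card_nsmul _ _ _ h1).trans ?_)
  rw [Nat.card_Icc, Nat.add_sub_cancel, nsmul_eq_mul, pow_zero, div_one, pow_succ]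
  have := mul_le_mul_of_nonneg_right (Nat.floor_le (by linarith : 0 ≤ x))
    (by positivity : 0 ≤ Real.log x ^ j * Real.log x * 1 * C)
  linarith

theorem sw_small (B : ℕ) {j a : ℕ} (h : a ≤ j) : sw_P B j a := by
  intro v hv
  obtain ⟨C, C0, hC⟩ := sw_analytic j (ε := 1 / ((B : ℝ) + 1)) (by positivity) hv
  refine ⟨C, C0, fun x hx q _ χ hp h1 hq => (hC x (by linarith) q χ hp h1).trans ?_⟩
  have L1 := sw_one_le hx
  have e1 : (q : ℝ) ^ (1 / ((B : ℝ) + 1)) ≤ Real.log x := by
    refine (Real.rpow_le_rpow (Nat.cast_nonneg q) hq (by positivity)).trans ?_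
    rw [← Real.rpow_natCast, ← Real.rpow_mul (by linarith)]
    refine (Real.rpow_le_rpow_of_exponent_le L1 (z := 1) ?_).trans (Real.rpow_one _).le
    rw [mul_one_div, div_le_one (by positivity)]
    linarith
  rw [mul_div_assoc]
  refine mul_le_mul_of_nonneg_left (e1.trans ?_) (by nlinarith)
  rw [le_div_iff₀ (by positivity), ← pow_succ']
  exact pow_le_pow_right₀ L1 (by omega)

theorem sw_step {B j a : ℕ} (h1 : sw_P B (j + 1) (a + 1)) (h2 : sw_P B j a) :
    sw_P B j (a + 1) := by
  intro v hv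
  obtain ⟨C₁, p₁, hC₁⟩ := h1 v hv
  obtain ⟨C₂, p₂, hC₂⟩ := h2 (fun u => (u : ℂ) * v u) (hv.mul Complex.ofRealCLM.contDiff)
  refine ⟨C₁ + C₂, by positivity, fun x hx q _ χ hp hn hq => ?_⟩
  have L1 := sw_one_le hx
  have L0 : 0 < Real.log x := by linarith
  have e : (Real.log x : ℂ) * sw_S j v (fun n => χ n) x = sw_S (j + 1) v (fun n => χ n) x -
      sw_S j (fun u => (u : ℂ) * v u) (fun n => χ n) x := by
    simp only [sw_S, mul_sum, ← sum_sub_distrib]
    refine sum_congr rfl fun n hn => ?_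
    have hn0 : (0 : ℝ) < n := by exact_mod_cast (mem_Icc.1 hn).1
    have : ((Real.log (n / x) : ℝ) : ℂ) = (Real.log n : ℝ) - (Real.log x : ℝ) := by
      rw [Real.log_div hn0.ne' (by linarith), Complex.ofReal_sub]
    rw [this]
    ring
  have b := norm_sub_le (sw_S (j + 1) v (fun n => χ n) x)
    (sw_S j (fun u => (u : ℂ) * v u) (fun n => χ n) x)
  rw [← e, norm_mul, Complex.norm_real, Real.norm_of_nonneg L0.le] at b
  have b1 := hC₁ x hx q χ hp hn hq
  have b2 := hC₂ x hx q χ hp hn hq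
  refine le_of_mul_le_mul_left (b.trans ((add_le_add b1 b2).trans (le_of_eq ?_))) L0
  field_simp
  ring

theorem sw_all (B a : ℕ) : ∀ j, sw_P B j a := by
  induction a with
  | zero => exact sw_zero B
  | succ a ih =>
    have key : ∀ i j, a + 1 ≤ j + i → sw_P B j (a + 1) := by
      intro i
      induction i with
      | zero => exact fun j h => sw_small B h
      | succ i ih' => exact fun j h => sw_step (ih' (j + 1) (by omega)) (ih j)
    exact fun j => key (a + 1) j (by omega)

theorem siegel_walfisz {v : ℝ → ℂ} (hv : Test v) (A B : ℕ) :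
    ∃ C : ℝ, 0 < C ∧ ∀ x : ℝ, 3 ≤ x → ∀ (q : ℕ) [NeZero q] (χ : DirichletCharacter ℂ q),
      χ.IsPrimitive → χ ≠ 1 → (q : ℝ) ≤ Real.log x ^ B →
        ‖psiW v (fun n => χ n) x‖ ≤ C * x / Real.log x ^ A := by
  obtain ⟨C, C0, hC⟩ := sw_all B (A + 1) 0 v hv
  refine ⟨C, C0, fun x hx q _ χ hp hn hq => ?_⟩
  have L0 : 0 < Real.log x := by linarith [sw_one_le hx]
  have := hC x hx q χ hp hn hq
  simp only [sw_S, pow_zero, one_mul] at this
  refine this.trans (le_of_eq ?_)
  field_simp
  ring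

end Pool.Agent.MP_48b1c3_nt.H54
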