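import Pool.Agent.MP_48b1c3_nt.H54.LBound

/-! Siegel's lower bound for `L(1, χ)`. -/

namespace Pool.Agent.MP_48b1c3_nt.H54

open Finset DirichletCharacter
open scoped ComplexOrder

theorem siegel_coef (H : ℂ → ℂ) (r : ℕ → ℂ) (hH : Differentiable ℂ H)
    (hL : ∀ s : ℂ, 1 < s.re → H s = (s - 1) * LSeries r s) (m : ℕ) :
    iteratedDeriv m (LSeries r) 2 =
      iteratedDeriv m (dslope H 1) 2 + H 1 * ((-1) ^ m * m.factorial) := by
  have hG : Differentiable ℂ (dslope H 1) := by
    rw [← differentiableOn_univ, Complex.differentiableOn_dslope Filter.univ_mem]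
    exact hH.differentiableOn
  have hev : LSeries r =ᶠ[nhds 2] fun s => dslope H 1 s + H 1 * (s - 1)⁻¹ := by
    have ho : IsOpen {s : ℂ | 1 < s.re} := Complex.continuous_re.isOpen_preimage _ isOpen_Ioi
    filter_upwards [ho.mem_nhds (show (2 : ℂ) ∈ {s : ℂ | 1 < s.re} by simp)] with s hs
    have h1 : s ≠ 1 := by
      rintro rfl
      simp at hs
    have h2 : s - 1 ≠ 0 := sub_ne_zero.2 h1
    rw [dslope_of_ne _ h1, slope_def_field, hL s hs]
    field_simp
    ring
  have hc : ContDiffAt ℂ m (fun s : ℂ => (s - 1)⁻¹) 2 :=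
    (contDiffAt_id.sub contDiffAt_const).inv (by norm_num)
  rw [hev.iteratedDeriv_eq, iteratedDeriv_fun_add hG.contDiff.contDiffAt
    (contDiffAt_const.mul hc), iteratedDeriv_const_mul _ hc]
  congr 2
  rw [iteratedDeriv_comp_sub_const m Inv.inv (1 : ℂ)]
  simp only [iteratedDeriv_eq_iterate, iter_deriv_inv]
  norm_num

theorem siegel_core (H : ℂ → ℂ) (r : ℕ → ℂ) (M β : ℝ) (hH : Differentiable ℂ H)
    (hM : ∀ s ∈ Metric.closedBall (2 : ℂ) (3 / 2), ‖H s‖ ≤ M) (hr : 0 ≤ r) (hr1 : r 1 = 1)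
    (hab : LSeries.abscissaOfAbsConv r ≤ 1)
    (hL : ∀ s : ℂ, 1 < s.re → H s = (s - 1) * LSeries r s)
    (hβ0 : 7 / 8 ≤ β) (hβ1 : β < 1) (hpos : 0 ≤ (H β).re) (N : ℕ) (hN : 0 < N) :
    (1 - β) * (1 - 16 * M * (3 / 4) ^ N) ≤ ‖H 1‖ * (2 - β) ^ N := by
  set G := dslope H 1 with hGdef
  have hG : Differentiable ℂ G := by
    rw [hGdef, ← differentiableOn_univ, Complex.differentiableOn_dslope Filter.univ_mem]
    exact hH.differentiableOn
  have hM1 : ‖H 1‖ ≤ M := hM 1 (by
    rw [Metric.mem_closedBall, dist_eq_norm]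
    norm_num)
  have hM0 : 0 ≤ M := (norm_nonneg _).trans hM1
  have hGb : ∀ z ∈ Metric.sphere (2 : ℂ) (3 / 2), ‖G z‖ ≤ 4 * M := by
    intro z hz
    have hz' : ‖z - 2‖ = 3 / 2 := by simpa [dist_eq_norm] using hz
    have h1 : 1 / 2 ≤ ‖z - 1‖ := by
      have := norm_sub_le (z - 1) 1
      rw [show z - 1 - 1 = z - 2 by ring, hz', norm_one] at this
      linarith
    have h2 : z ≠ 1 := by
      rintro rfl
      norm_num at h1
    rw [hGdef, dslope_of_ne _ h2, slope_def_field, norm_div, div_le_iff₀ (by linarith)]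
    have := norm_sub_le (H z) (H 1)
    have := hM z (Metric.sphere_subset_closedBall hz)
    nlinarith
  set t : ℝ := 2 - β with ht
  have ht1 : 1 < t := by linarith
  have ht2 : t ≤ 9 / 8 := by linarith
  set c : ℕ → ℂ := fun m => (m.factorial : ℂ)⁻¹ • ((β : ℂ) - 2) ^ m • iteratedDeriv m G 2 with hc
  have hsum : HasSum c (G β) := Complex.hasSum_taylorSeries_of_entire hG 2 β
  have hcn : ∀ m, ‖c m‖ ≤ 4 * M * (3 / 4) ^ m := by
    intro m
    have h1 := Complex.norm_iteratedDeriv_le_of_forall_mem_sphere_norm_le m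
      (by norm_num : (0 : ℝ) < 3 / 2) hG.diffContOnCl hGb
    have hf : (0 : ℝ) < m.factorial := by exact_mod_cast m.factorial_pos
    have h2 : ‖(β : ℂ) - 2‖ = t := by
      rw [show (β : ℂ) - 2 = ((β - 2 : ℝ) : ℂ) by push_cast; ring, Complex.norm_real,
        Real.norm_eq_abs, abs_of_neg (by linarith)]
      linarith
    simp only [hc, norm_smul, norm_inv, norm_pow, Complex.norm_natCast, h2]
    calc (m.factorial : ℝ)⁻¹ * (t ^ m * ‖iteratedDeriv m G 2‖)
        ≤ (m.factorial : ℝ)⁻¹ * ((9 / 8) ^ m * (m.factorial * (4 * M) / (3 / 2) ^ m)) := by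
          gcongr
      _ = 4 * M * ((9 / 8) / (3 / 2)) ^ m := by
          rw [div_pow (9 / 8 : ℝ)]
          field_simp
      _ = 4 * M * (3 / 4) ^ m := by norm_num
  have hab2 : LSeries.abscissaOfAbsConv r < (2 : ℝ) := hab.trans_lt (by exact_mod_cast one_lt_two)
  have hcre : ∀ m, (if m = 0 then 1 else 0) - t ^ m * ‖H 1‖ ≤ (c m).re := by
    intro m
    have hf : (m.factorial : ℂ) ≠ 0 := by exact_mod_cast m.factorial_ne_zero
    have h1 := LSeries.iteratedDeriv_alternating hr hab2 m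
    have h2 : c m = ((t ^ m / m.factorial : ℝ) : ℂ) *
        ((-1) ^ m * iteratedDeriv m (LSeries r) 2) - ((t ^ m : ℝ) : ℂ) * H 1 := by
      simp only [hc, smul_eq_mul]
      rw [siegel_coef H r hH hL m, show (β : ℂ) - 2 = -1 * (t : ℝ) by rw [ht]; push_cast; ring,
        mul_pow]
      have h3 : ((-1 : ℂ) ^ m) ^ 2 = 1 := by
        rw [← pow_mul, mul_comm, pow_mul]
        simp
      push_cast
      field_simp
      rw [← hGdef]
      linear_combination (-(H 1 * m.factorial)) * h3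
    have h4 : (if m = 0 then 1 else 0) ≤
        t ^ m / m.factorial * ((-1) ^ m * iteratedDeriv m (LSeries r) 2).re := by
      split_ifs with h
      · subst h
        have hs : LSeriesSummable r 2 :=
          LSeriesSummable_of_abscissaOfAbsConv_lt_re (by simpa using hab2)
        have h5 : LSeries.term r 2 1 ≤ LSeries r 2 :=
          hs.le_tsum 1 fun n _ => by simpa using LSeries.term_nonneg (hr n) 2
        have h6 := (Complex.le_def.1 h5).1
        simpa [LSeries.term_of_ne_zero, hr1] using h6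
      · have := (Complex.le_def.1 h1).1
        have h7 : (0 : ℝ) ≤ ((-1) ^ m * iteratedDeriv m (LSeries r) 2).re := by simpa using this
        positivity
    rw [h2, Complex.sub_re, Complex.re_ofReal_mul, Complex.re_ofReal_mul]
    have h8 : t ^ m * (H 1).re ≤ t ^ m * ‖H 1‖ :=
      mul_le_mul_of_nonneg_left (Complex.re_le_norm _) (by positivity)
    linarith
  have hre : HasSum (fun m => (c m).re) (G β).re := Complex.hasSum_re hsum
  have hgeo : HasSum (fun m : ℕ => -(4 * M * (3 / 4) ^ N) * (3 / 4 : ℝ) ^ m)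
      (-(4 * M * (3 / 4) ^ N) * (1 - 3 / 4)⁻¹) :=
    (hasSum_geometric_of_lt_one (by norm_num) (by norm_num)).mul_left _
  have htail := hasSum_le (fun m => ?_) hgeo ((hasSum_nat_add_iff' N).2 hre)
  swap
  · have h1 := hcn (m + N)
    have h2 := (abs_le.1 (Complex.abs_re_le_norm (c (m + N)))).1
    rw [pow_add] at h1
    linarith
  have hhead : 1 - (∑ m ∈ range N, t ^ m) * ‖H 1‖ ≤ ∑ m ∈ range N, (c m).re := by
    refine le_trans (le_of_eq ?_) (sum_le_sum fun m _ => hcre m)
    rw [sum_sub_distrib, sum_mul, sum_ite_eq']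
    simp [hN]
  have hgs : (∑ m ∈ range N, t ^ m) * (t - 1) = t ^ N - 1 := geom_sum_mul t N
  have hHβ : (H β).re = (H 1).re - (t - 1) * (G β).re := by
    have h1 : (β : ℂ) ≠ 1 := by exact_mod_cast hβ1.ne
    have h2 : H β = H 1 - ((t - 1 : ℝ) : ℂ) * G β := by
      have h3 : (β : ℂ) - 1 ≠ 0 := sub_ne_zero.2 h1
      rw [hGdef, dslope_of_ne _ h1, slope_def_field, ht]
      push_cast
      field_simp
      ring
    rw [h2, Complex.sub_re, Complex.re_ofReal_mul]
  have hGlow : 1 - (∑ m ∈ range N, t ^ m) * ‖H 1‖ - 16 * M * (3 / 4) ^ N ≤ (G β).re := by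
    norm_num at htail
    linarith
  have h9 := mul_le_mul_of_nonneg_left hGlow (by linarith : 0 ≤ t - 1)
  have h10 := Complex.re_le_norm (H 1)
  have h11 : 1 - β = t - 1 := by linarith
  rw [h11]
  have h12 : (t - 1) * ((∑ m ∈ range N, t ^ m) * ‖H 1‖) = (t ^ N - 1) * ‖H 1‖ := by
    rw [← hgs]
    ring
  nlinarith

theorem estermann : ∃ c : ℝ, 0 < c ∧ ∀ (H : ℂ → ℂ) (r : ℕ → ℂ) (M β : ℝ), Differentiable ℂ H →
    1 ≤ M → (∀ s ∈ Metric.closedBall (2 : ℂ) (3 / 2), ‖H s‖ ≤ M) → 0 ≤ r → r 1 = 1 →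
    LSeries.abscissaOfAbsConv r ≤ 1 → (∀ s : ℂ, 1 < s.re → H s = (s - 1) * LSeries r s) →
    7 / 8 ≤ β → β < 1 → 0 ≤ (H β).re → c * (1 - β) / M ^ (4 * (1 - β)) ≤ ‖H 1‖ := by
  refine ⟨1 / (2 * Real.exp (4 * Real.log 32 + 1)), by positivity, ?_⟩
  intro H r M β hH hM1 hM hr hr1 hab hL hβ0 hβ1 hpos
  have hM0 : 0 < M := by linarith
  have hl32 : 0 < Real.log 32 := Real.log_pos (by norm_num)
  have hlM : 0 ≤ Real.log M := Real.log_nonneg hM1
  have hlog : Real.log (32 * M) = Real.log 32 + Real.log M :=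
    Real.log_mul (by norm_num) hM0.ne'
  set N := ⌈4 * Real.log (32 * M)⌉₊ with hN
  have hN1 : 4 * Real.log (32 * M) ≤ N := Nat.le_ceil _
  have hN2 : (N : ℝ) < 4 * Real.log (32 * M) + 1 := Nat.ceil_lt_add_one (by linarith)
  have hN0 : 0 < N := Nat.ceil_pos.2 (by linarith)
  have hcore := siegel_core H r M β hH hM hr hr1 hab hL hβ0 hβ1 hpos N hN0
  have h1 : (3 / 4 : ℝ) ^ N ≤ (32 * M)⁻¹ := by
    calc (3 / 4 : ℝ) ^ N ≤ Real.exp (-1 / 4) ^ N := by
          have := Real.add_one_le_exp (-1 / 4)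
          gcongr
          linarith
      _ = Real.exp (N * (-1 / 4)) := (Real.exp_nat_mul _ _).symm
      _ ≤ Real.exp (-Real.log (32 * M)) := Real.exp_le_exp.2 (by linarith)
      _ = (32 * M)⁻¹ := by rw [Real.exp_neg, Real.exp_log (by positivity)]
  have h2 : 16 * M * (3 / 4 : ℝ) ^ N ≤ 1 / 2 := by
    calc 16 * M * (3 / 4 : ℝ) ^ N ≤ 16 * M * (32 * M)⁻¹ := by gcongr
      _ = 1 / 2 := by
          field_simp
          norm_num
  have h3 : (2 - β) ^ N ≤ Real.exp (4 * Real.log 32 + 1) * M ^ (4 * (1 - β)) := by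
    calc (2 - β) ^ N ≤ Real.exp (1 - β) ^ N := by
          have := Real.add_one_le_exp (1 - β)
          gcongr
          · linarith
          · linarith
      _ = Real.exp (N * (1 - β)) := (Real.exp_nat_mul _ _).symm
      _ ≤ Real.exp (4 * Real.log 32 + 1 + Real.log M * (4 * (1 - β))) := by
          refine Real.exp_le_exp.2 ?_
          rw [hlog] at hN2
          have h4 : (N : ℝ) * (1 - β) ≤ (4 * (Real.log 32 + Real.log M) + 1) * (1 - β) :=
            mul_le_mul_of_nonneg_right hN2.le (by linarith)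
          have h5 : (4 * Real.log 32 + 1) * (1 - β) ≤ (4 * Real.log 32 + 1) * 1 :=
            mul_le_mul_of_nonneg_left (by linarith) (by linarith)
          nlinarith
      _ = _ := by rw [Real.exp_add (4 * Real.log 32 + 1), Real.rpow_def_of_pos hM0]
  have hp : 0 < M ^ (4 * (1 - β)) := Real.rpow_pos_of_pos hM0 _
  have he := Real.exp_pos (4 * Real.log 32 + 1)
  have h6 : (1 - β) * (1 / 2) ≤ (1 - β) * (1 - 16 * M * (3 / 4) ^ N) :=
    mul_le_mul_of_nonneg_left (by linarith) (by linarith)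
  have h7 := mul_le_mul_of_nonneg_left h3 (norm_nonneg (H 1))
  rw [div_le_iff₀ hp, div_mul_eq_mul_div, div_le_iff₀ (by positivity)]
  nlinarith


/-- a Dirichlet character as an arithmetic function -/
noncomputable def siegel_T {q : ℕ} (χ : DirichletCharacter ℂ q) : ArithmeticFunction ℂ :=
  toArithmeticFunction (χ ·)

/-- the twisted von Mangoldt function -/
noncomputable def siegel_W {q : ℕ} (χ : DirichletCharacter ℂ q) : ArithmeticFunction ℂ :=
  toArithmeticFunction fun n => χ n * (ArithmeticFunction.vonMangoldt n : ℂ)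

/-- the logarithm -/
noncomputable def siegel_lg : ArithmeticFunction ℂ :=
  toArithmeticFunction fun n => (Real.log n : ℂ)

theorem siegel_W_apply {q : ℕ} (χ : DirichletCharacter ℂ q) (n : ℕ) :
    siegel_W χ n = χ n * (ArithmeticFunction.vonMangoldt n : ℂ) := by
  rcases eq_or_ne n 0 with rfl | hn
  · simp
  · simp [siegel_W, toArithmeticFunction, hn]

theorem siegel_lam (n : ℕ) : (0 : ℂ) ≤ (ArithmeticFunction.vonMangoldt n : ℂ) :=
  Complex.zero_le_real.2 ArithmeticFunction.vonMangoldt_nonneg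

/-- `f` has logarithmic derivative `W`, value `1` at `1` and Dirichlet series `F` -/
structure siegel_P (f W : ArithmeticFunction ℂ) (F : ℂ → ℂ) : Prop where
  der : siegel_lg.pmul f = W * f
  one : f 1 = 1
  wone : W 1 = 0
  sum : ∀ s : ℂ, 1 < s.re → LSeriesSummable f s
  val : ∀ s : ℂ, 1 < s.re → LSeries f s = F s

theorem siegel_lg_mul (f g : ArithmeticFunction ℂ) :
    siegel_lg.pmul (f * g) = siegel_lg.pmul f * g + f * siegel_lg.pmul g := by
  ext n
  simp only [ArithmeticFunction.pmul_apply, ArithmeticFunction.add_apply,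
    ArithmeticFunction.mul_apply, mul_sum, ← sum_add_distrib]
  refine sum_congr rfl fun p hp => ?_
  obtain ⟨h1, h2⟩ := Nat.mem_divisorsAntidiagonal.1 hp
  have h3 : p.1 ≠ 0 := Nat.left_ne_zero_of_mem_divisorsAntidiagonal hp
  have h4 : p.2 ≠ 0 := Nat.right_ne_zero_of_mem_divisorsAntidiagonal hp
  have h5 : Real.log n = Real.log p.1 + Real.log p.2 := by
    rw [← h1, Nat.cast_mul, Real.log_mul (by exact_mod_cast h3) (by exact_mod_cast h4)]
  simp only [siegel_lg, toArithmeticFunction, ArithmeticFunction.coe_mk, h2, h3, h4, if_false, h5]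
  push_cast
  ring

theorem siegel_P.mul {f W g V : ArithmeticFunction ℂ} {F G : ℂ → ℂ} (hf : siegel_P f W F)
    (hg : siegel_P g V G) : siegel_P (f * g) (W + V) (fun s => F s * G s) where
  der := by
    rw [siegel_lg_mul, hf.der, hg.der]
    ring
  one := by simp [hf.one, hg.one]
  wone := by simp [hf.wone, hg.wone]
  sum s hs := ArithmeticFunction.LSeriesSummable_mul (hf.sum s hs) (hg.sum s hs)
  val s hs := by
    rw [← hf.val s hs, ← hg.val s hs]
    exact ArithmeticFunction.LSeries_mul' (hf.sum s hs) (hg.sum s hs)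

theorem siegel_P_char {q : ℕ} [NeZero q] (χ : DirichletCharacter ℂ q) :
    siegel_P (siegel_T χ) (siegel_W χ) (LFunction χ) where
  der := by
    ext n
    rcases eq_or_ne n 0 with rfl | hn
    · simp
    rw [ArithmeticFunction.pmul_apply, ArithmeticFunction.mul_apply]
    have h1 : ∀ p ∈ n.divisorsAntidiagonal, siegel_W χ p.1 * siegel_T χ p.2 =
        χ n * (ArithmeticFunction.vonMangoldt p.1 : ℂ) := by
      intro p hp
      obtain ⟨h1, h2⟩ := Nat.mem_divisorsAntidiagonal.1 hp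
      have h3 : p.1 ≠ 0 := Nat.left_ne_zero_of_mem_divisorsAntidiagonal hp
      have h4 : p.2 ≠ 0 := Nat.right_ne_zero_of_mem_divisorsAntidiagonal hp
      simp only [siegel_W, siegel_T, toArithmeticFunction, ArithmeticFunction.coe_mk, h3, h4,
        if_false]
      rw [← h1, Nat.cast_mul, map_mul]
      ring
    rw [sum_congr rfl h1, ← mul_sum,
      Nat.sum_divisorsAntidiagonal fun a _ => (ArithmeticFunction.vonMangoldt a : ℂ),
      ← Complex.ofReal_sum, ArithmeticFunction.vonMangoldt_sum]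
    simp only [siegel_lg, siegel_T, toArithmeticFunction, ArithmeticFunction.coe_mk, hn, if_false]
    ring
  one := by simp [siegel_T, toArithmeticFunction]
  wone := by simp [siegel_W, toArithmeticFunction]
  sum s hs := (LSeriesSummable_congr _ fun h =>
    (χ.apply_eq_toArithmeticFunction_apply h).symm).mpr <| ZMod.LSeriesSummable_of_one_lt_re χ hs
  val s hs := by
    rw [χ.LFunction_eq_LSeries hs]
    exact (LSeries_congr χ.apply_eq_toArithmeticFunction_apply s).symm

theorem siegel_P.nonneg {f W : ArithmeticFunction ℂ} {F : ℂ → ℂ} (hf : siegel_P f W F)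
    (hW : ∀ n, 0 ≤ W n) (n : ℕ) : 0 ≤ f n := by
  induction n using Nat.strong_induction_on with
  | _ n ih =>
    rcases Nat.lt_or_ge n 2 with h | h
    · interval_cases n
      · simp
      · rw [hf.one]
        exact zero_le_one
    have hn : n ≠ 0 := by omega
    have hl : 0 < Real.log n := Real.log_pos (by exact_mod_cast h)
    have h1 : (Real.log n : ℂ) * f n = (W * f) n := by
      rw [← hf.der, ArithmeticFunction.pmul_apply]
      simp only [siegel_lg, toArithmeticFunction, ArithmeticFunction.coe_mk, hn, if_false]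
    have h2 : 0 ≤ (W * f) n := by
      rw [ArithmeticFunction.mul_apply]
      refine sum_nonneg fun p hp => ?_
      obtain ⟨h3, _⟩ := Nat.mem_divisorsAntidiagonal.1 hp
      have h4 : p.1 ≠ 0 := Nat.left_ne_zero_of_mem_divisorsAntidiagonal hp
      have h5 : p.2 ≠ 0 := Nat.right_ne_zero_of_mem_divisorsAntidiagonal hp
      rcases eq_or_ne p.1 1 with h6 | h6
      · rw [h6, hf.wone, zero_mul]
      · refine mul_nonneg (hW _) (ih _ ?_)
        rw [← h3]
        exact lt_mul_of_one_lt_left (Nat.pos_of_ne_zero h5) (by omega)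
    have h3 : f n = (((Real.log n)⁻¹ : ℝ) : ℂ) * (W * f) n := by
      have : (Real.log n : ℂ) ≠ 0 := by exact_mod_cast hl.ne'
      rw [← h1, Complex.ofReal_inv, inv_mul_cancel_left₀ this]
    rw [h3]
    exact mul_nonneg (Complex.zero_le_real.2 (inv_nonneg.2 hl.le)) h2

theorem siegel_one_add {q : ℕ} {χ : DirichletCharacter ℂ q} (h : χ ^ 2 = 1) (n : ℕ) :
    0 ≤ 1 + χ n := by
  rcases MulChar.isQuadratic_iff_sq_eq_one.mpr h n with h | h | h <;> rw [h] <;> norm_num

theorem siegel_triv (n : ℕ) : (1 : DirichletCharacter ℂ 1) n = 1 :=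
  MulChar.one_apply (isUnit_of_subsingleton _)

theorem siegel_W2 {q : ℕ} {χ : DirichletCharacter ℂ q} (h : χ ^ 2 = 1) (n : ℕ) :
    0 ≤ (siegel_W (1 : DirichletCharacter ℂ 1) + siegel_W χ) n := by
  rw [ArithmeticFunction.add_apply, siegel_W_apply, siegel_W_apply, siegel_triv, ← add_mul]
  exact mul_nonneg (siegel_one_add h n) (siegel_lam n)

theorem siegel_apply : ∃ c δ : ℝ, 0 < c ∧ 0 < δ ∧ δ ≤ 1 / 8 ∧
    ∀ (f W : ArithmeticFunction ℂ) (F : ℂ → ℂ) (M β : ℝ), siegel_P f W F → Differentiable ℂ F →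
      (∀ n, 0 ≤ (siegel_W (1 : DirichletCharacter ℂ 1) + W) n) → 1 ≤ M →
      (∀ s ∈ Metric.closedBall (2 : ℂ) (3 / 2), ‖F s‖ ≤ M) → 1 - δ ≤ β → β < 1 → 0 ≤ F β →
      c * (1 - β) / M ^ (4 * (1 - β)) ≤ ‖F 1‖ := by
  obtain ⟨c, hc, hE⟩ := estermann
  set Z := LFunctionTrivChar₁ 1 with hZ
  have hZd : Differentiable ℂ Z := differentiable_LFunctionTrivChar₁ 1
  have hZ1 : Z 1 = 1 := by simp [hZ]
  obtain ⟨B₀, hB₀⟩ := (isCompact_closedBall (2 : ℂ) (3 / 2)).exists_bound_of_continuousOn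
    hZd.continuous.continuousOn
  set B := max B₀ 1 with hB
  have hB1 : 1 ≤ B := le_max_right _ _
  have hcont : ContinuousAt (fun σ : ℝ => (Z σ).re) 1 :=
    (Complex.continuous_re.comp (hZd.continuous.comp Complex.continuous_ofReal)).continuousAt
  have hev : ∀ᶠ σ : ℝ in nhds 1, 0 < (Z σ).re :=
    hcont.eventually (lt_mem_nhds (by simp [hZ1]))
  obtain ⟨δ, hδ, hδ'⟩ := Metric.eventually_nhds_iff.1 hev
  refine ⟨c / B, min (δ / 2) (1 / 8), by positivity, by positivity, min_le_right _ _, ?_⟩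
  intro f W F M β hP hF hW hM1 hM hβ0 hβ1 hpos
  have hβ2 : 1 - δ / 2 ≤ β := le_trans (by linarith [min_le_left (δ / 2) (1 / 8)]) hβ0
  have hβ3 : 7 / 8 ≤ β := le_trans (by linarith [min_le_right (δ / 2) (1 / 8)]) hβ0
  have hP' := (siegel_P_char (1 : DirichletCharacter ℂ 1)).mul hP
  have hZβ : 0 < (Z β).re := hδ' (by
    rw [Real.dist_eq, abs_lt]
    constructor <;> linarith)
  have key := hE (fun s => Z s * F s) (siegel_T (1 : DirichletCharacter ℂ 1) * f :) (B * M) β
    (hZd.mul hF) (one_le_mul_of_one_le_of_one_le hB1 hM1)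
    (fun s hs => by
      rw [norm_mul]
      exact mul_le_mul ((hB₀ s hs).trans (le_max_left _ _)) (hM s hs) (norm_nonneg _)
        (by linarith))
    (hP'.nonneg hW) hP'.one
    (by exact_mod_cast LSeries.abscissaOfAbsConv_le_of_forall_lt_LSeriesSummable (x := 1)
          fun y hy => hP'.sum y (by simpa using hy))
    (fun s hs => by
      have h1 : s ≠ 1 := by
        rintro rfl
        simp at hs
      rw [hP'.val s hs, hZ, LFunctionTrivChar₁, Function.update_of_ne h1, mul_assoc])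
    hβ3 hβ1
    (by
      obtain ⟨h1, h2⟩ := Complex.le_def.1 hpos
      rw [Complex.mul_re, ← h2]
      simp only [Complex.zero_re, Complex.zero_im, mul_zero, sub_zero] at h1 ⊢
      positivity)
  rw [hZ1, one_mul, Real.mul_rpow (by linarith) (by linarith)] at key
  refine le_trans ?_ key
  have h1 : B ^ (4 * (1 - β)) ≤ B := by
    conv_rhs => rw [← Real.rpow_one B]
    exact Real.rpow_le_rpow_of_exponent_le hB1 (by linarith)
  have h2 : 0 < M ^ (4 * (1 - β)) := Real.rpow_pos_of_pos (by linarith) _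
  have h3 : 0 < B ^ (4 * (1 - β)) := Real.rpow_pos_of_pos (by linarith) _
  have h4 : 0 < 1 - β := by linarith
  rw [div_mul_eq_mul_div, div_div]
  gcongr

theorem siegel_ball : ∃ K : ℝ, 1 ≤ K ∧ ∀ (q : ℕ) [NeZero q] (χ : DirichletCharacter ℂ q), χ ≠ 1 →
    ∀ s ∈ Metric.closedBall (2 : ℂ) (3 / 2), ‖LFunction χ s‖ ≤ K * q := by
  obtain ⟨C, hC, h⟩ := norm_LFunction_le one_pos le_rfl
  refine ⟨max (C * (7 / 2)) 1, le_max_right _ _, fun q _ χ hχ s hs => ?_⟩
  have h1 : ‖s - 2‖ ≤ 3 / 2 := by simpa [dist_eq_norm] using hs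
  have h2 : 1 - 1 / 2 ≤ s.re := by
    have := (abs_le.1 ((Complex.abs_re_le_norm (s - 2)).trans h1)).1
    simp only [Complex.sub_re, Complex.re_ofNat] at this
    linarith
  have h3 : ‖s‖ ≤ 7 / 2 := by
    have := norm_add_le (s - 2) 2
    rw [sub_add_cancel, Complex.norm_ofNat] at this
    linarith
  have h4 := h q χ hχ s h2
  rw [Real.rpow_one] at h4
  calc ‖LFunction χ s‖ ≤ C * q * ‖s‖ := h4
    _ ≤ C * q * (7 / 2) := by gcongr
    _ = C * (7 / 2) * q := by ring
    _ ≤ _ := by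
        gcongr
        exact le_max_left _ _

theorem siegel_pos {q : ℕ} [NeZero q] (χ : DirichletCharacter ℂ q) (hχ : χ ≠ 1) (h2 : χ ^ 2 = 1)
    {β : ℝ} (h0 : 0 < β) (h1 : β < 1) (hz : ∀ σ : ℝ, β ≤ σ → σ < 1 → LFunction χ σ ≠ 0) :
    0 ≤ LFunction χ β := by
  have hcont : Continuous fun σ : ℝ => (LFunction χ σ).re :=
    Complex.continuous_re.comp
      ((differentiable_LFunction hχ).continuous.comp Complex.continuous_ofReal)
  have hP1 := siegel_P_char (1 : DirichletCharacter ℂ 1)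
  have hP := hP1.mul (siegel_P_char χ)
  have hpos : ∀ {f W : ArithmeticFunction ℂ} {F : ℂ → ℂ}, siegel_P f W F → (∀ n, 0 ≤ W n) →
      0 < F (2 : ℝ) := by
    intro f W F hf hW
    rw [← hf.val _ (by norm_num)]
    refine LSeries.positive (hf.nonneg hW) (by rw [hf.one]; exact zero_lt_one) ?_
    exact (LSeries.abscissaOfAbsConv_le_of_forall_lt_LSeriesSummable (x := 1)
      fun y hy => hf.sum y (by simpa using hy)).trans_lt (by exact_mod_cast one_lt_two)
  have ha := hpos hP1 fun n => by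
    rw [siegel_W_apply, siegel_triv, one_mul]
    exact siegel_lam n
  have hb := hpos hP (siegel_W2 h2)
  have hc : 0 < (LFunction χ (2 : ℝ)).re := by
    obtain ⟨a1, a2⟩ := Complex.lt_def.1 ha
    have b1 := (Complex.lt_def.1 hb).1
    simp only [Complex.mul_re, ← a2, Complex.zero_re, Complex.zero_im, zero_mul, sub_zero] at a1 b1
    exact (mul_pos_iff_of_pos_left a1).1 b1
  refine Complex.le_def.2 ⟨?_, (LFunction_im χ hχ h2 h0).symm⟩
  by_contra hneg
  rw [Complex.zero_re, not_le] at hneg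
  obtain ⟨σ, hσ, hσ0⟩ := intermediate_value_Icc (show β ≤ 2 by linarith) hcont.continuousOn
    (show (0 : ℝ) ∈ Set.Icc _ _ from ⟨hneg.le, hc.le⟩)
  have hL : LFunction χ σ = 0 :=
    Complex.ext hσ0 (LFunction_im χ hχ h2 (h0.trans_le hσ.1))
  rcases lt_or_ge σ 1 with h | h
  · exact hz σ hσ.1 h hL
  · exact LFunction_ne_zero_of_one_le_re χ (.inl hχ) (by simpa using h) hL

theorem siegel_prod {q₁ q : ℕ} (χ₁ : DirichletCharacter ℂ q₁) (χ : DirichletCharacter ℂ q)
    (n : ℕ) : (changeLevel (dvd_mul_right q₁ q) χ₁ * changeLevel (dvd_mul_left q q₁) χ) n =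
      χ₁ n * χ n := by
  rw [MulChar.mul_apply, ← Int.cast_natCast (R := ZMod (q₁ * q)), ← Int.cast_natCast (R := ZMod q₁),
    ← Int.cast_natCast (R := ZMod q)]
  by_cases h : IsCoprime (n : ℤ) (q₁ * q : ℕ)
  · rw [changeLevel_eq_cast_of_dvd' _ _ h, changeLevel_eq_cast_of_dvd' _ _ h]
  · rw [(apply_eq_zero_iff _ _).2 h, zero_mul]
    rw [Nat.cast_mul, IsCoprime.mul_right_iff, not_and_or] at h
    rcases h with h | h
    · rw [(apply_eq_zero_iff _ _).2 h, zero_mul]
    · rw [(apply_eq_zero_iff χ _).2 h, mul_zero]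

theorem siegel_same {q₁ q : ℕ} [NeZero q₁] [NeZero q] (χ₁ : DirichletCharacter ℂ q₁)
    (χ : DirichletCharacter ℂ q) (h₁ : χ₁.IsPrimitive) (h : χ.IsPrimitive) (h2 : χ ^ 2 = 1)
    (h3 : changeLevel (dvd_mul_right q₁ q) χ₁ * changeLevel (dvd_mul_left q q₁) χ = 1) :
    LFunction χ 1 = LFunction χ₁ 1 := by
  have h4 : changeLevel (dvd_mul_left q q₁) χ * changeLevel (dvd_mul_left q q₁) χ = 1 := by
    rw [← map_mul, ← sq, h2, map_one]
  have h5 : changeLevel (dvd_mul_right q₁ q) χ₁ = changeLevel (dvd_mul_left q q₁) χ :=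
    mul_right_cancel (h3.trans h4.symm)
  have h6 : q₁ = q := by
    have := congrArg conductor h5
    rwa [conductor_changeLevel, conductor_changeLevel, h₁, h] at this
  subst h6
  rw [changeLevel_injective _ h5]

theorem siegel {ε : ℝ} (hε : 0 < ε) : ∃ c : ℝ, 0 < c ∧
    ∀ (q : ℕ) [NeZero q] (χ : DirichletCharacter ℂ q), χ.IsPrimitive → χ ≠ 1 → χ ^ 2 = 1 →
      c / (q : ℝ) ^ ε ≤ ‖LFunction χ 1‖ := by
  obtain ⟨c, δ, hc, hδ, hδ8, hA⟩ := siegel_apply
  obtain ⟨K, hK, hB⟩ := siegel_ball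
  set e := min δ (ε / 16) with he
  have he0 : 0 < e := by positivity
  have he1 : e ≤ δ := min_le_left _ _
  have he2 : e ≤ ε / 16 := min_le_right _ _
  have hq1 : ∀ (q : ℕ) [NeZero q], (1 : ℝ) ≤ q := fun q _ => by
    exact_mod_cast Nat.pos_of_ne_zero (NeZero.ne q)
  have hpow : ∀ {x y : ℝ}, 1 ≤ x → y ≤ 1 → x ^ y ≤ x := fun {x y} hx hy => by
    conv_rhs => rw [← Real.rpow_one x]
    exact Real.rpow_le_rpow_of_exponent_le hx hy
  by_cases hex : ∃ (q₁ : ℕ) (_ : NeZero q₁) (χ₁ : DirichletCharacter ℂ q₁) (β : ℝ),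
      χ₁.IsPrimitive ∧ χ₁ ≠ 1 ∧ χ₁ ^ 2 = 1 ∧ 1 - e ≤ β ∧ β < 1 ∧ LFunction χ₁ β = 0
  · obtain ⟨q₁, _, χ₁, β, hp₁, hn₁, hs₁, hβ0, hβ1, hz⟩ := hex
    set η := min (ε / 2) 1 with hη
    have hη0 : 0 < η := by positivity
    have hη1 : η ≤ 1 := min_le_right _ _
    have hη2 : η ≤ ε / 2 := min_le_left _ _
    obtain ⟨C, hC, hD⟩ := norm_LFunction_le hη0 hη1
    have hL₁ : 0 < ‖LFunction χ₁ 1‖ := norm_pos_iff.2 (LFunction_apply_one_ne_zero hn₁)
    have hb : 0 < 1 - β := by linarith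
    have hq₁ := hq1 q₁
    set A : ℝ := K ^ 3 * (q₁ : ℝ) ^ 2 with hAdef
    have hA1 : 1 ≤ A := one_le_mul_of_one_le_of_one_le (one_le_pow₀ hK) (one_le_pow₀ hq₁)
    refine ⟨min ‖LFunction χ₁ 1‖ (c * (1 - β) / (A * ‖LFunction χ₁ 1‖ * (C * q₁))),
      by positivity, fun q _ χ hp hn hs => ?_⟩
    have hq := hq1 q
    have hqε : 1 ≤ (q : ℝ) ^ ε := Real.one_le_rpow hq hε.le
    by_cases h3 : changeLevel (dvd_mul_right q₁ q) χ₁ * changeLevel (dvd_mul_left q q₁) χ = 1
    · rw [siegel_same χ₁ χ hp₁ hp hs h3]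
      exact (div_le_self (by positivity) hqε).trans (min_le_left _ _)
    set χ₃ := changeLevel (dvd_mul_right q₁ q) χ₁ * changeLevel (dvd_mul_left q q₁) χ with hχ₃
    have key := hA _ _ _ (A * (q : ℝ) ^ (2 : ℝ)) β
      ((siegel_P_char χ₁).mul ((siegel_P_char χ).mul (siegel_P_char χ₃)))
      ((differentiable_LFunction hn₁).mul
        ((differentiable_LFunction hn).mul (differentiable_LFunction h3)))
      (fun n => by
        simp only [ArithmeticFunction.add_apply, siegel_W_apply, siegel_triv, hχ₃, siegel_prod]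
        have := mul_nonneg (mul_nonneg (siegel_one_add hs₁ n) (siegel_one_add hs n)) (siegel_lam n)
        refine this.trans_eq ?_
        ring)
      (one_le_mul_of_one_le_of_one_le hA1 (Real.one_le_rpow hq zero_le_two))
      (fun s hs' => by
        rw [norm_mul, norm_mul]
        have a1 := hB q₁ χ₁ hn₁ s hs'
        have a2 := hB q χ hn s hs'
        have a3 := hB (q₁ * q) χ₃ h3 s hs'
        calc _ ≤ K * q₁ * (K * q * (K * (q₁ * q : ℕ))) := by gcongr
          _ = _ := by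
            rw [hAdef, Real.rpow_two]
            push_cast
            ring)
      (by linarith) hβ1 (by simp [hz])
    have b1 : ‖LFunction χ₃ 1‖ ≤ C * q₁ * (q : ℝ) ^ (ε / 2) := by
      have := hD (q₁ * q) χ₃ h3 1 (by simp only [Complex.one_re]; linarith)
      rw [norm_one, mul_one, Nat.cast_mul, Real.mul_rpow (by positivity) (by positivity)] at this
      refine this.trans ?_
      rw [mul_assoc]
      gcongr
      exact hpow hq₁ hη1
    have b2 : (A * (q : ℝ) ^ (2 : ℝ)) ^ (4 * (1 - β)) ≤ A * (q : ℝ) ^ (ε / 2) := by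
      rw [Real.mul_rpow (by positivity) (by positivity), ← Real.rpow_mul (by positivity)]
      gcongr
      · exact hpow hA1 (by linarith)
      · linarith
    have b3 : (q : ℝ) ^ ε = (q : ℝ) ^ (ε / 2) * (q : ℝ) ^ (ε / 2) := by
      rw [← Real.rpow_add (by positivity), add_halves]
    have b4 : 0 < (q : ℝ) ^ (ε / 2) := by positivity
    rw [norm_mul, norm_mul, div_le_iff₀ (by positivity)] at key
    refine le_trans (div_le_div_of_nonneg_right (min_le_right _ _) (by positivity)) ?_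
    rw [div_div, div_le_iff₀ (by positivity)]
    refine key.trans ?_
    calc _ ≤ ‖LFunction χ₁ 1‖ * (‖LFunction χ 1‖ * (C * q₁ * (q : ℝ) ^ (ε / 2))) *
          (A * (q : ℝ) ^ (ε / 2)) := by gcongr
      _ = _ := by
          rw [b3]
          ring
  · refine ⟨c * e / K, by positivity, fun q _ χ hp hn hs => ?_⟩
    have hq := hq1 q
    have hpos := siegel_pos χ hn hs (β := 1 - e) (by linarith) (by linarith)
      fun σ h1 h2 h3 => hex ⟨q, inferInstance, χ, σ, hp, hn, hs, h1, h2, h3⟩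
    have key := hA _ _ _ (K * q) (1 - e) (siegel_P_char χ) (differentiable_LFunction hn)
      (siegel_W2 hs) (one_le_mul_of_one_le_of_one_le hK hq) (hB q χ hn) (by linarith)
      (by linarith) hpos
    rw [sub_sub_cancel, Real.mul_rpow (by positivity) (by positivity)] at key
    refine le_trans ?_ key
    rw [div_div]
    gcongr
    · exact hpow hK (by linarith)
    · linarith

end Pool.Agent.MP_48b1c3_nt.H54
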