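import Pool.Agent.MP_48b1c3_nt.H54.BV
import Pool.Agent.MP_48b1c3_nt.H54.Sieve

/-! Primes `p` in a progression such that `p - 1` has no prime factor in `(z, x ^ α]`. -/

/-
HINTS.  α = 1/4000, L = log x, y = x^α, Lg = 56 log y.  `sieve` with P = primes q not dividing M with q ≤ l₀ or z < q ≤ y (all are ≥ 3 and ≤ y), g q = 1/(q-1), l q = log q / Lg,
Ω = (Icc 1 ⌊x⌋₊).filter (· ≡ c [MOD M]), a = wt x, ω q n = (n ≡ 1 [MOD q]), X = (∑ n ∈ Icc 1 ⌊x⌋₊, wt x n)/φ M.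
∑ g l ≤ 2 (3 log y + C)/Lg ≤ 1/8 (mertens1) for large x.  For S ⊆ P with ∑ l ≤ 3: N = M ∏ S ≤ M x^(168 α) ≤ x^(1/20); the conditions are n ≡ a N [MOD N] for a suitable a N coprime to N
(Nat.chineseRemainder, Nat.modEq_and_modEq_iff_modEq_mul; one may take the class of the unique solution, a function of N: chineseRemainder of (c mod M, 1 mod N/M)), φ N = φ M ∏ (q-1), so the remainder is Err x N (a N);
S ↦ N is injective (S = primeFactors N \ primeFactors M) and #S ≤ #N.primeFactors.  bombieri_vinogradov 64 2 gives R = C x/L^2.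
wt_sum_lower: bump = 1 on [-3,-1] (bump_eq_one), so the sum is ≥ θ (x/e) - θ (x/e^3) ≥ (x/e) (log 2 - o(1) - log 4/e^2) (Chebyshev.theta_ge', theta_le_log4_mul_x).
V = ∏ (1 - g q) ≥ (1/l₀) exp (-∑_{z<q≤y} 1/q - C) ≥ c log z/(l₀ log y): primes ≤ l₀: ∏_{m=3}^{l₀} (m-2)/(m-1) = 1/(l₀-1) (or 1); for q ≥ 3: 1 - 1/(q-1) ≥ exp (-1/(q-2)), 1/(q-2) ≤ 1/q + 6/q^2; mertens2 at y and z.
So the sifted weight is ≥ c' x log z/(l₀ φ M L) - C x/L^2 ≥ half of the main term for large x (log z ≥ 1), every n with wt x n ≠ 0 lies in PI (x/e^4) x (mem_PI_of_wt) and has wt ≤ L (wt_le); n ≡ 1 [MOD q] ↔ q ∣ n - 1.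
-/

namespace Pool.Agent.MP_48b1c3_nt.H54

open Finset Filter

theorem wt_sum_lower : ∀ᶠ x : ℝ in atTop, x / 10 ≤ ∑ n ∈ Icc 1 ⌊x⌋₊, wt x n := by
  have h1 := (isLittleO_log_rpow_atTop (r := 1 / 2) (by norm_num)).bound
    (c := 1 / 200) (by norm_num)
  filter_upwards [h1, eventually_ge_atTop 10000] with x h1 hx
  have hx0 : 0 < x := by linarith
  have hs := Real.sq_sqrt hx0.le
  have hs1 : 100 ≤ √x := Real.le_sqrt_of_sq_le (by linarith)
  rw [← Real.sqrt_eq_rpow, Real.norm_of_nonneg (Real.log_nonneg (by linarith)),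
    Real.norm_of_nonneg (by linarith)] at h1
  have h2 := Chebyshev.theta_ge' (x := x / 3) (by linarith)
  have h3 := Chebyshev.theta_le_log4_mul_x (x := x / 16) (by linarith)
  have h4 : Real.log (x / 3 + 2) ≤ Real.log x := Real.log_le_log (by linarith) (by linarith)
  have h5 : √(x / 3) * Real.log (x / 3) ≤ √x * (1 / 200 * √x) :=
    mul_le_mul (Real.sqrt_le_sqrt (by linarith))
      ((Real.log_le_log (by linarith) (by linarith)).trans h1) (Real.log_nonneg (by linarith))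
      (by linarith)
  have h6 : Chebyshev.theta (x / 3) - Chebyshev.theta (x / 16) ≤ ∑ n ∈ Icc 1 ⌊x⌋₊, wt x n := by
    have h7 : ⌊x / 16⌋₊ ≤ ⌊x / 3⌋₊ := Nat.floor_mono (by linarith)
    have h8 : ⌊x / 3⌋₊ ≤ ⌊x⌋₊ := Nat.floor_mono (by linarith)
    rw [Chebyshev.theta, Chebyshev.theta, sum_filter, sum_filter,
      ← sum_Ioc_consecutive _ (Nat.zero_le _) h7, add_sub_cancel_left]
    refine le_trans (le_of_eq (sum_congr rfl fun n hn => ?_)) (sum_le_sum_of_subset_of_nonneg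
      (fun n hn => by rw [mem_Ioc] at hn; rw [mem_Icc]; omega) fun n _ _ => wt_nonneg x n)
    rw [mem_Ioc, Nat.floor_lt (by linarith), Nat.le_floor_iff (by linarith)] at hn
    have h9 : 0 < n / x := div_pos (by linarith) hx0
    have e1 := Real.exp_one_gt_d9
    have e2 := Real.exp_one_lt_d9
    rw [wt, bump_eq_one, mul_one]
    · rw [Real.le_log_iff_exp_le h9, le_div_iff₀ hx0, Real.exp_neg, inv_mul_le_iff₀ (by positivity),
        show (3 : ℝ) = (3 : ℕ) * 1 by norm_num, Real.exp_nat_mul]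
      have : (16 : ℝ) ≤ Real.exp 1 ^ 3 := le_trans (by norm_num) (pow_le_pow_left₀ (by norm_num) e1.le 3)
      nlinarith [hn.1]
    · rw [Real.log_le_iff_le_exp h9, div_le_iff₀ hx0, Real.exp_neg, le_inv_mul_iff₀ (by positivity)]
      nlinarith [hn.2, n.cast_nonneg (α := ℝ)]
  have h7 : Real.log 4 = 2 * Real.log 2 := by
    rw [show (4 : ℝ) = 2 ^ 2 by norm_num, Real.log_pow]; norm_num
  have h8 := Real.log_two_gt_d9
  have h9 := Real.log_two_lt_d9
  rw [h7] at h3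
  nlinarith

theorem sifted_small (l : ℕ) (hl : 0 < l) :
    (1 : ℝ) / l ≤ ∏ m ∈ Ioc 2 l, (1 - 1 / ((m : ℝ) - 1)) := by
  have h : ∀ l : ℕ, 2 ≤ l → ∏ m ∈ Ioc 2 l, (1 - 1 / ((m : ℝ) - 1)) = 1 / ((l : ℝ) - 1) := by
    intro l hl
    induction l, hl using Nat.le_induction with
    | base => norm_num
    | succ n hn ih =>
      have h1 : (2 : ℝ) ≤ n := by exact_mod_cast hn
      have h2 : (n : ℝ) - 1 ≠ 0 := by linarith
      have h3 : (n : ℝ) ≠ 0 := by linarith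
      rw [prod_Ioc_succ_top hn, ih]
      push_cast
      rw [add_sub_cancel_right]
      field_simp
  rcases Nat.lt_or_ge l 2 with h1 | h1
  · obtain rfl : l = 1 := by omega
    simp
  · have h2 : (2 : ℝ) ≤ l := by exact_mod_cast h1
    rw [h l h1]
    exact one_div_le_one_div_of_le (by linarith) (by linarith)

theorem sifted_large : ∃ c : ℝ, 0 < c ∧ ∀ z y : ℝ, 3 ≤ z → z ≤ y →
    c * (Real.log z / Real.log y) ≤ ∏ q ∈ PI z y, (1 - 1 / ((q : ℝ) - 1)) := by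
  obtain ⟨C, -, hC⟩ := mertens2
  refine ⟨Real.exp (-(2 * C + 2)), Real.exp_pos _, fun z y hz hy => ?_⟩
  have h4 : ∀ q ∈ PI z y, (4 : ℝ) ≤ q := fun q hq => by
    have : 3 < q := by exact_mod_cast hz.trans_lt (mem_PI.1 hq).1
    exact_mod_cast this
  have h1 : ∑ q ∈ PI 0 y, (1 : ℝ) / q = ∑ q ∈ PI 0 z, (1 : ℝ) / q + ∑ q ∈ PI z y, (1 : ℝ) / q := by
    simp only [PI, sum_filter]
    exact (sum_Ioc_consecutive _ (Nat.floor_mono (by linarith)) (Nat.floor_mono hy)).symm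
  have h2 : ∑ q ∈ PI z y, ((q : ℝ) ^ 2)⁻¹ ≤ 1 / 3 := by
    have h3 : 3 ≤ ⌊z⌋₊ := Nat.le_floor (by exact_mod_cast hz)
    have h5 := sum_Ioc_inv_sq_le_sub (α := ℝ) (k := 3) (n := ⌊y⌋₊) (by norm_num)
      (h3.trans (Nat.floor_mono hy))
    refine le_trans (sum_le_sum_of_subset_of_nonneg ((filter_subset _ _).trans
      (Ioc_subset_Ioc_left h3)) fun _ _ _ => by positivity) (h5.trans ?_)
    have : (0 : ℝ) ≤ (⌊y⌋₊ : ℝ)⁻¹ := by positivity
    push_cast
    linarith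
  have h5 : ∏ q ∈ PI z y, Real.exp (-(1 / q + 4 * ((q : ℝ) ^ 2)⁻¹)) ≤
      ∏ q ∈ PI z y, (1 - 1 / ((q : ℝ) - 1)) := by
    refine prod_le_prod (fun _ _ => (Real.exp_pos _).le) fun q hq => ?_
    have h6 := h4 q hq
    have h7 : 1 / ((q : ℝ) - 2) ≤ 1 / q + 4 * ((q : ℝ) ^ 2)⁻¹ := by
      rw [← div_eq_mul_inv, div_add_div _ _ (by positivity) (by positivity),
        div_le_div_iff₀ (by linarith) (by positivity)]
      nlinarith [mul_nonneg (mul_nonneg (sub_nonneg.2 h6) (sub_nonneg.2 h6)) (sub_nonneg.2 h6),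
        mul_nonneg (sub_nonneg.2 h6) (sub_nonneg.2 h6)]
    have h8 := (Real.add_one_le_exp _).trans (Real.exp_le_exp.2 h7)
    have h9 : (q : ℝ) - 2 ≠ 0 := by linarith
    have h10 : (q : ℝ) - 1 ≠ 0 := by linarith
    rw [Real.exp_neg]
    refine (inv_anti₀ (by have : 0 < 1 / ((q : ℝ) - 2) := one_div_pos.2 (by linarith); linarith)
      h8).trans (le_of_eq ?_)
    rw [show 1 / ((q : ℝ) - 2) + 1 = (q - 1) / (q - 2) by field_simp; ring]
    field_simp
    ring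
  refine le_trans ?_ h5
  have h6 : 0 < Real.log z := Real.log_pos (by linarith)
  have h7 : 0 < Real.log y := Real.log_pos (by linarith)
  rw [← Real.exp_sum, ← Real.exp_log (div_pos h6 h7), ← Real.exp_add, Real.exp_le_exp,
    Real.log_div h6.ne' h7.ne', sum_neg_distrib, sum_add_distrib, ← mul_sum]
  linarith [(abs_le.1 (hC z (by linarith))).1, (abs_le.1 (hC y (by linarith))).2]

theorem sifted_totient (S : Finset ℕ) (hS : ∀ q ∈ S, q.Prime) :
    ((∏ q ∈ S, q).totient : ℝ) = ∏ q ∈ S, ((q : ℝ) - 1) := by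
  induction S using Finset.induction_on with
  | empty => simp
  | insert q S hq ih =>
    have h1 := hS q (mem_insert_self _ _)
    have h2 : ∀ p ∈ S, p.Prime := fun p hp => hS p (mem_insert_of_mem hp)
    rw [prod_insert hq, prod_insert hq, Nat.totient_mul (Nat.Coprime.prod_right fun p hp =>
      (Nat.coprime_primes h1 (h2 p hp)).2 fun h => hq (h ▸ hp)), Nat.cast_mul, ih h2,
      Nat.totient_prime h1, Nat.cast_pred h1.pos]

open Classical in
theorem sifted_rem {M c : ℕ} (hM : 0 < M) (hc : c.Coprime M) (x Q R : ℝ) (T : Finset (Finset ℕ))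
    (hT : ∀ S ∈ T, (∀ q ∈ S, q.Prime ∧ ¬ q ∣ M) ∧ ((M * ∏ q ∈ S, q : ℕ) : ℝ) ≤ Q)
    (hR : ∀ (D : Finset ℕ) (a : ℕ → ℕ), (∀ N ∈ D, 0 < N ∧ (N : ℝ) ≤ Q ∧ (a N).Coprime N) →
      ∑ N ∈ D, ((64 : ℕ) : ℝ) ^ #N.primeFactors * |Err x N (a N)| ≤ R) :
    ∑ S ∈ T, 64 ^ #S * |∑ n ∈ ((Icc 1 ⌊x⌋₊).filter fun n => n ≡ c [MOD M]).filter
      (fun n => ∀ q ∈ S, q ∣ n - 1), wt x n -
      (∑ n ∈ Icc 1 ⌊x⌋₊, wt x n) / M.totient * ∏ q ∈ S, 1 / ((q : ℝ) - 1)| ≤ R := by
  have h1 : ∀ N : ℕ, ∃ a : ℕ, M.Coprime (N / M) → a ≡ c [MOD M] ∧ a ≡ 1 [MOD N / M] := fun N => by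
    by_cases h : M.Coprime (N / M)
    · exact ⟨_, fun _ => (Nat.chineseRemainder h c 1).2⟩
    · exact ⟨0, fun h' => absurd h' h⟩
  choose a ha using h1
  have hp : ∀ S ∈ T, ∀ q ∈ S, q.Prime := fun S hS q hq => ((hT S hS).1 q hq).1
  have h0 : ∀ S ∈ T, 0 < M * ∏ q ∈ S, q := fun S hS =>
    Nat.mul_pos hM (prod_pos fun q hq => (hp S hS q hq).pos)
  have h2 : ∀ S ∈ T, M.Coprime (∏ q ∈ S, q) := fun S hS => Nat.Coprime.prod_right fun q hq =>
    ((Nat.Prime.coprime_iff_not_dvd (hp S hS q hq)).2 ((hT S hS).1 q hq).2).symm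
  have h3 : ∀ S ∈ T, a (M * ∏ q ∈ S, q) ≡ c [MOD M] ∧ a (M * ∏ q ∈ S, q) ≡ 1 [MOD ∏ q ∈ S, q] :=
    fun S hS => by
      have := ha (M * ∏ q ∈ S, q)
      rw [Nat.mul_div_cancel_left _ hM] at this
      exact this (h2 S hS)
  refine le_trans ?_ (hR (T.image fun S => M * ∏ q ∈ S, q) a fun N hN => ?_)
  · rw [sum_image fun S hS S' hS' h => by
      rw [← Nat.primeFactors_prod (hp S hS), ← Nat.primeFactors_prod (hp S' hS'),
        Nat.eq_of_mul_eq_mul_left hM h]]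
    refine sum_le_sum fun S hS => mul_le_mul ?_ (le_of_eq ?_) (abs_nonneg _) (by positivity)
    · refine pow_le_pow_right₀ (by norm_num) (card_le_card ?_)
      conv_lhs => rw [← Nat.primeFactors_prod (hp S hS)]
      exact Nat.primeFactors_mono (Dvd.intro_left _ rfl) (h0 S hS).ne'
    · rw [Err, Nat.totient_mul (h2 S hS), Nat.cast_mul, sifted_totient S (hp S hS),
        prod_div_distrib, prod_const_one, div_mul_div_comm, mul_one]
      refine congrArg (fun t => |t - _|) (sum_congr (Finset.ext fun n => ?_) fun _ _ => rfl)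
      simp only [mem_filter, and_assoc]
      refine and_congr_right fun hn => ?_
      rw [← Nat.modEq_and_modEq_iff_modEq_mul (h2 S hS)]
      have h4 := (mem_Icc.1 hn).1
      refine and_congr ⟨fun h => h.trans (h3 S hS).1.symm, fun h => h.trans (h3 S hS).1⟩
        ⟨fun h => ?_, fun h q hq => ?_⟩
      · exact ((Nat.modEq_iff_dvd' h4).2 (prod_primes_dvd _ (fun q hq => (hp S hS q hq).prime)
          h)).symm.trans (h3 S hS).2.symm
      · exact (dvd_prod_of_mem _ hq).trans ((Nat.modEq_iff_dvd' h4).1 (h.trans (h3 S hS).2).symm)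
  · obtain ⟨S, hS, rfl⟩ := mem_image.1 hN
    refine ⟨h0 S hS, (hT S hS).2, Nat.Coprime.mul_right ?_ ?_⟩
    · rwa [Nat.Coprime, (h3 S hS).1.gcd_eq]
    · rw [Nat.Coprime, (h3 S hS).2.gcd_eq, Nat.gcd_one_left]

open Classical in
theorem sifted_lower : ∃ α : ℝ, 0 < α ∧ ∀ M c : ℕ, 0 < M → 2 ∣ M → c.Coprime M →
    ∃ κ : ℝ, 0 < κ ∧ ∀ l₀ : ℕ, 0 < l₀ → ∀ᶠ x : ℝ in atTop, ∀ z : ℝ, 3 ≤ z → l₀ ≤ z → z ≤ x ^ α →
      κ / l₀ * (x * Real.log z / Real.log x ^ 2) ≤
        #((PI (x / Real.exp 4) x).filter fun p => p ≡ c [MOD M] ∧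
          ∀ q : ℕ, q.Prime → q ∣ p - 1 → q ∣ M ∨ (l₀ < q ∧ (q : ℝ) ≤ z) ∨ x ^ α < q) := by
  refine ⟨1 / 4000, by norm_num, fun M c hM h2 hc => ?_⟩
  obtain ⟨c₀, hc₀, hV⟩ := sifted_large
  obtain ⟨C₁, hC₁, hm⟩ := mertens1
  obtain ⟨C, hBV⟩ := bombieri_vinogradov 64 2
  have hφ : (0 : ℝ) < M.totient := by exact_mod_cast Nat.totient_pos.2 hM
  refine ⟨25 * c₀ / M.totient, by positivity, fun l₀ hl₀ => ?_⟩
  set κ := 25 * c₀ / M.totient with hκ
  have hκ0 : 0 < κ := by positivity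
  have hl : (0 : ℝ) < l₀ := by exact_mod_cast hl₀
  filter_upwards [hBV, wt_sum_lower, eventually_gt_atTop 1,
    Real.tendsto_log_atTop.eventually_ge_atTop (125 * Real.log M),
    Real.tendsto_log_atTop.eventually_ge_atTop (8000 * C₁),
    Real.tendsto_log_atTop.eventually_ge_atTop (C * l₀ / κ)] with x hBV hw hx e1 e2 e3 z hz hlz hzy
  have hx0 : 0 < x := by linarith
  set L := Real.log x with hL
  have hL0 : 0 < L := Real.log_pos hx
  set y := x ^ (1 / 4000 : ℝ) with hy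
  have hly : Real.log y = 1 / 4000 * L := Real.log_rpow hx0 _
  have hlz1 : 1 ≤ Real.log z := by
    rw [Real.le_log_iff_exp_le (by linarith)]
    linarith [Real.exp_one_lt_d9]
  set P := (PI 0 y).filter fun q => ¬ q ∣ M ∧ (q ≤ l₀ ∨ z < q) with hP
  have hPm : ∀ q ∈ P, q.Prime ∧ ¬ q ∣ M ∧ (3 : ℝ) ≤ q ∧ (q : ℝ) ≤ y := fun q hq => by
    obtain ⟨h3, h4, -⟩ := mem_filter.1 hq
    obtain ⟨-, h5, h6⟩ := mem_PI.1 h3
    have h7 : q ≠ 2 := fun h => h4 (h ▸ h2)
    have h8 : 3 ≤ q := by have := h6.two_le; omega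
    exact ⟨h6, h4, by exact_mod_cast h8, h5⟩
  have hg : ∀ q : ℕ, (3 : ℝ) ≤ q → 0 ≤ 1 / ((q : ℝ) - 1) ∧ 1 / ((q : ℝ) - 1) ≤ 1 / 2 := fun q hq =>
    ⟨one_div_nonneg.2 (by linarith), one_div_le_one_div_of_le (by norm_num) (by linarith)⟩
  have hS := (sieve P (fun q => 1 / ((q : ℝ) - 1)) (fun q => Real.log q / (7 / 500 * L))
    ((Icc 1 ⌊x⌋₊).filter fun n => n ≡ c [MOD M]) (wt x) (fun q n => q ∣ n - 1)
    ((∑ n ∈ Icc 1 ⌊x⌋₊, wt x n) / M.totient) (fun n _ => wt_nonneg x n)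
    (div_nonneg (by linarith) hφ.le) (fun q hq => hg q (hPm q hq).2.2.1)
    (fun q hq => ⟨div_nonneg (Real.log_natCast_nonneg q) (by positivity), by
      obtain ⟨-, -, h3, h4⟩ := hPm q hq
      rw [div_le_iff₀ (by positivity)]
      linarith [Real.log_le_log (by linarith) h4]⟩) (by
      refine le_trans (b := ∑ q ∈ PI 0 y, Real.log q / q * (2 / (7 / 500 * L)))
        (le_trans (sum_le_sum fun q hq => ?_) (sum_le_sum_of_subset_of_nonneg (filter_subset _ _)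
          fun q _ _ => mul_nonneg (div_nonneg (Real.log_natCast_nonneg q) q.cast_nonneg)
            (by positivity))) ?_
      · obtain ⟨-, -, h3, -⟩ := hPm q hq
        have h4 : 1 / ((q : ℝ) - 1) ≤ 2 / q := by
          rw [div_le_div_iff₀ (by linarith) (by linarith)]; linarith
        refine (mul_le_mul_of_nonneg_right h4
          (div_nonneg (Real.log_natCast_nonneg q) (by positivity))).trans (le_of_eq (by ring))
      · rw [← sum_mul, ← mul_div_assoc, div_le_iff₀ (by positivity)]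
        linarith [hm y (by linarith)]) (C * x / L ^ 2) (by
      convert sifted_rem hM hc x _ _ _ (fun S hS => ?_) hBV
      obtain ⟨h3, h4⟩ := mem_filter.1 hS
      have h5 := fun q hq => hPm q (mem_powerset.1 h3 hq)
      refine ⟨fun q hq => ⟨(h5 q hq).1, (h5 q hq).2.1⟩, ?_⟩
      have h6 : ∀ q ∈ S, (q : ℝ) ≠ 0 := fun q hq => by linarith [(h5 q hq).2.2.1]
      have h7 : (M : ℝ) ≠ 0 := by exact_mod_cast hM.ne'
      rw [← sum_div, div_le_iff₀ (by positivity)] at h4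
      push_cast
      rw [Real.rpow_def_of_pos hx0, ← Real.log_le_iff_le_exp (by
        exact mul_pos (by exact_mod_cast hM) (prod_pos fun q hq => by linarith [(h5 q hq).2.2.1])),
        Real.log_mul h7 (prod_ne_zero_iff.2 h6), Real.log_prod h6]
      linarith)).1
  have hV' : 1 / l₀ * (c₀ * (Real.log z / (1 / 4000 * L))) ≤ ∏ q ∈ P, (1 - 1 / ((q : ℝ) - 1)) := by
    have h3 : ∀ q ∈ Ioc 2 l₀ ∪ PI z y, (3 : ℝ) ≤ q := fun q hq => by
      rcases mem_union.1 hq with h | h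
      · exact_mod_cast (mem_Ioc.1 h).1
      · linarith [(mem_PI.1 h).1]
    refine le_trans ?_ (prod_le_prod_of_subset_of_le_one (t := Ioc 2 l₀ ∪ PI z y)
      (fun q hq => ?_) (fun q hq => by linarith [(hg q (h3 q hq)).2])
      fun q hq _ => by linarith [(hg q (h3 q hq)).1])
    · rw [prod_union (disjoint_left.2 fun q h4 h5 => by
        have h6 : (q : ℝ) ≤ l₀ := by exact_mod_cast (mem_Ioc.1 h4).2
        linarith [(mem_PI.1 h5).1]), ← hly]
      exact mul_le_mul (sifted_small l₀ hl₀) (hV z y hz hzy) (by rw [hly]; positivity)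
        (le_trans (by positivity) (sifted_small l₀ hl₀))
    · obtain ⟨h4, -, h5, h6⟩ := hPm q hq
      rcases (mem_filter.1 hq).2.2 with h | h
      · exact mem_union_left _ (mem_Ioc.2 ⟨by exact_mod_cast (by linarith : (2 : ℝ) < q), h⟩)
      · exact mem_union_right _ (mem_PI.2 ⟨h, h6, h4⟩)
  have h3 := mul_le_mul (div_le_div_of_nonneg_right hw hφ.le) hV' (by positivity)
    (div_nonneg (by linarith) hφ.le)
  have h4 : x / 10 / M.totient * (1 / l₀ * (c₀ * (Real.log z / (1 / 4000 * L)))) =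
      16 * (κ / l₀ * (x * Real.log z / L ^ 2) * L) := by
    rw [hκ]; field_simp; ring
  have h5 : C * x / L ^ 2 ≤ κ / l₀ * (x * Real.log z / L ^ 2) * L := by
    rw [div_le_iff₀ hκ0] at e3
    have h6 : C ≤ κ / l₀ * L * Real.log z :=
      le_trans (by rw [div_mul_eq_mul_div, le_div_iff₀ hl]; linarith)
        (le_mul_of_one_le_right (by positivity) hlz1)
    calc C * x / L ^ 2 = C * (x / L ^ 2) := by ring
      _ ≤ κ / l₀ * L * Real.log z * (x / L ^ 2) := by gcongr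
      _ = _ := by ring
  refine le_of_mul_le_mul_right (le_trans (by linarith) (hS.trans ?_)) hL0
  rw [← sum_filter_ne_zero, ← nsmul_eq_mul]
  refine (sum_le_card_nsmul _ _ L fun n hn => ?_).trans
    (nsmul_le_nsmul_left hL0.le (card_le_card fun n hn => ?_))
  · obtain ⟨-, h6, h7⟩ := mem_PI.1 (mem_PI_of_wt hx0 (mem_filter.1 hn).2)
    exact (wt_le x n).trans (Real.log_le_log (by exact_mod_cast h7.pos) h6)
  · simp only [mem_filter] at hn ⊢
    obtain ⟨⟨⟨-, h6⟩, h7⟩, h8⟩ := hn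
    refine ⟨mem_PI_of_wt hx0 h8, h6, fun q hq hd => ?_⟩
    by_contra h9
    simp only [not_or, not_and_or, not_lt, not_le] at h9
    exact h7 q (mem_filter.2 ⟨mem_PI.2 ⟨by exact_mod_cast hq.pos, h9.2.2, hq⟩, h9.1, h9.2.1⟩) hd

end Pool.Agent.MP_48b1c3_nt.H54
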